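import Mathlib
import Pool.Agent.H685R2.VST.Base

/-!
# The learning algorithm
-/

namespace Pool.Agent.H685R2.RK

open Pool.Agent.H685R2.VST (tup mem_tup)

/-- The bit of a point. -/
def gb (a : List Bool) (j : ℕ) : Bool := a.getD j false

/-- Two points agree on a list of variables. -/
def agr (a b : List Bool) (L : List ℕ) : Bool := L.all (fun j => decide (gb a j = gb b j))

/-- Is the variable `y` forced, after fixing the variables of `V` and at most `J` other ones? -/
def forced (J : ℕ) (R : List ℕ) (neg : List (List Bool)) (V : List ℕ) (y : ℕ) : Bool :=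
  neg.any (fun a => (tup J R).any (fun S => !(decide (y ∈ S)) &&
    neg.all (fun a' => !(agr a a' (V ++ S)) || decide (gb a y = gb a' y))))

/-- One step of the computation of `V`. -/
def vstep (J : ℕ) (R : List ℕ) (neg : List (List Bool)) (V : List ℕ) : List ℕ :=
  R.filter (fun y => decide (y ∈ V) || forced J R neg V y)

/-- The set `V` of the variables with forced values. -/
def vset (J : ℕ) (R : List ℕ) (neg : List (List Bool)) : List ℕ :=
  (fun V : List ℕ => vstep J R neg V)^[(0 :: R).length] []

/-- The counts. -/
def cntL (neg : List (List Bool)) (a : List Bool) (H : List ℕ) (x y : ℕ) (s : Bool) : ℕ :=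
  (neg.filter (fun a' => agr a a' H && (decide (gb a' x = (gb a x == s)) &&
    decide (gb a' y = !(gb a y))))).length

/-- The variables with a small statistic. -/
def lam (q m₁ : ℕ) (R : List ℕ) (neg : List (List Bool)) (V : List ℕ) (a : List Bool) (x : ℕ)
    (Z : List ℕ) : List ℕ :=
  R.filter (fun y => !(decide (y ∈ V)) && (!(decide (y = x)) &&
    decide (2 * q * cntL neg a (V ++ Z) x y true < m₁ + 2 * q * cntL neg a (V ++ Z) x y false)))

/-- Sublists, truncated. -/
def subl {β : Type} (cap : List β) (L : List ℕ) : List (List ℕ) :=
  L.foldr (fun y acc => ((acc ++ acc.map (fun l => y :: l)).zip cap).map Prod.fst) [[]]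

/-- The candidate terms for one example, one variable and one blocking set. -/
def candZ {β : Type} (cap : List β) (q m₁ : ℕ) (R : List ℕ) (neg : List (List Bool)) (V : List ℕ)
    (a : List Bool) (x : ℕ) (Z : List ℕ) : List (List (ℕ × Bool)) :=
  (subl cap (lam q m₁ R neg V a x Z)).map (fun S =>
    V.map (fun j => (j, gb a j)) ++ ((x, !(gb a x)) :: S.map (fun j => (j, gb a j))))

/-- The candidate terms. -/
def cands {β : Type} (cap : List β) (k q m₁ : ℕ) (R : List ℕ) (neg : List (List Bool))
    (V : List ℕ) : List (List (ℕ × Bool)) :=
  neg.flatMap (fun a => R.flatMap (fun x => (tup k R).flatMap (fun Z =>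
    candZ cap q m₁ R neg V a x Z)))

/-- Is the term true at the point? -/
def trL (t : List (ℕ × Bool)) (b : List Bool) : Bool := t.all (fun p => decide (gb b p.1 = p.2))

/-- The hypotheses: the surviving terms, and the patterns of the negative examples. -/
abbrev Hyp : Type := List (List (ℕ × Bool)) × List (List (ℕ × Bool))

/-- The hypothesis for given lists of negative examples. -/
def learnN {β : Type} (cap : List β) (k J E q m₁ : ℕ) (R : List ℕ) (neg negA : List (List Bool)) :
    Hyp :=
  if 4 * E * neg.length < 3 * m₁ then ([], []) else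
    ((cands cap k q m₁ R neg (vset J R neg)).filter (fun t => !(negA.any (fun b => trL t b))),
      neg.map (fun a => (vset J R neg).map (fun j => (j, gb a j))))

/-- The evaluation of a hypothesis. -/
def evalH (h : Hyp) (b : List Bool) : Bool :=
  h.1.any (fun t => trL t b) || !(h.2.any (fun t => trL t b))

/-! ### Basic facts -/

theorem gb_ofFn {n : ℕ} (x : Fin n → Bool) (j : Fin n) : gb (List.ofFn x) j.val = x j := by
  unfold gb
  rw [List.getD_eq_getElem?_getD, List.getElem?_ofFn]
  simp

theorem gb_ofFn_ge {n : ℕ} (x : Fin n → Bool) {j : ℕ} (hj : n ≤ j) : gb (List.ofFn x) j = false := by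
  unfold gb
  rw [List.getD_eq_getElem?_getD, List.getElem?_ofFn]
  simp [Nat.not_lt.2 hj]

/-- The finset of a list of numbers. -/
def fs (n : ℕ) (L : List ℕ) : Finset (Fin n) := Finset.univ.filter (fun j => j.val ∈ L)

theorem mem_fs {n : ℕ} {L : List ℕ} {j : Fin n} : j ∈ fs n L ↔ j.val ∈ L := by
  unfold fs
  simp

theorem fs_append {n : ℕ} (L L' : List ℕ) : fs n (L ++ L') = fs n L ∪ fs n L' := by
  ext j
  rw [Finset.mem_union, mem_fs, mem_fs, mem_fs, List.mem_append]

theorem card_fs_le {n : ℕ} (L : List ℕ) : (fs n L).card ≤ L.length := by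
  classical
  have h : (fs n L).image Fin.val ⊆ L.toFinset := by
    intro x hx
    obtain ⟨j, hj, rfl⟩ := Finset.mem_image.1 hx
    rw [List.mem_toFinset]
    exact mem_fs.1 hj
  have h1 := Finset.card_le_card h
  rw [Finset.card_image_of_injective _ Fin.val_injective] at h1
  exact h1.trans (List.toFinset_card_le _)

/-- The list of a finset. -/
noncomputable def tl {n : ℕ} (S : Finset (Fin n)) : List ℕ := S.toList.map Fin.val

theorem mem_tl {n : ℕ} {S : Finset (Fin n)} {j : Fin n} : j.val ∈ tl S ↔ j ∈ S := by
  unfold tl
  rw [List.mem_map]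
  constructor
  · rintro ⟨i, hi, h⟩
    rw [← Fin.ext h]
    exact Finset.mem_toList.1 hi
  · intro h
    exact ⟨j, Finset.mem_toList.2 h, rfl⟩

theorem fs_tl {n : ℕ} (S : Finset (Fin n)) : fs n (tl S) = S := by
  ext j
  rw [mem_fs, mem_tl]

theorem tl_mem_tup {n J : ℕ} {S : Finset (Fin n)} (hS : S.card ≤ J) :
    tl S ∈ tup J (List.range n) := by
  rw [mem_tup]
  constructor
  · unfold tl
    rw [List.length_map, Finset.length_toList]
    exact hS
  · intro x hx
    unfold tl at hx
    obtain ⟨i, _, rfl⟩ := List.mem_map.1 hx
    exact List.mem_range.2 i.2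

theorem agr_iff {n : ℕ} {x y : Fin n → Bool} {L : List ℕ} :
    agr (List.ofFn x) (List.ofFn y) L = true ↔ ∀ j ∈ fs n L, x j = y j := by
  unfold agr
  rw [List.all_eq_true]
  constructor
  · intro h j hj
    have := h j.val (mem_fs.1 hj)
    rwa [decide_eq_true_eq, gb_ofFn, gb_ofFn] at this
  · intro h j hj
    rw [decide_eq_true_eq]
    by_cases hjn : j < n
    · have h1 := gb_ofFn x ⟨j, hjn⟩
      have h2 := gb_ofFn y ⟨j, hjn⟩
      simp only at h1 h2
      rw [h1, h2]
      exact h ⟨j, hjn⟩ (mem_fs.2 hj)
    · rw [gb_ofFn_ge x (by omega), gb_ofFn_ge y (by omega)]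

theorem mem_subl {β : Type} (cap : List β) : ∀ (L S : List ℕ), S.Sublist L →
    2 ^ L.length ≤ cap.length → S ∈ subl cap L ∧ (subl cap L).length ≤ 2 ^ L.length
  | [], S, h, _ => by
    rw [List.sublist_nil.1 h]
    simp [subl]
  | y :: L, S, h, hc => by
    have hc' : 2 ^ L.length ≤ cap.length :=
      (Nat.pow_le_pow_right (by norm_num) (by simp)).trans hc
    have hlen : (subl cap L).length ≤ 2 ^ L.length := (mem_subl cap L [] (List.nil_sublist _) hc').2
    have hun : subl cap (y :: L) = ((subl cap L ++ (subl cap L).map (fun l => y :: l)).zip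
        cap).map Prod.fst := rfl
    have hl2 : (subl cap L ++ (subl cap L).map (fun l => y :: l)).length ≤ 2 ^ (y :: L).length := by
      rw [List.length_append, List.length_map, List.length_cons, pow_succ]
      omega
    have hz : ((subl cap L ++ (subl cap L).map (fun l => y :: l)).zip cap).map Prod.fst =
        subl cap L ++ (subl cap L).map (fun l => y :: l) :=
      List.map_fst_zip (hl2.trans hc)
    rw [hun, hz]
    refine ⟨?_, hl2⟩
    rw [List.mem_append]
    rcases List.sublist_cons_iff.1 h with h1 | ⟨S', hS', h2⟩
    · exact Or.inl (mem_subl cap L S h1 hc').1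
    · exact Or.inr (List.mem_map.2 ⟨S', (mem_subl cap L S' h2 hc').1, hS'.symm⟩)

theorem length_subl {β : Type} (cap : List β) (hcap : 1 ≤ cap.length) (L : List ℕ) :
    (subl cap L).length ≤ cap.length := by
  cases L with
  | nil => simpa [subl] using hcap
  | cons y L =>
    have hun : subl cap (y :: L) = ((subl cap L ++ (subl cap L).map (fun l => y :: l)).zip
        cap).map Prod.fst := rfl
    rw [hun, List.length_map, List.length_zip]
    exact Nat.min_le_right _ _

theorem length_tup {α : Type} : ∀ (k : ℕ) (L : List α), (tup k L).length = (L.length + 1) ^ k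
  | 0, L => by simp [tup]
  | k + 1, L => by
    unfold tup
    rw [List.length_append, List.length_flatMap]
    have h : (tup k L).map (fun a => (L.map (fun x => x :: a)).length) =
        List.replicate (tup k L).length L.length := by
      rw [List.eq_replicate_iff]
      refine ⟨by simp, ?_⟩
      intro b hb
      obtain ⟨a, _, rfl⟩ := List.mem_map.1 hb
      simp
    rw [h, List.sum_replicate, length_tup k L, smul_eq_mul, pow_succ]
    ring

theorem length_flatMap_le {α β : Type} (l : List α) (f : α → List β) (B : ℕ)
    (h : ∀ a ∈ l, (f a).length ≤ B) : (l.flatMap f).length ≤ l.length * B := by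
  rw [List.length_flatMap]
  have : (l.map (fun a => (f a).length)).sum ≤ (l.map (fun a => (f a).length)).length • B :=
    List.sum_le_card_nsmul _ _ (by
      intro x hx
      obtain ⟨a, ha, rfl⟩ := List.mem_map.1 hx
      exact h a ha)
  rw [List.length_map, smul_eq_mul] at this
  exact this

theorem length_cands {β : Type} (cap : List β) (hcap : 1 ≤ cap.length) (k q m₁ : ℕ) (R : List ℕ)
    (neg : List (List Bool)) (V : List ℕ) : (cands cap k q m₁ R neg V).length ≤
      neg.length * (R.length * ((R.length + 1) ^ k * cap.length)) := by
  unfold cands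
  apply length_flatMap_le
  intro a _
  apply length_flatMap_le
  intro x _
  rw [← length_tup k R]
  apply length_flatMap_le
  intro Z _
  unfold candZ
  rw [List.length_map]
  exact length_subl cap hcap _

/-! ### Stability of the iteration -/

theorem vstep_sub {J : ℕ} {R : List ℕ} {neg : List (List Bool)} {V : List ℕ} :
    ∀ y ∈ vstep J R neg V, y ∈ R := fun _ hy => List.mem_of_mem_filter hy

theorem vset_stable (J : ℕ) (R : List ℕ) (neg : List (List Bool)) :
    vstep J R neg (vset J R neg) = vset J R neg := by
  set f : List ℕ → List ℕ := fun V => vstep J R neg V with hf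
  have hform : ∀ t, ∃ p : ℕ → Bool, f^[t] [] = R.filter p := by
    intro t
    cases t with
    | zero => exact ⟨fun _ => false, by simp⟩
    | succ t =>
      rw [Function.iterate_succ', Function.comp_apply]
      exact ⟨_, rfl⟩
  have key : ∀ t, f (f^[t] []) = f^[t] [] ∨ t ≤ (f^[t] []).length := by
    intro t
    induction t with
    | zero => right; simp
    | succ t ih =>
      rcases ih with h | h
      · left
        rw [Function.iterate_succ', Function.comp_apply, h, h]
      · obtain ⟨p, hp⟩ := hform t
        have hnext : f (f^[t] []) = R.filter (fun y => decide (y ∈ f^[t] []) ||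
            forced J R neg (f^[t] []) y) := rfl
        have hsub : (f^[t] []).Sublist (f (f^[t] [])) := by
          rw [hnext]
          have h1 : f^[t] [] = (R.filter (fun y => decide (y ∈ f^[t] []) ||
              forced J R neg (f^[t] []) y)).filter p := by
            rw [List.filter_filter, hp]
            apply List.filter_congr
            intro y hy
            by_cases hpy : p y = true
            · simp [hpy, hy]
            · simp [hpy]
          conv_lhs => rw [h1]
          exact List.filter_sublist
        by_cases heq : f (f^[t] []) = f^[t] []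
        · left
          rw [Function.iterate_succ', Function.comp_apply, heq, heq]
        · right
          rw [Function.iterate_succ', Function.comp_apply]
          have h2 := hsub.length_le
          have h3 : (f^[t] []).length ≠ (f (f^[t] [])).length := fun h =>
            heq (hsub.eq_of_length h).symm
          omega
  rcases key (0 :: R).length with h | h
  · exact h
  · exfalso
    obtain ⟨p, hp⟩ := hform (0 :: R).length
    rw [hp] at h
    have := List.length_filter_le p R
    rw [List.length_cons] at h
    omega

theorem vset_sub (J : ℕ) (R : List ℕ) (neg : List (List Bool)) : ∀ y ∈ vset J R neg, y ∈ R := by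
  intro y hy
  rw [← vset_stable] at hy
  exact vstep_sub y hy

theorem vset_closed (J : ℕ) (R : List ℕ) (neg : List (List Bool)) {y : ℕ} (hy : y ∈ R)
    (hf : forced J R neg (vset J R neg) y = true) : y ∈ vset J R neg := by
  rw [← vset_stable]
  unfold vstep
  rw [List.mem_filter, Bool.or_eq_true]
  exact ⟨hy, Or.inr hf⟩

theorem vset_induct (J : ℕ) (R : List ℕ) (neg : List (List Bool)) (P : ℕ → Prop)
    (h : ∀ V : List ℕ, (∀ y ∈ V, P y) → ∀ y ∈ R, forced J R neg V y = true → P y) :
    ∀ y ∈ vset J R neg, P y := by
  have key : ∀ t, ∀ y ∈ (fun V : List ℕ => vstep J R neg V)^[t] [], P y := by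
    intro t
    induction t with
    | zero => intro y hy; simp at hy
    | succ t ih =>
      intro y hy
      rw [Function.iterate_succ', Function.comp_apply] at hy
      unfold vstep at hy
      rw [List.mem_filter, Bool.or_eq_true, decide_eq_true_eq] at hy
      rcases hy.2 with h1 | h1
      · exact ih y h1
      · exact h _ ih y hy.1 h1
  exact key _

end Pool.Agent.H685R2.RK
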