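import Pool.Agent.H685R2.RK.LLL

/-!
# Closures of sets of variables in read-`k` formulas
-/

namespace Pool.Agent.H685R2.RK

open Finset

section

variable {n : ℕ} {ι : Type} [DecidableEq ι] {F : ι → Finset (Fin n)} {v : ι → Fin n → Bool}
  {k θ : ℕ} {I : Finset ι}

theorem dcount (hread : RdK F k I) (M : Finset ι) (hM : M ⊆ I) (H : Finset (Fin n)) :
    ∑ i ∈ M, (F i ∩ H).card ≤ k * H.card := by
  have h1 : ∑ i ∈ M, (F i ∩ H).card = ∑ j ∈ H, (M.filter (fun i => j ∈ F i)).card := by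
    have h2 := Finset.sum_card_bipartiteAbove_eq_sum_card_bipartiteBelow (s := M) (t := H)
      (r := fun i j => j ∈ F i)
    unfold Finset.bipartiteAbove Finset.bipartiteBelow at h2
    rw [← h2]
    apply Finset.sum_congr rfl
    intro i _
    rw [Finset.inter_comm, Finset.filter_mem_eq_inter]
  rw [h1, mul_comm, ← smul_eq_mul, ← Finset.sum_const]
  apply Finset.sum_le_sum
  intro j _
  refine (Finset.card_le_card ?_).trans (hread j)
  exact Finset.filter_subset_filter _ hM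

theorem exists_last (P : ℕ → Prop) (B : ℕ) (h0 : P 0) (hB : ∀ s, P s → s ≤ B) :
    ∃ s, P s ∧ ¬ P (s + 1) := by
  by_contra hcon
  push Not at hcon
  have : ∀ s, P s := fun s => by
    induction s with
    | zero => exact h0
    | succ s ih => exact hcon s ih
  have := hB _ (this (B + 1))
  omega

/-- Closure: adding few variables, every clause becomes satisfied or stays wide. -/
theorem closure (hk : 1 ≤ k) {J : ℕ} (hJ : 4 * k ≤ J) (hread : RdK F k I) {V F₀ : Finset (Fin n)}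
    (hV : V ⊆ F₀) {a : Cube n} (ha : Sat F v I a)
    (hwide : ∀ i ∈ al F v I V a, J ≤ (F i \ V).card ∨ ∃ j ∈ F i, j ∈ F₀ ∧ a j ≠ v i j) :
    ∃ G, F₀ ⊆ G ∧ (G \ V).card ≤ 2 * (F₀ \ V).card ∧
      ∀ i ∈ al F v I G a, J ≤ (F i \ V).card ∧ (F i \ V).card ≤ 2 * (F i \ G).card := by
  let Q : Finset ι → Finset (Fin n) → Prop := fun M G => M ⊆ I ∧ F₀ ⊆ G ∧
    (G \ V).card ≤ (F₀ \ V).card + M.card ∧ ∀ i ∈ M, J ≤ (F i \ V).card ∧
      (F i \ V).card ≤ 2 * (F i ∩ (G \ V)).card ∧ ∃ j ∈ F i, j ∈ G ∧ a j ≠ v i j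
  have hbound : ∀ M G, Q M G → M.card ≤ (F₀ \ V).card := by
    rintro M G ⟨h1, h2, h3, h4⟩
    have h5 := dcount hread M h1 (G \ V)
    have h6 : M.card * J ≤ ∑ i ∈ M, (F i \ V).card := by
      rw [← smul_eq_mul, ← Finset.sum_const]
      exact Finset.sum_le_sum fun i hi => (h4 i hi).1
    have h7 : ∑ i ∈ M, (F i \ V).card ≤ 2 * ∑ i ∈ M, (F i ∩ (G \ V)).card := by
      rw [Finset.mul_sum]
      exact Finset.sum_le_sum fun i hi => (h4 i hi).2.1
    have h8 : M.card * (4 * k) ≤ M.card * J := Nat.mul_le_mul_left _ hJ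
    have h9 : k * (G \ V).card ≤ k * ((F₀ \ V).card + M.card) := Nat.mul_le_mul_left _ h3
    have h10 : k * (2 * M.card) ≤ k * ((F₀ \ V).card + M.card) := by nlinarith
    have h11 := Nat.le_of_mul_le_mul_left h10 (by omega)
    omega
  obtain ⟨s, ⟨M, G, hQ, hs⟩, hlast⟩ := exists_last (fun s => ∃ M G, Q M G ∧ M.card = s)
    (F₀ \ V).card ⟨∅, F₀, ⟨Finset.empty_subset _, subset_rfl, by simp, by simp⟩, by simp⟩ (by
      rintro s ⟨M, G, hQ, rfl⟩
      exact hbound M G hQ)
  have hb := hbound M G hQ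
  obtain ⟨h1, h2, h3, h4⟩ := hQ
  refine ⟨G, h2, by omega, ?_⟩
  intro i hi
  obtain ⟨hiI, hia⟩ := mem_al.1 hi
  have hiV : i ∈ al F v I V a := mem_al.2 ⟨hiI, fun j hj hjV => hia j hj (h2 (hV hjV))⟩
  have hJi : J ≤ (F i \ V).card := by
    rcases hwide i hiV with h | ⟨j, hj, hj0, hja⟩
    · exact h
    · exact absurd (hia j hj (h2 hj0)) hja
  refine ⟨hJi, ?_⟩
  by_contra hcon
  apply hlast
  obtain ⟨j, hj, hja⟩ : ∃ j ∈ F i, a j ≠ v i j := by
    have := ha i hiI
    unfold Tr at this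
    push Not at this
    exact this
  have hjG : j ∉ G := fun h => hja (hia j hj h)
  have hiM : i ∉ M := by
    intro h
    obtain ⟨_, _, j', hj', hj'G, hj'a⟩ := h4 i h
    exact hj'a (hia j' hj' hj'G)
  refine ⟨insert i M, insert j G, ⟨?_, ?_, ?_, ?_⟩, ?_⟩
  · exact Finset.insert_subset hiI h1
  · exact h2.trans (Finset.subset_insert _ _)
  · rw [Finset.card_insert_of_notMem hiM]
    have : insert j G \ V ⊆ insert j (G \ V) := by
      intro x hx
      rw [Finset.mem_sdiff, Finset.mem_insert] at hx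
      rw [Finset.mem_insert, Finset.mem_sdiff]
      tauto
    have h5 := Finset.card_le_card this
    have h6 := Finset.card_insert_le j (G \ V)
    omega
  · intro i' hi'
    rcases Finset.mem_insert.1 hi' with rfl | hi'
    · refine ⟨hJi, ?_, j, hj, Finset.mem_insert_self _ _, hja⟩
      have h5 : (F i' \ V).card = (F i' ∩ (G \ V)).card + (F i' \ G).card := by
        rw [← Finset.card_union_of_disjoint]
        · congr 1
          ext x
          simp only [Finset.mem_sdiff, Finset.mem_union, Finset.mem_inter]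
          constructor
          · rintro ⟨hx1, hx2⟩
            by_cases hx3 : x ∈ G
            · exact Or.inl ⟨hx1, hx3, hx2⟩
            · exact Or.inr ⟨hx1, hx3⟩
          · rintro (⟨hx1, _, hx3⟩ | ⟨hx1, hx2⟩)
            · exact ⟨hx1, hx3⟩
            · exact ⟨hx1, fun h => hx2 (h2 (hV h))⟩
        · rw [Finset.disjoint_left]
          intro x hx hx'
          exact (Finset.mem_sdiff.1 hx').2 (Finset.mem_sdiff.1 (Finset.mem_inter.1 hx).2).1
      have h6 : (F i' ∩ (G \ V)).card ≤ (F i' ∩ (insert j G \ V)).card := by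
        apply Finset.card_le_card
        apply Finset.inter_subset_inter_left
        exact Finset.sdiff_subset_sdiff (Finset.subset_insert _ _) subset_rfl
      omega
    · obtain ⟨h5, h6, j', hj', hj'G, hj'a⟩ := h4 i' hi'
      refine ⟨h5, h6.trans ?_, j', hj', Finset.mem_insert_of_mem hj'G, hj'a⟩
      apply Nat.mul_le_mul_left
      apply Finset.card_le_card
      apply Finset.inter_subset_inter_left
      exact Finset.sdiff_subset_sdiff (Finset.subset_insert _ _) subset_rfl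
  · rw [Finset.card_insert_of_notMem hiM, hs]

/-- A small set that contains every clause or misses many of its variables. -/
theorem exists_W (hk : 1 ≤ k) {J₂ J₃ : ℕ} (hJ₂ : 1 ≤ J₂) (hJ : 2 * k * J₂ ≤ J₃)
    (hread : RdK F k I) (Sh : Finset (Fin n)) (hSh : ∀ i ∈ I, (F i).card < J₃ → F i ⊆ Sh) :
    ∃ W, Sh ⊆ W ∧ W.card ≤ 2 * Sh.card ∧ ∀ i ∈ I, F i ⊆ W ∨ J₂ ≤ (F i \ W).card := by
  let Q : Finset ι → Finset (Fin n) → Prop := fun M W => M ⊆ I ∧ Sh ⊆ W ∧
    W.card ≤ Sh.card + J₂ * M.card ∧ ∀ i ∈ M, J₃ ≤ (F i).card ∧ F i ⊆ W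
  have hbound : ∀ M W, Q M W → J₂ * M.card ≤ Sh.card := by
    rintro M W ⟨h1, h2, h3, h4⟩
    have h5 := dcount hread M h1 W
    have h6 : M.card * J₃ ≤ ∑ i ∈ M, (F i ∩ W).card := by
      rw [← smul_eq_mul, ← Finset.sum_const]
      refine Finset.sum_le_sum fun i hi => ?_
      rw [Finset.inter_eq_left.2 (h4 i hi).2]
      exact (h4 i hi).1
    have h8 : M.card * (2 * k * J₂) ≤ M.card * J₃ := Nat.mul_le_mul_left _ hJ
    have h9 : k * W.card ≤ k * (Sh.card + J₂ * M.card) := Nat.mul_le_mul_left _ h3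
    have h10 : k * (2 * (J₂ * M.card)) ≤ k * (Sh.card + J₂ * M.card) := by nlinarith
    have h11 := Nat.le_of_mul_le_mul_left h10 (by omega)
    omega
  obtain ⟨s, ⟨M, W, hQ, hs⟩, hlast⟩ := exists_last (fun s => ∃ M W, Q M W ∧ M.card = s)
    Sh.card ⟨∅, Sh, ⟨Finset.empty_subset _, subset_rfl, by simp, by simp⟩, by simp⟩ (by
      rintro s ⟨M, W, hQ, rfl⟩
      have := hbound M W hQ
      nlinarith)
  have hb := hbound M W hQ
  obtain ⟨h1, h2, h3, h4⟩ := hQ
  refine ⟨W, h2, by omega, ?_⟩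
  intro i hi
  by_contra hcon
  push Not at hcon
  obtain ⟨hc1, hc2⟩ := hcon
  apply hlast
  have hiM : i ∉ M := fun h => hc1 (h4 i h).2
  have hJi : J₃ ≤ (F i).card := by
    by_contra h
    exact hc1 ((hSh i hi (by omega)).trans h2)
  refine ⟨insert i M, W ∪ F i, ⟨Finset.insert_subset hi h1, h2.trans Finset.subset_union_left,
    ?_, ?_⟩, ?_⟩
  · rw [Finset.card_insert_of_notMem hiM]
    have h5 : (W ∪ F i).card ≤ W.card + (F i \ W).card := by
      rw [← Finset.union_sdiff_self_eq_union]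
      exact Finset.card_union_le _ _
    have h6 : J₂ * (M.card + 1) = J₂ * M.card + J₂ := by ring
    omega
  · intro i' hi'
    rcases Finset.mem_insert.1 hi' with rfl | hi'
    · exact ⟨hJi, Finset.subset_union_right⟩
    · exact ⟨(h4 i' hi').1, (h4 i' hi').2.trans Finset.subset_union_left⟩
  · rw [Finset.card_insert_of_notMem hiM, hs]

/-- A variable outside of a closed set can be flipped. -/
theorem flip (hk : 1 ≤ k) (hθ : (4 * k : ℝ) ≤ (3 / 2) ^ θ) (hread : RdK F k I)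
    {G : Finset (Fin n)} {a : Cube n} (hw : ∀ i ∈ al F v I G a, θ + 1 ≤ (F i \ G).card)
    {y : Fin n} (hy : y ∉ G) : ∃ a', Sat F v I a' ∧ (∀ j ∈ G, a' j = a j) ∧ a' y ≠ a y := by
  obtain ⟨x, hx1, hx2⟩ := exists_ext (v := v) hk hθ hread (insert y G)
    (Function.update a y (!(a y))) (by
      intro i hi
      obtain ⟨h1, h2⟩ := mem_al.1 hi
      have h3 : i ∈ al F v I G a := by
        refine mem_al.2 ⟨h1, fun j hj hjG => ?_⟩
        have h4 := h2 j hj (Finset.mem_insert_of_mem hjG)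
        rwa [Function.update_of_ne (show j ≠ y from fun h => hy (h ▸ hjG))] at h4
      have h4 := hw i h3
      have h5 : F i \ G ⊆ insert y (F i \ insert y G) := by
        intro x hx
        rw [Finset.mem_sdiff] at hx
        rw [Finset.mem_insert, Finset.mem_sdiff, Finset.mem_insert]
        tauto
      have h6 := (Finset.card_le_card h5).trans (Finset.card_insert_le _ _)
      omega)
  refine ⟨x, hx2, ?_, ?_⟩
  · intro j hj
    rw [hx1 j (Finset.mem_insert_of_mem hj), Function.update_of_ne (show j ≠ y from fun h => hy (h ▸ hj))]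
  · rw [hx1 y (Finset.mem_insert_self _ _), Function.update_self]
    simp

/-- The gap lemma: an extendable pattern has many extensions. -/
theorem gap_base (hk : 1 ≤ k) (hθ : (4 * k : ℝ) ≤ (3 / 2) ^ θ) (hread : RdK F k I) {J₃ : ℕ}
    (hJ : 4 * k ≤ J₃) (hJ' : 2 * θ ≤ J₃) (Sh : Finset (Fin n))
    (hSh : ∀ i ∈ I, (F i).card < J₃ → F i ⊆ Sh) (F₀ : Finset (Fin n)) {a : Cube n}
    (ha : Sat F v I a) : (3 / 8 : ℝ) ^ (2 * (F₀.card + Sh.card)) * N (Sat F v I) ≤
      N (fun x => (∀ j ∈ F₀, x j = a j) ∧ Sat F v I x) := by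
  obtain ⟨G, h1, h2, h3⟩ := closure (F := F) (v := v) (V := ∅) (F₀ := F₀ ∪ Sh) hk hJ hread
    (Finset.empty_subset _) ha (by
      intro i hi
      rw [Finset.sdiff_empty]
      by_cases h : (F i).card < J₃
      · right
        obtain ⟨hiI, _⟩ := mem_al.1 hi
        have := ha i hiI
        unfold Tr at this
        push Not at this
        obtain ⟨j, hj, hj'⟩ := this
        exact ⟨j, hj, Finset.mem_union_right _ (hSh i hiI h hj), hj'⟩
      · left; omega)
  rw [Finset.sdiff_empty, Finset.sdiff_empty] at h2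
  have h4 := gap (F := F) (v := v) hk hθ hread G a (by
    intro i hi
    obtain ⟨h5, h6⟩ := h3 i hi
    rw [Finset.sdiff_empty] at h5 h6
    omega)
  have h5 : G.card ≤ 2 * (F₀.card + Sh.card) :=
    h2.trans (Nat.mul_le_mul_left _ (Finset.card_union_le _ _))
  have h6 : (3 / 8 : ℝ) ^ (2 * (F₀.card + Sh.card)) ≤ (3 / 8) ^ G.card :=
    pow_le_pow_of_le_one (by norm_num) (by norm_num) h5
  refine (mul_le_mul_of_nonneg_right h6 (N_nonneg _)).trans (h4.trans ?_)
  apply N_mono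
  rintro x ⟨h7, h8⟩
  exact ⟨fun j hj => h7 j (h1 (Finset.mem_union_left _ hj)), h8⟩

variable (F v I) in
/-- No variable outside of `V` is forced by the values on `V` and on at most `J` other variables. -/
def Closed (J : ℕ) (V : Finset (Fin n)) : Prop :=
  ∀ a, Sat F v I a → ∀ S : Finset (Fin n), S.card ≤ J → ∀ y, y ∉ V → y ∉ S →
    ∃ a', Sat F v I a' ∧ (∀ j ∈ V, a' j = a j) ∧ (∀ j ∈ S, a' j = a j) ∧ a' y ≠ a y

theorem unforced_W (hk : 1 ≤ k) (hθ : (4 * k : ℝ) ≤ (3 / 2) ^ θ) (hread : RdK F k I)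
    {J₁ J₂ : ℕ} (hJ : J₁ + θ + 1 ≤ J₂) {W : Finset (Fin n)}
    (hW : ∀ i ∈ I, F i ⊆ W ∨ J₂ ≤ (F i \ W).card) : Closed F v I J₁ W := by
  intro a ha S hS y hyW hyS
  obtain ⟨a', h1, h2, h3⟩ := flip (F := F) (v := v) (G := W ∪ S) (a := a) hk hθ hread (by
    intro i hi
    obtain ⟨hiI, hia⟩ := mem_al.1 hi
    rcases hW i hiI with h | h
    · exfalso
      apply ha i hiI
      intro j hj
      exact hia j hj (Finset.mem_union_left _ (h hj))
    · have h4 : F i \ W ⊆ (F i \ (W ∪ S)) ∪ S := by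
        intro x hx
        rw [Finset.mem_sdiff] at hx
        rw [Finset.mem_union, Finset.mem_sdiff, Finset.mem_union]
        tauto
      have h5 := (Finset.card_le_card h4).trans (Finset.card_union_le _ _)
      omega) (y := y) (by
        rw [Finset.mem_union]
        tauto)
  exact ⟨a', h1, fun j hj => h2 j (Finset.mem_union_left _ hj),
    fun j hj => h2 j (Finset.mem_union_right _ hj), h3⟩

/-- After fixing a closed set, all remaining clauses are wide. -/
theorem res_width {J₁ : ℕ} {V : Finset (Fin n)} (hcl : Closed F v I J₁ V) {a : Cube n}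
    (ha : Sat F v I a) {i : ι} (hi : i ∈ al F v I V a) : J₁ + 2 ≤ (F i \ V).card := by
  by_contra hcon
  obtain ⟨hiI, hia⟩ := mem_al.1 hi
  have key : ∀ (s : ℕ) (b : Cube n), Sat F v I b → (∀ j ∈ V, b j = a j) →
      ((F i \ V).filter (fun j => b j ≠ v i j)).card ≤ s → False := by
    intro s
    induction s with
    | zero =>
      intro b hb hbV hs
      apply hb i hiI
      intro j hj
      by_cases hjV : j ∈ V
      · rw [hbV j hjV]; exact hia j hj hjV
      · by_contra hne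
        have : j ∈ (F i \ V).filter (fun j => b j ≠ v i j) :=
          Finset.mem_filter.2 ⟨Finset.mem_sdiff.2 ⟨hj, hjV⟩, hne⟩
        rw [Finset.card_eq_zero.1 (Nat.le_zero.1 hs)] at this
        exact absurd this (Finset.notMem_empty _)
    | succ s ih =>
      intro b hb hbV hs
      have hbi := hb i hiI
      unfold Tr at hbi
      push Not at hbi
      obtain ⟨y, hy, hyb⟩ := hbi
      have hyV : y ∉ V := by
        intro h
        apply hyb
        rw [hbV y h]
        exact hia y hy h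
      have hyF : y ∈ F i \ V := Finset.mem_sdiff.2 ⟨hy, hyV⟩
      obtain ⟨b', h1, h2, h3, h4⟩ := hcl b hb ((F i \ V).erase y) (by
        rw [Finset.card_erase_of_mem hyF]; omega) y hyV (Finset.notMem_erase _ _)
      have hb'y : b' y = v i y := by
        cases h5 : b' y <;> cases h6 : v i y <;> cases h7 : b y <;> simp_all
      refine ih b' h1 (fun j hj => by rw [h2 j hj, hbV j hj]) ?_
      have h5 : (F i \ V).filter (fun j => b' j ≠ v i j) ⊆
          ((F i \ V).filter (fun j => b j ≠ v i j)).erase y := by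
        intro j hj
        rw [Finset.mem_filter] at hj
        have hjy : j ≠ y := by
          rintro rfl
          exact hj.2 hb'y
        rw [Finset.mem_erase, Finset.mem_filter]
        refine ⟨hjy, hj.1, ?_⟩
        rw [← h3 j (Finset.mem_erase.2 ⟨hjy, hj.1⟩)]
        exact hj.2
      have h6 := Finset.card_le_card h5
      rw [Finset.card_erase_of_mem (Finset.mem_filter.2 ⟨hyF, hyb⟩)] at h6
      omega
  exact key _ a ha (fun _ _ => rfl) le_rfl

theorem res_closure (hk : 1 ≤ k) {J₁ : ℕ} (hJ : 4 * k ≤ J₁ + 2) (hread : RdK F k I)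
    {V F₀ : Finset (Fin n)} (hcl : Closed F v I J₁ V) (hV : V ⊆ F₀) {a : Cube n}
    (ha : Sat F v I a) : ∃ G, F₀ ⊆ G ∧ (G \ V).card ≤ 2 * (F₀ \ V).card ∧
      ∀ i ∈ al F v I G a, J₁ + 2 ≤ 2 * (F i \ G).card := by
  obtain ⟨G, h1, h2, h3⟩ := closure (F := F) (v := v) hk hJ hread hV ha
    (fun i hi => Or.inl (res_width hcl ha hi))
  exact ⟨G, h1, h2, fun i hi => (h3 i hi).1.trans (h3 i hi).2⟩

/-! ### Short clauses -/

theorem short_count (hread : RdK F k I) {J₃ : ℕ} : ∀ (t : ℕ) (S : Finset ι), S ⊆ I →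
    (∀ i ∈ S, (F i).card ≤ J₃) → t * (k * J₃) ≤ S.card → 1 ≤ k * J₃ →
    N (Sat F v S) ≤ (1 - (1 / 2 : ℝ) ^ J₃) ^ t * 2 ^ n
  | 0, S, _, _, _, _ => by
    rw [pow_zero, one_mul]
    exact N_le _
  | t + 1, S, hS, hw, hc, h1 => by
    have hne : 0 < S.card := by
      have : (t + 1) * (k * J₃) = t * (k * J₃) + k * J₃ := by ring
      omega
    obtain ⟨i₀, hi₀⟩ := Finset.card_pos.1 hne
    set S1 := S.filter (fun i => ∃ j ∈ F i, j ∈ F i₀) with hS1
    set S2 := S.filter (fun i => ¬ ∃ j ∈ F i, j ∈ F i₀) with hS2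
    have hcard : S1.card + S2.card = S.card := Finset.card_filter_add_card_filter_not _
    have h2 : S1.card ≤ k * (F i₀).card := touch_card hread _ S1
      ((Finset.filter_subset _ _).trans hS) (fun i hi => (Finset.mem_filter.1 hi).2)
    have h3 : k * (F i₀).card ≤ k * J₃ := Nat.mul_le_mul_left _ (hw i₀ hi₀)
    have h4 : t * (k * J₃) ≤ S2.card := by
      have : (t + 1) * (k * J₃) = t * (k * J₃) + k * J₃ := by ring
      omega
    have ih := short_count hread t S2 ((Finset.filter_subset _ _).trans hS)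
      (fun i hi => hw i (Finset.filter_subset _ _ hi)) h4 h1
    have h5 := N_pat (v i₀) (F i₀) (Sat F v S2) (by
      intro x y hxy hx i hi hTr
      apply hx i hi
      intro j hj
      rw [hxy j]
      · exact hTr j hj
      · intro hj'
        exact (Finset.mem_filter.1 hi).2 ⟨j, hj, hj'⟩)
    have h6 : N (Sat F v S) ≤ N (Sat F v S2) -
        N (fun x => (∀ j ∈ F i₀, x j = v i₀ j) ∧ Sat F v S2 x) := by
      rw [N_split (Sat F v S2) (Tr F v i₀)]
      have h7 : N (fun x => Sat F v S2 x ∧ Tr F v i₀ x) =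
          N (fun x => (∀ j ∈ F i₀, x j = v i₀ j) ∧ Sat F v S2 x) :=
        N_congr fun x => and_comm
      have h8 : N (Sat F v S) ≤ N (fun x => Sat F v S2 x ∧ ¬ Tr F v i₀ x) := by
        apply N_mono
        intro x hx
        exact ⟨fun i hi => hx i (Finset.filter_subset _ _ hi), hx i₀ hi₀⟩
      linarith
    have h9 : N (fun x => (∀ j ∈ F i₀, x j = v i₀ j) ∧ Sat F v S2 x) =
        (1 / 2 : ℝ) ^ (F i₀).card * N (Sat F v S2) := by
      rw [← h5, mul_comm _ ((2 : ℝ) ^ _), ← mul_assoc, ← mul_pow]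
      norm_num
    have h10 : (1 / 2 : ℝ) ^ J₃ ≤ (1 / 2) ^ (F i₀).card :=
      pow_le_pow_of_le_one (by norm_num) (by norm_num) (hw i₀ hi₀)
    have h11 : (0 : ℝ) ≤ 1 - (1 / 2) ^ J₃ := by
      rw [sub_nonneg]
      exact pow_le_one₀ (by norm_num) (by norm_num)
    calc N (Sat F v S) ≤ N (Sat F v S2) - (1 / 2 : ℝ) ^ (F i₀).card * N (Sat F v S2) := by
          rw [← h9]; exact h6
      _ ≤ N (Sat F v S2) - (1 / 2 : ℝ) ^ J₃ * N (Sat F v S2) := by
          have := mul_le_mul_of_nonneg_right h10 (N_nonneg (Sat F v S2))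
          linarith
      _ = (1 - (1 / 2 : ℝ) ^ J₃) * N (Sat F v S2) := by ring
      _ ≤ (1 - (1 / 2 : ℝ) ^ J₃) * ((1 - (1 / 2 : ℝ) ^ J₃) ^ t * 2 ^ n) :=
          mul_le_mul_of_nonneg_left ih h11
      _ = _ := by ring

theorem pow_half (J : ℕ) : (1 - (1 / 2 : ℝ) ^ J) ^ (2 ^ J) ≤ 1 / 2 := by
  set x : ℝ := (1 / 2) ^ J with hx
  have hx0 : 0 < x := by positivity
  have hx1 : x ≤ 1 := pow_le_one₀ (by norm_num) (by norm_num)
  have h1 : (2 : ℝ) ≤ (1 + x) ^ (2 ^ J) := by
    have h2 := one_add_mul_le_pow (a := x) (by linarith) (2 ^ J)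
    have h3 : ((2 ^ J : ℕ) : ℝ) * x = 1 := by
      rw [hx]
      push_cast
      rw [← mul_pow]
      norm_num
    rw [h3] at h2
    linarith
  have h2 : (1 - x) ^ (2 ^ J) * (1 + x) ^ (2 ^ J) ≤ 1 := by
    rw [← mul_pow]
    apply pow_le_one₀
    · nlinarith
    · nlinarith
  have h3 : 0 ≤ (1 - x) ^ (2 ^ J) := pow_nonneg (by linarith) _
  nlinarith

theorem short_bound (hk : 1 ≤ k) (hread : RdK F k I) {J₃ ℓ : ℕ} (hJ : 1 ≤ J₃)
    (hI : 2 ^ n ≤ N (Sat F v I) * 2 ^ ℓ) :
    (I.filter (fun i => (F i).card ≤ J₃)).card < 2 ^ J₃ * (ℓ + 1) * (k * J₃) := by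
  by_contra hcon
  push Not at hcon
  have h1 := short_count (v := v) hread (2 ^ J₃ * (ℓ + 1)) (I.filter (fun i => (F i).card ≤ J₃))
    (Finset.filter_subset _ _) (fun i hi => (Finset.mem_filter.1 hi).2) hcon
    (Nat.one_le_iff_ne_zero.2 (Nat.mul_ne_zero (by omega) (by omega)))
  have h2 : N (Sat F v I) ≤ N (Sat F v (I.filter (fun i => (F i).card ≤ J₃))) :=
    N_mono fun x hx i hi => hx i (Finset.filter_subset _ _ hi)
  have h3 : (1 - (1 / 2 : ℝ) ^ J₃) ^ (2 ^ J₃ * (ℓ + 1)) ≤ (1 / 2) ^ (ℓ + 1) := by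
    rw [pow_mul]
    apply pow_le_pow_left₀ _ (pow_half J₃)
    apply pow_nonneg
    rw [sub_nonneg]
    exact pow_le_one₀ (by norm_num) (by norm_num)
  have h4 : N (Sat F v I) * 2 ^ ℓ ≤ ((1 / 2) ^ (ℓ + 1) * 2 ^ n) * 2 ^ ℓ := by
    apply mul_le_mul_of_nonneg_right _ (by positivity)
    exact h2.trans (h1.trans (mul_le_mul_of_nonneg_right h3 (by positivity)))
  have h5 : ((1 / 2 : ℝ) ^ (ℓ + 1) * 2 ^ n) * 2 ^ ℓ = 2 ^ n / 2 := by
    have : (1 / 2 : ℝ) ^ (ℓ + 1) * 2 ^ ℓ = 1 / 2 := by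
      rw [pow_succ, mul_right_comm, ← mul_pow]
      norm_num
    calc _ = ((1 / 2 : ℝ) ^ (ℓ + 1) * 2 ^ ℓ) * 2 ^ n := by ring
      _ = _ := by rw [this]; ring
  have h6 : (0 : ℝ) < 2 ^ n := by positivity
  linarith

end

end Pool.Agent.H685R2.RK
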