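import Pool.Agent.H685R2.RK.Isolate
import Pool.Agent.H685R2.RK.Alg

/-!
# Correctness of the learning algorithm on good samples
-/

namespace Pool.Agent.H685R2.RK

open Finset
open Pool.Agent.H685R2.VST (tup mem_tup)

/-- Clauses of at most this width are short. -/
def cJ3 (k : ℕ) : ℕ := 2 * k * (14 * k + 1)

/-- Constant for the number of variables of short clauses. -/
def c1 (k : ℕ) : ℕ := 2 * (2 ^ (cJ3 k) * (k * cJ3 k)) * cJ3 k

/-- Constant in the exponent of the sample size. -/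
def c2 (k : ℕ) : ℕ := 12 * c1 k + 44 * k + 9

/-- The number of examples in the list that follow a pattern. -/
def cP {n : ℕ} (neg : List (List Bool)) (G : Finset (Fin n)) (b : Cube n) : ℕ :=
  (neg.filter (fun a => decide (∀ j ∈ G, gb a j.val = b j))).length

/-- A good list of negative examples. -/
structure GoodL {n : ℕ} (f : Cube n → Bool) (neg : List (List Bool)) (m₁ : ℕ) (τ : ℝ) : Prop where
  pts : ∀ a ∈ neg, ∃ x : Cube n, a = List.ofFn x ∧ f x = false
  cnt : ∀ (G : Finset (Fin n)) (b : Cube n), |(cP neg G b : ℝ) -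
    m₁ * (N (fun x => f x = false ∧ ∀ j ∈ G, x j = b j) / 2 ^ n)| < τ * m₁

section

variable {n : ℕ} {f : Cube n → Bool} {neg : List (List Bool)} {m₁ : ℕ} {τ : ℝ}

theorem GoodL.appear (h : GoodL f neg m₁ τ) (G : Finset (Fin n)) (b : Cube n)
    (hp : τ ≤ N (fun x => f x = false ∧ ∀ j ∈ G, x j = b j) / 2 ^ n) :
    ∃ x : Cube n, List.ofFn x ∈ neg ∧ f x = false ∧ ∀ j ∈ G, x j = b j := by
  have h1 := (abs_lt.1 (h.cnt G b)).1
  have h2 : τ * m₁ ≤ m₁ * (N (fun x => f x = false ∧ ∀ j ∈ G, x j = b j) / 2 ^ n) := by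
    rw [mul_comm]
    exact mul_le_mul_of_nonneg_left hp (Nat.cast_nonneg _)
  have h3 : (0 : ℝ) < cP neg G b := by linarith
  have h4 : 0 < cP neg G b := by exact_mod_cast h3
  unfold cP at h4
  obtain ⟨a, ha⟩ := List.exists_mem_of_length_pos h4
  rw [List.mem_filter, decide_eq_true_eq] at ha
  obtain ⟨x, rfl, hx⟩ := h.pts a ha.1
  exact ⟨x, ha.1, hx, fun j hj => by rw [← gb_ofFn x j]; exact ha.2 j hj⟩

end

/-- The situation of the analysis. -/
structure Ctx (k n E ℓ q m₁ : ℕ) {ι : Type} [DecidableEq ι] (F : ι → Finset (Fin n))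
    (v : ι → Fin n → Bool) (I : Finset ι) (f : Cube n → Bool) (neg : List (List Bool)) : Prop where
  hk : 1 ≤ k
  hread : RdK F k I
  hf : ∀ x, f x = true ↔ ∃ i ∈ I, Tr F v i x
  hℓ : 1 ≤ ℓ
  hq : 2 ^ (c2 k * ℓ) ≤ q
  hm : q ≤ m₁
  good : GoodL f neg m₁ (1 / (4 * q))
  big : 2 ^ n ≤ N (Sat F v I) * 2 ^ ℓ

theorem bnot_of_ne {a b : Bool} (h : a ≠ b) : (!a) = b := by
  cases a <;> cases b <;> simp_all

theorem theta_ok {k : ℕ} : (4 * k : ℝ) ≤ (3 / 2) ^ (4 * k) := by
  rw [pow_mul]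
  have h1 := one_add_mul_le_pow (a := (4 : ℝ)) (by norm_num) k
  have h2 : (1 + 4 : ℝ) ^ k ≤ ((3 / 2) ^ 4) ^ k := pow_le_pow_left₀ (by norm_num) (by norm_num) k
  refine le_trans ?_ (h1.trans h2)
  linarith

section

variable {k n E ℓ q m₁ : ℕ} {ι : Type} [DecidableEq ι] {F : ι → Finset (Fin n)}
  {v : ι → Fin n → Bool} {I : Finset ι} {f : Cube n → Bool} {neg : List (List Bool)}

theorem Ctx.sat (h : Ctx k n E ℓ q m₁ F v I f neg) (x : Cube n) :
    Sat F v I x ↔ f x = false := by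
  have h1 := h.hf x
  rw [← Bool.not_eq_true, h1]
  unfold Sat
  push Not
  rfl

theorem Ctx.qpos (h : Ctx k n E ℓ q m₁ F v I f neg) : 0 < q :=
  lt_of_lt_of_le (by positivity) h.hq

/-- The set of the variables of short clauses, and its closure. -/
theorem Ctx.exists_W (h : Ctx k n E ℓ q m₁ F v I f neg) :
    ∃ Sh W : Finset (Fin n), (∀ i ∈ I, (F i).card < cJ3 k → F i ⊆ Sh) ∧ Sh.card ≤ c1 k * ℓ ∧
      W.card ≤ 2 * (c1 k * ℓ) ∧ Closed F v I (10 * k) W := by
  classical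
  have hk := h.hk
  have hJ3 : 1 ≤ cJ3 k := by
    unfold cJ3
    exact Nat.one_le_iff_ne_zero.2 (by positivity)
  set S := I.filter (fun i => (F i).card ≤ cJ3 k) with hS
  have h1 := short_bound (v := v) hk h.hread hJ3 h.big
  have h2 : (S.biUnion F).card ≤ c1 k * ℓ := by
    refine Finset.card_biUnion_le.trans ?_
    refine (Finset.sum_le_card_nsmul _ _ (cJ3 k) (fun i hi => (Finset.mem_filter.1 hi).2)).trans ?_
    rw [smul_eq_mul]
    have h3 : S.card ≤ 2 ^ cJ3 k * (2 * ℓ) * (k * cJ3 k) := by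
      refine h1.le.trans ?_
      apply Nat.mul_le_mul_right
      apply Nat.mul_le_mul_left
      have := h.hℓ
      omega
    refine (Nat.mul_le_mul_right _ h3).trans (le_of_eq ?_)
    unfold c1
    ring
  have hSh : ∀ i ∈ I, (F i).card < cJ3 k → F i ⊆ S.biUnion F := by
    intro i hi hc j hj
    exact Finset.mem_biUnion.2 ⟨i, Finset.mem_filter.2 ⟨hi, hc.le⟩, hj⟩
  obtain ⟨W, hW1, hW2, hW3⟩ := RK.exists_W (F := F) hk (J₂ := 14 * k + 1) (by omega)
    (le_of_eq (by unfold cJ3; rfl)) h.hread (S.biUnion F) hSh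
  refine ⟨S.biUnion F, W, hSh, h2, hW2.trans (Nat.mul_le_mul_left _ h2), ?_⟩
  exact unforced_W hk theta_ok h.hread (by omega) hW3

/-- The gap lemma with the constants of the algorithm. -/
theorem Ctx.gap_pow (h : Ctx k n E ℓ q m₁ F v I f neg) {e : ℕ}
    (he : e ≤ 2 * (3 * (c1 k * ℓ) + 11 * k + ℓ + 1)) :
    (1 : ℝ) / q ≤ (3 / 8) ^ e * N (Sat F v I) / 2 ^ n := by
  have hk := h.hk
  have hℓ := h.hℓ
  have h0 : (0 : ℝ) < 2 ^ n := by positivity
  have h1 : (1 / 2 : ℝ) ^ ℓ ≤ N (Sat F v I) / 2 ^ n := by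
    rw [le_div_iff₀ h0]
    have h2 := h.big
    have h3 : (1 / 2 : ℝ) ^ ℓ * 2 ^ ℓ = 1 := by rw [← mul_pow]; norm_num
    have h4 : (0 : ℝ) < 2 ^ ℓ := by positivity
    rw [← mul_le_mul_iff_left₀ h4]
    calc (1 / 2 : ℝ) ^ ℓ * 2 ^ n * 2 ^ ℓ = ((1 / 2 : ℝ) ^ ℓ * 2 ^ ℓ) * 2 ^ n := by ring
      _ = 2 ^ n := by rw [h3, one_mul]
      _ ≤ _ := h2
  have h2 : (1 / 2 : ℝ) ^ (2 * e) ≤ (3 / 8) ^ e := by
    rw [pow_mul]
    exact pow_le_pow_left₀ (by norm_num) (by norm_num) e
  have h3 : (1 / 2 : ℝ) ^ (c2 k * ℓ) ≤ (1 / 2) ^ (2 * e) * (1 / 2) ^ ℓ := by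
    rw [← pow_add]
    apply pow_le_pow_of_le_one (by norm_num) (by norm_num)
    unfold c2
    have h4 : (12 * c1 k + 44 * k + 9) * ℓ = 12 * (c1 k * ℓ) + 44 * (k * ℓ) + 9 * ℓ := by ring
    have h5 : k ≤ k * ℓ := Nat.le_mul_of_pos_right _ hℓ
    rw [h4]
    omega
  have h4 : (1 : ℝ) / q ≤ (1 / 2) ^ (c2 k * ℓ) := by
    rw [one_div_pow]
    apply one_div_le_one_div_of_le (by positivity)
    exact_mod_cast h.hq
  calc (1 : ℝ) / q ≤ (1 / 2) ^ (2 * e) * (1 / 2) ^ ℓ := h4.trans h3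
    _ ≤ (3 / 8) ^ e * (N (Sat F v I) / 2 ^ n) :=
        mul_le_mul h2 h1 (by positivity) (by positivity)
    _ = _ := by ring

theorem Ctx.J_ok (hk : 1 ≤ k) : 4 * k ≤ cJ3 k ∧ 2 * (4 * k) ≤ cJ3 k := by
  unfold cJ3
  constructor
  · nlinarith
  · nlinarith

theorem Ctx.tau_le (h : Ctx k n E ℓ q m₁ F v I f neg) : (1 : ℝ) / (4 * q) ≤ 1 / q := by
  have : (0 : ℝ) < q := by exact_mod_cast h.qpos
  apply one_div_le_one_div_of_le this
  linarith

/-- Small extendable patterns appear in the sample. -/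
theorem Ctx.appear (h : Ctx k n E ℓ q m₁ F v I f neg) {Sh : Finset (Fin n)}
    (hSh : ∀ i ∈ I, (F i).card < cJ3 k → F i ⊆ Sh) (hShc : Sh.card ≤ c1 k * ℓ)
    {x : Cube n} (hx : f x = false) (G : Finset (Fin n))
    (hG : G.card ≤ 2 * (c1 k * ℓ) + 11 * k + ℓ + 1) :
    ∃ x' : Cube n, List.ofFn x' ∈ neg ∧ f x' = false ∧ ∀ j ∈ G, x' j = x j := by
  apply h.good.appear
  refine h.tau_le.trans ?_
  obtain ⟨hJ4, hJ5⟩ := Ctx.J_ok h.hk
  have h1 := gap_base (F := F) (v := v) h.hk theta_ok h.hread hJ4 hJ5 Sh hSh G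
    ((h.sat x).2 hx)
  have h2 := h.gap_pow (e := 2 * (G.card + Sh.card)) (by omega)
  refine h2.trans ?_
  apply div_le_div_of_nonneg_right _ (by positivity)
  refine h1.trans (N_mono ?_)
  rintro y ⟨h3, h4⟩
  exact ⟨(h.sat y).1 h4, h3⟩

/-- The computed set `V` is inside `W`. -/
theorem Ctx.V_sub (h : Ctx k n E ℓ q m₁ F v I f neg) {Sh W : Finset (Fin n)}
    (hSh : ∀ i ∈ I, (F i).card < cJ3 k → F i ⊆ Sh) (hShc : Sh.card ≤ c1 k * ℓ)
    (hWc : W.card ≤ 2 * (c1 k * ℓ)) (hW : Closed F v I (10 * k) W) :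
    fs n (vset (10 * k) (List.range n) neg) ⊆ W := by
  have key : ∀ y ∈ vset (10 * k) (List.range n) neg, ∀ hy : y < n, (⟨y, hy⟩ : Fin n) ∈ W := by
    apply vset_induct (10 * k) (List.range n) neg (fun y => ∀ hy : y < n, (⟨y, hy⟩ : Fin n) ∈ W)
    intro V hV y _ hfor hyn
    by_contra hyW
    unfold forced at hfor
    simp only [List.any_eq_true, Bool.and_eq_true, Bool.not_eq_true', decide_eq_false_iff_not,
      List.all_eq_true, Bool.or_eq_true, decide_eq_true_eq, mem_tup] at hfor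
    obtain ⟨a, ha, S, ⟨hSl, _⟩, hyS, hall⟩ := hfor
    obtain ⟨x, rfl, hx⟩ := h.good.pts a ha
    have hSc : (fs n S).card ≤ 10 * k := (card_fs_le S).trans hSl
    obtain ⟨x', h1, h2, h3, h4⟩ := hW x ((h.sat x).2 hx) (fs n S) hSc ⟨y, hyn⟩ hyW
      (fun h => hyS (mem_fs.1 h))
    have hVW : fs n V ⊆ W := fun j hj => hV j.val (mem_fs.1 hj) j.2
    obtain ⟨x'', h5, h6, h7⟩ := h.appear hSh hShc ((h.sat x').1 h1)
      (insert ⟨y, hyn⟩ (fs n V ∪ fs n S)) (by
        have h8 := Finset.card_insert_le (⟨y, hyn⟩ : Fin n) (fs n V ∪ fs n S)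
        have h9 := Finset.card_union_le (fs n V) (fs n S)
        have h10 := Finset.card_le_card hVW
        omega)
    rcases hall _ h5 with h8 | h8
    · have h9 : agr (List.ofFn x) (List.ofFn x'') (V ++ S) = true := by
        rw [agr_iff, fs_append]
        intro j hj
        rw [h7 j (Finset.mem_insert_of_mem hj)]
        rcases Finset.mem_union.1 hj with hj | hj
        · rw [h2 j (hVW hj)]
        · rw [h3 j hj]
      rw [h9] at h8
      exact absurd h8 (by simp)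
    · have h9 := gb_ofFn x ⟨y, hyn⟩
      have h10 := gb_ofFn x'' ⟨y, hyn⟩
      simp only at h9 h10
      rw [h9, h10, h7 _ (Finset.mem_insert_self _ _)] at h8
      exact h4 h8.symm
  intro j hj
  exact key j.val (mem_fs.1 hj) j.2

/-- The computed set `V` is closed. -/
theorem Ctx.V_closed (h : Ctx k n E ℓ q m₁ F v I f neg) {Sh W : Finset (Fin n)}
    (hSh : ∀ i ∈ I, (F i).card < cJ3 k → F i ⊆ Sh) (hShc : Sh.card ≤ c1 k * ℓ)
    (hWc : W.card ≤ 2 * (c1 k * ℓ)) (hW : Closed F v I (10 * k) W) :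
    Closed F v I (10 * k) (fs n (vset (10 * k) (List.range n) neg)) := by
  have hVW := h.V_sub hSh hShc hWc hW
  set V := vset (10 * k) (List.range n) neg with hVdef
  intro x hx S hS y hyV hyS
  obtain ⟨x₁, h1, h2, h3⟩ := h.appear hSh hShc ((h.sat x).1 hx) (fs n V ∪ S) (by
    have h9 := Finset.card_union_le (fs n V) S
    have h10 := Finset.card_le_card hVW
    omega)
  have hnf : forced (10 * k) (List.range n) neg V y.val ≠ true := by
    intro hf
    apply hyV
    rw [mem_fs]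
    exact vset_closed _ _ _ (List.mem_range.2 y.2) hf
  unfold forced at hnf
  simp only [List.any_eq_true, Bool.and_eq_true, Bool.not_eq_true', decide_eq_false_iff_not,
      List.all_eq_true, Bool.or_eq_true, decide_eq_true_eq, ne_eq] at hnf
  push Not at hnf
  obtain ⟨a', ha', h4, h5⟩ := hnf _ h1 (tl S) (tl_mem_tup hS) (fun h => hyS (mem_tl.1 h))
  obtain ⟨x₂, rfl, hx₂⟩ := h.good.pts a' ha'
  rw [Bool.ne_false_iff, agr_iff, fs_append, fs_tl] at h4
  rw [gb_ofFn, gb_ofFn] at h5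
  by_cases h6 : x₁ y = x y
  · refine ⟨x₂, (h.sat x₂).2 hx₂, ?_, ?_, ?_⟩
    · intro j hj
      rw [← h4 j (Finset.mem_union_left _ hj), h3 j (Finset.mem_union_left _ hj)]
    · intro j hj
      rw [← h4 j (Finset.mem_union_right _ hj), h3 j (Finset.mem_union_right _ hj)]
    · rw [← h6]
      exact fun h => h5 h.symm
  · exact ⟨x₁, (h.sat x₁).2 h2, fun j hj => h3 j (Finset.mem_union_left _ hj),
      fun j hj => h3 j (Finset.mem_union_right _ hj), h6⟩

/-- The counts of the algorithm are close to the exact values. -/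
theorem Ctx.cnt_close (h : Ctx k n E ℓ q m₁ F v I f neg) (x : Cube n) (H : List ℕ)
    (x₀ y : Fin n) (hyx : y ≠ x₀) (hx₀ : x₀ ∉ fs n H) (hy : y ∉ fs n H) (s : Bool) :
    |(cntL neg (List.ofFn x) H x₀.val y.val s : ℝ) -
      m₁ * (St F v I (fs n H) x₀ y x s / 2 ^ n)| < 1 / (4 * q) * m₁ := by
  classical
  have h1 := h.good.cnt (insert x₀ (insert y (fs n H)))
    (Function.update (Function.update x y (!(x y))) x₀ (x x₀ == s))
  have hval : ∀ z : Cube n, (∀ j ∈ insert x₀ (insert y (fs n H)), z j =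
      Function.update (Function.update x y (!(x y))) x₀ (x x₀ == s) j) ↔
      (∀ j ∈ fs n H, z j = x j) ∧ z x₀ = (x x₀ == s) ∧ z y = !(x y) := by
    intro z
    rw [Finset.forall_mem_insert, Finset.forall_mem_insert, Function.update_self,
      Function.update_of_ne hyx, Function.update_self]
    constructor
    · rintro ⟨h2, h3, h4⟩
      refine ⟨fun j hj => ?_, h2, h3⟩
      rw [h4 j hj, Function.update_of_ne (show j ≠ x₀ from fun h => hx₀ (h ▸ hj)),
        Function.update_of_ne (show j ≠ y from fun h => hy (h ▸ hj))]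
    · rintro ⟨h2, h3, h4⟩
      refine ⟨h3, h4, fun j hj => ?_⟩
      rw [h2 j hj, Function.update_of_ne (show j ≠ x₀ from fun h => hx₀ (h ▸ hj)),
        Function.update_of_ne (show j ≠ y from fun h => hy (h ▸ hj))]
  have h2 : cP neg (insert x₀ (insert y (fs n H)))
      (Function.update (Function.update x y (!(x y))) x₀ (x x₀ == s)) =
      cntL neg (List.ofFn x) H x₀.val y.val s := by
    unfold cP cntL
    congr 1
    apply List.filter_congr
    intro a ha
    obtain ⟨z, rfl, _⟩ := h.good.pts a ha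
    rw [Bool.eq_iff_iff, decide_eq_true_eq, Bool.and_eq_true, Bool.and_eq_true,
      decide_eq_true_eq, decide_eq_true_eq]
    have h3 : (∀ j ∈ insert x₀ (insert y (fs n H)), gb (List.ofFn z) j.val =
      Function.update (Function.update x y (!(x y))) x₀ (x x₀ == s) j) ↔
      (∀ j ∈ insert x₀ (insert y (fs n H)), z j =
      Function.update (Function.update x y (!(x y))) x₀ (x x₀ == s) j) := by
      simp only [gb_ofFn]
    rw [h3, hval, agr_iff, gb_ofFn, gb_ofFn, gb_ofFn, gb_ofFn]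
    constructor
    · rintro ⟨h4, h5⟩
      exact ⟨fun j hj => (h4 j hj).symm, h5⟩
    · rintro ⟨h4, h5⟩
      exact ⟨fun j hj => (h4 j hj).symm, h5⟩
  have h3 : N (fun z => f z = false ∧ ∀ j ∈ insert x₀ (insert y (fs n H)), z j =
      Function.update (Function.update x y (!(x y))) x₀ (x x₀ == s) j) =
      St F v I (fs n H) x₀ y x s := by
    unfold St
    apply N_congr
    intro z
    rw [hval, h.sat]
  rw [h2, h3] at h1
  exact h1

/-- The main lemma: a true term of width at most `ℓ` is found. -/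
theorem Ctx.cover (h : Ctx k n E ℓ q m₁ F v I f neg) {β : Type} (cap : List β)
    (hcap : cap.length = m₁) {negA : List (List Bool)}
    (hnegA : ∀ a ∈ negA, ∃ x : Cube n, a = List.ofFn x ∧ f x = false)
    {b : Cube n} (hb : f b = true) (hlong : ∀ i ∈ I, ℓ < (F i).card → ¬ Tr F v i b) :
    evalH ((cands cap k q m₁ (List.range n) neg (vset (10 * k) (List.range n) neg)).filter
        (fun t => !(negA.any (fun b => trL t b))),
      neg.map (fun a => (vset (10 * k) (List.range n) neg).map (fun j => (j, gb a j))))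
      (List.ofFn b) = true := by
  classical
  obtain ⟨Sh, W, hSh, hShc, hWc, hW⟩ := h.exists_W
  have hVW := h.V_sub hSh hShc hWc hW
  have hVcl := h.V_closed hSh hShc hWc hW
  set V := vset (10 * k) (List.range n) neg with hVdef
  have hVR : ∀ y ∈ V, y < n := fun y hy => List.mem_range.1 (vset_sub _ _ _ y hy)
  have hVc : (fs n V).card ≤ 2 * (c1 k * ℓ) := (Finset.card_le_card hVW).trans hWc
  have hpat : ∀ (x z : Cube n), trL (V.map (fun j => (j, gb (List.ofFn x) j))) (List.ofFn z) = true ↔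
      ∀ j ∈ fs n V, z j = x j := by
    intro x z
    unfold trL
    simp only [List.all_eq_true, List.mem_map, decide_eq_true_eq]
    constructor
    · intro h1 j hj
      have h2 := h1 (j.val, gb (List.ofFn x) j.val) ⟨j.val, mem_fs.1 hj, rfl⟩
      rwa [gb_ofFn, gb_ofFn] at h2
    · rintro h1 p ⟨j, hj, rfl⟩
      have h2 := gb_ofFn x ⟨j, hVR j hj⟩
      have h3 := gb_ofFn z ⟨j, hVR j hj⟩
      simp only at h2 h3 ⊢
      rw [h2, h3]
      exact h1 _ (mem_fs.2 hj)
  unfold evalH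
  rw [Bool.or_eq_true, Bool.not_eq_true', List.any_eq_true, List.any_eq_false]
  by_cases hp : ∃ a ∈ neg, trL (V.map (fun j => (j, gb a j))) (List.ofFn b) = true
  swap
  · right
    intro t ht
    obtain ⟨a, ha, rfl⟩ := List.mem_map.1 ht
    exact fun h => hp ⟨a, ha, h⟩
  left
  obtain ⟨a, ha, hab⟩ := hp
  obtain ⟨a₀, rfl, ha₀⟩ := h.good.pts a ha
  rw [hpat] at hab
  obtain ⟨hJ4, hJ5⟩ := Ctx.J_ok h.hk
  have hk := h.hk
  obtain ⟨A, hA, hcov, hiso⟩ := isolate (F := F) (v := v) hk theta_ok h.hread (J₁ := 10 * k)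
    (by omega) (by omega) (by omega) hJ4 hJ5 Sh hSh hVcl ((h.sat a₀).2 ha₀)
  obtain ⟨C, hC, hCb⟩ := hcov b hab ((h.hf b).1 hb)
  have hCI : C ∈ I := (mem_al.1 (hA hC)).1
  have hCw : (F C).card ≤ ℓ := by
    by_contra hcon
    exact hlong C hCI (by omega) hCb
  have hCw' : (F C \ fs n V).card ≤ ℓ := (Finset.card_le_card Finset.sdiff_subset).trans hCw
  obtain ⟨a, x₀, Z, ha1, ha2, hx₀C, hx₀V, hx₀Z, hZc, hax, haC, hst⟩ := hiso C hC
  -- the example in the sample
  obtain ⟨a₁, h1, h2, h3⟩ := h.appear hSh hShc ((h.sat a).1 ha1) (fs n V ∪ Z ∪ F C) (by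
    have h9 := Finset.card_union_le (fs n V ∪ Z) (F C)
    have h10 := Finset.card_union_le (fs n V) Z
    omega)
  obtain ⟨hst1, G, hGc, hst2⟩ := hst a₁ ((h.sat a₁).2 h2) h3
  have h3V : ∀ j ∈ fs n V, a₁ j = a j := fun j hj =>
    h3 j (Finset.mem_union_left _ (Finset.mem_union_left _ hj))
  have h3C : ∀ j ∈ F C, a₁ j = a j := fun j hj => h3 j (Finset.mem_union_right _ hj)
  have hqpos : (0 : ℝ) < q := by exact_mod_cast h.qpos
  have hm₁pos : (0 : ℝ) < m₁ := by
    have := h.qpos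
    have := h.hm
    exact_mod_cast (by omega : 0 < m₁)
  have hH : fs n (V ++ tl Z) = fs n V ∪ Z := by rw [fs_append, fs_tl]
  have hx₀H : x₀ ∉ fs n (V ++ tl Z) := by
    rw [hH, Finset.mem_union]
    tauto
  set Λ := lam q m₁ (List.range n) neg V (List.ofFn a₁) x₀.val (tl Z) with hΛ
  have hmemΛ : ∀ y : Fin n, y.val ∈ Λ ↔ y ∉ fs n V ∧ y ≠ x₀ ∧
      2 * q * cntL neg (List.ofFn a₁) (V ++ tl Z) x₀.val y.val true <
        m₁ + 2 * q * cntL neg (List.ofFn a₁) (V ++ tl Z) x₀.val y.val false := by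
    intro y
    rw [hΛ]
    unfold lam
    rw [List.mem_filter, Bool.and_eq_true, Bool.and_eq_true, Bool.not_eq_true', Bool.not_eq_true',
      decide_eq_false_iff_not, decide_eq_false_iff_not, decide_eq_true_eq, mem_fs,
      List.mem_range]
    exact ⟨fun h => ⟨h.2.1, fun h' => h.2.2.1 (congrArg Fin.val h'), h.2.2.2⟩,
      fun h => ⟨y.2, h.1, fun h' => h.2.1 (Fin.ext h'), h.2.2⟩⟩
  -- the variables of the clause are in `Λ`
  have hin : ∀ y ∈ F C, y ∉ fs n V → y ≠ x₀ → y.val ∈ Λ := by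
    intro y hyC hyV hyx
    rw [hmemΛ]
    refine ⟨hyV, hyx, ?_⟩
    by_cases hyH : y ∈ fs n (V ++ tl Z)
    · have h4 : ∀ s, cntL neg (List.ofFn a₁) (V ++ tl Z) x₀.val y.val s = 0 := by
        intro s
        unfold cntL
        rw [List.length_eq_zero_iff, List.filter_eq_nil_iff]
        intro c hc
        obtain ⟨z, rfl, _⟩ := h.good.pts c hc
        rw [Bool.and_eq_true, Bool.and_eq_true, decide_eq_true_eq, decide_eq_true_eq, agr_iff,
          gb_ofFn, gb_ofFn, gb_ofFn, gb_ofFn]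
        rintro ⟨h5, _, h6⟩
        rw [h5 y hyH] at h6
        simp at h6
      rw [h4, h4]
      have : 0 < m₁ := by exact_mod_cast hm₁pos
      omega
    · have h4 := (abs_lt.1 (h.cnt_close a₁ (V ++ tl Z) x₀ y hyx hx₀H hyH true)).2
      have h5 := (abs_lt.1 (h.cnt_close a₁ (V ++ tl Z) x₀ y hyx hx₀H hyH false)).1
      have h6 := hst1 y hyC hyx
      rw [hH] at h4 h5
      have h7 : (cntL neg (List.ofFn a₁) (V ++ tl Z) x₀.val y.val true : ℝ) -
          cntL neg (List.ofFn a₁) (V ++ tl Z) x₀.val y.val false < 2 * (1 / (4 * q) * m₁) := by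
        have h8 : (m₁ : ℝ) * (St F v I (fs n V ∪ Z) x₀ y a₁ true / 2 ^ n) =
            m₁ * (St F v I (fs n V ∪ Z) x₀ y a₁ false / 2 ^ n) := by
          rw [sub_eq_zero.1 h6]
        linarith
      have h8 : (2 * q : ℝ) * (2 * (1 / (4 * q) * m₁)) = m₁ := by
        field_simp
        ring
      have h9 : (2 * q : ℝ) * cntL neg (List.ofFn a₁) (V ++ tl Z) x₀.val y.val true <
          m₁ + 2 * q * cntL neg (List.ofFn a₁) (V ++ tl Z) x₀.val y.val false := by
        have h10 := mul_lt_mul_of_pos_left h7 (by positivity : (0 : ℝ) < 2 * q)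
        rw [h8] at h10
        linarith
      exact_mod_cast h9
  -- `Λ` is small
  have hout : ∀ y : Fin n, y.val ∈ Λ → y ∈ G \ fs n V := by
    intro y hy
    rw [hmemΛ] at hy
    obtain ⟨hyV, hyx, hlt⟩ := hy
    rw [Finset.mem_sdiff]
    refine ⟨?_, hyV⟩
    by_contra hyG
    have h6 := hst2 y hyG hyx
    have hgap := h.gap_pow (e := 2 * ((fs n V).card + k + (F C \ fs n V).card + 1 + Sh.card))
      (by omega)
    have h2n : (0 : ℝ) < 2 ^ n := by positivity
    have h7 : (1 : ℝ) / q ≤ (St F v I (fs n V ∪ Z) x₀ y a₁ true -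
        St F v I (fs n V ∪ Z) x₀ y a₁ false) / 2 ^ n :=
      hgap.trans (div_le_div_of_nonneg_right h6 h2n.le)
    have hyH : y ∉ fs n (V ++ tl Z) := by
      intro hyH
      rw [hH] at hyH
      have h8 : ∀ s, St F v I (fs n V ∪ Z) x₀ y a₁ s = 0 := by
        intro s
        unfold St
        apply le_antisymm _ (N_nonneg _)
        rw [← not_lt, N_pos_iff]
        rintro ⟨z, _, h9, _, h10⟩
        rw [h9 y hyH] at h10
        simp at h10
      rw [h8, h8, sub_zero, zero_div] at h7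
      have : (0 : ℝ) < 1 / q := by positivity
      linarith
    have h4 := (abs_lt.1 (h.cnt_close a₁ (V ++ tl Z) x₀ y hyx hx₀H hyH true)).1
    have h5 := (abs_lt.1 (h.cnt_close a₁ (V ++ tl Z) x₀ y hyx hx₀H hyH false)).2
    rw [hH] at h4 h5
    have h8 : (2 * q : ℝ) * (2 * (1 / (4 * q) * m₁)) = m₁ := by
      field_simp
      ring
    have h9 : (m₁ : ℝ) * (1 / q) ≤ m₁ * ((St F v I (fs n V ∪ Z) x₀ y a₁ true -
        St F v I (fs n V ∪ Z) x₀ y a₁ false) / 2 ^ n) := mul_le_mul_of_nonneg_left h7 hm₁pos.le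
    rw [sub_div, mul_sub] at h9
    have h10 : (m₁ : ℝ) * (1 / q) - 2 * (1 / (4 * q) * m₁) <
        (cntL neg (List.ofFn a₁) (V ++ tl Z) x₀.val y.val true : ℝ) -
          cntL neg (List.ofFn a₁) (V ++ tl Z) x₀.val y.val false := by linarith
    have h11 := mul_lt_mul_of_pos_left h10 (by positivity : (0 : ℝ) < 2 * q)
    rw [mul_sub, h8] at h11
    have h12 : (2 * q : ℝ) * (m₁ * (1 / q)) = 2 * m₁ := by
      field_simp
    rw [h12] at h11
    have h13 : (2 * q : ℝ) * cntL neg (List.ofFn a₁) (V ++ tl Z) x₀.val y.val true <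
          m₁ + 2 * q * cntL neg (List.ofFn a₁) (V ++ tl Z) x₀.val y.val false := by
      exact_mod_cast hlt
    linarith
  have hΛlen : Λ.length ≤ 2 * (k + ℓ) := by
    have hnd : Λ.Nodup := (List.nodup_range).filter _
    have hsub : Λ.toFinset ⊆ (G \ fs n V).image Fin.val := by
      intro y hy
      rw [List.mem_toFinset] at hy
      have hyn : y < n := List.mem_range.1 (List.mem_of_mem_filter hy)
      exact Finset.mem_image.2 ⟨⟨y, hyn⟩, hout ⟨y, hyn⟩ hy, rfl⟩
    have h4 := Finset.card_le_card hsub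
    rw [List.toFinset_card_of_nodup hnd, Finset.card_image_of_injective _ Fin.val_injective] at h4
    have h5 : 2 * (k + (F C \ fs n V).card) ≤ 2 * (k + ℓ) := by omega
    omega
  have hcap2 : 2 ^ Λ.length ≤ cap.length := by
    rw [hcap]
    refine le_trans ?_ h.hm
    refine le_trans ?_ h.hq
    apply Nat.pow_le_pow_right (by norm_num)
    refine hΛlen.trans ?_
    unfold c2
    have hℓ := h.hℓ
    have h4 : (12 * c1 k + 44 * k + 9) * ℓ = 12 * (c1 k * ℓ) + 44 * (k * ℓ) + 9 * ℓ := by ring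
    have h5 : k ≤ k * ℓ := Nat.le_mul_of_pos_right _ hℓ
    rw [h4]
    omega
  -- the right sublist
  set S : List ℕ := Λ.filter (fun y => decide (∃ h : y < n, (⟨y, h⟩ : Fin n) ∈ F C)) with hS
  have hSsub : S ∈ subl cap Λ := (mem_subl cap Λ S List.filter_sublist hcap2).1
  have hmemS : ∀ y : Fin n, y.val ∈ S ↔ y ∈ F C ∧ y ∉ fs n V ∧ y ≠ x₀ := by
    intro y
    rw [hS, List.mem_filter, decide_eq_true_eq]
    constructor
    · rintro ⟨h4, h5, h6⟩
      obtain ⟨h7, h8, _⟩ := (hmemΛ y).1 h4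
      exact ⟨h6, h7, h8⟩
    · rintro ⟨h4, h5, h6⟩
      exact ⟨hin y h4 h5 h6, y.2, h4⟩
  have hSn : ∀ y ∈ S, y < n := by
    intro y hy
    exact List.mem_range.1 (List.mem_of_mem_filter (List.mem_of_mem_filter hy))
  set t : List (ℕ × Bool) := V.map (fun j => (j, gb (List.ofFn a₁) j)) ++
    ((x₀.val, !(gb (List.ofFn a₁) x₀.val)) :: S.map (fun j => (j, gb (List.ofFn a₁) j))) with ht
  have htr : ∀ z : Cube n, trL t (List.ofFn z) = true ↔ (∀ j ∈ fs n V, z j = a₁ j) ∧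
      z x₀ = !(a₁ x₀) ∧ ∀ j ∈ F C, j ∉ fs n V → j ≠ x₀ → z j = a₁ j := by
    intro z
    rw [ht]
    unfold trL
    rw [List.all_append, Bool.and_eq_true]
    have h4 := hpat a₁ z
    unfold trL at h4
    rw [h4, List.all_cons, Bool.and_eq_true, decide_eq_true_eq]
    simp only
    rw [gb_ofFn, gb_ofFn]
    apply and_congr_right
    intro _
    apply and_congr_right
    intro _
    simp only [List.all_eq_true, List.mem_map, decide_eq_true_eq]
    constructor
    · intro h5 j hj hjV hjx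
      have h6 := h5 (j.val, gb (List.ofFn a₁) j.val) ⟨j.val, (hmemS j).2 ⟨hj, hjV, hjx⟩, rfl⟩
      rwa [gb_ofFn, gb_ofFn] at h6
    · rintro h5 p ⟨j, hj, rfl⟩
      have h6 := gb_ofFn a₁ ⟨j, hSn j hj⟩
      have h7 := gb_ofFn z ⟨j, hSn j hj⟩
      simp only at h6 h7 ⊢
      rw [h6, h7]
      obtain ⟨h8, h9, h10⟩ := (hmemS ⟨j, hSn j hj⟩).1 hj
      exact h5 _ h8 h9 h10
  have hx₀val : a₁ x₀ ≠ v C x₀ := by rw [h3C x₀ hx₀C]; exact hax
  have htrC : ∀ z : Cube n, trL t (List.ofFn z) = true → Tr F v C z := by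
    intro z hz
    obtain ⟨h4, h5, h6⟩ := (htr z).1 hz
    intro j hj
    by_cases hjx : j = x₀
    · rw [hjx, h5]
      exact bnot_of_ne hx₀val
    · rw [← haC j hj hjx, ← h3C j hj]
      by_cases hjV : j ∈ fs n V
      · exact h4 j hjV
      · exact h6 j hj hjV hjx
  refine ⟨t, ?_, ?_⟩
  · rw [List.mem_filter, Bool.not_eq_true', List.any_eq_false]
    constructor
    · unfold cands
      rw [List.mem_flatMap]
      refine ⟨_, h1, ?_⟩
      rw [List.mem_flatMap]
      refine ⟨x₀.val, List.mem_range.2 x₀.2, ?_⟩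
      rw [List.mem_flatMap]
      refine ⟨tl Z, tl_mem_tup hZc, ?_⟩
      unfold candZ
      rw [List.mem_map]
      exact ⟨S, hSsub, rfl⟩
    · intro c hc hcon
      obtain ⟨z, rfl, hz⟩ := hnegA c hc
      have h4 := (h.hf z).2 ⟨C, hCI, htrC z hcon⟩
      rw [hz] at h4
      simp at h4
  · rw [htr]
    refine ⟨?_, ?_, ?_⟩
    · intro j hj
      rw [hab j hj, h3V j hj, ha2 j hj]
    · rw [hCb x₀ hx₀C]
      exact (bnot_of_ne hx₀val).symm
    · intro j hj _ hjx
      rw [hCb j hj, h3C j hj, haC j hj hjx]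

end

end Pool.Agent.H685R2.RK
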