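import Pool.Agent.NPC.Defs

/-!
# Learning from uniform random examples: definitions
-/

namespace Pool.Agent.H685R2.RK

open Pool.Agent.NPC

/-- The list of the labelled examples `(ω i, f (ω i))`. -/
def examples {n m : ℕ} (f : (Fin n → Bool) → Bool) (ω : Fin m → Fin n → Bool) :
    List (List Bool × Bool) :=
  List.ofFn (fun i => (List.ofFn (ω i), f (ω i)))

/-- The class `C` of boolean functions is learnable in polynomial time from uniform random
examples. There are a constant `c` and polynomial-time algorithms `Learn` and `Eval`. With
accuracy `ε = 1 / E` and confidence `δ = 1 / D`, the learner gets `m = (n + E + D + 2) ^ c`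
examples, independently and uniformly chosen and labelled by the unknown `f ∈ C n`, and the
numbers `E` and `D`. It outputs (the code of) a hypothesis, which `Eval` evaluates at any given
point. Among the `(2 ^ n) ^ m` samples `ω`, the samples for which the hypothesis differs from `f`
on more than `2 ^ n / E` points form at most the fraction `1 / D`. -/
def UniformLearnable (C : (n : ℕ) → Set ((Fin n → Bool) → Bool)) : Prop :=
  ∃ (c : ℕ) (Learn Eval : List Bool → List Bool), PolyTime Learn ∧ PolyTime Eval ∧
    ∀ n E D : ℕ, 0 < E → 0 < D → ∀ f ∈ C n,
      D * {ω : Fin ((n + E + D + 2) ^ c) → Fin n → Bool |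
          2 ^ n < E * {x : Fin n → Bool | Eval (pairBits
            (Learn (bits ((E, D), examples f ω))) (List.ofFn x)) ≠ [f x]}.ncard}.ncard ≤
        (2 ^ n) ^ ((n + E + D + 2) ^ c)

/-- DNF formulas: lists of terms, and a term is a list of literals; the literal `(j, b)` is true
at `x` if `x j = b`. -/
abbrev DNF (n : ℕ) : Type := List (List (Fin n × Bool))

/-- The value of a DNF formula: some term has only true literals. -/
def DNF.eval {n : ℕ} (φ : DNF n) (x : Fin n → Bool) : Bool :=
  φ.any (fun t => t.all (fun p => x p.1 == p.2))

/-- Every variable occurs (negated or not) in at most `k` terms. -/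
def DNF.ReadK {n : ℕ} (k : ℕ) (φ : DNF n) : Prop :=
  ∀ j : Fin n, (φ.filter (fun t => t.any (fun p => p.1 == j))).length ≤ k

end Pool.Agent.H685R2.RK
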