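import Pool.Agent.H685R2.RK.Closure

/-!
# Isolating a clause, and the statistic which reads off its variables
-/

namespace Pool.Agent.H685R2.RK

open Finset

section

variable {n : ℕ} {ι : Type} [DecidableEq ι] {F : ι → Finset (Fin n)} {v : ι → Fin n → Bool}
  {k θ : ℕ} {I : Finset ι}

theorem exists_irredundant (V : Finset (Fin n)) (a₀ : Cube n) : ∀ (s : ℕ) (A : Finset ι),
    A.card ≤ s → ∃ A' ⊆ A, (∀ x, (∀ j ∈ V, x j = a₀ j) → (∃ i ∈ A, Tr F v i x) →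
      ∃ i ∈ A', Tr F v i x) ∧ ∀ C ∈ A', ∃ b, (∀ j ∈ V, b j = a₀ j) ∧ Tr F v C b ∧
        ∀ i ∈ A', i ≠ C → ¬ Tr F v i b
  | 0, A, h => by
    have : A = ∅ := Finset.card_eq_zero.1 (Nat.le_zero.1 h)
    subst this
    exact ⟨∅, subset_rfl, fun x _ h => h, fun C hC => absurd hC (Finset.notMem_empty _)⟩
  | s + 1, A, h => by
    by_cases hA : ∀ C ∈ A, ∃ b, (∀ j ∈ V, b j = a₀ j) ∧ Tr F v C b ∧
        ∀ i ∈ A, i ≠ C → ¬ Tr F v i b
    · exact ⟨A, subset_rfl, fun x _ h => h, hA⟩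
    · push Not at hA
      obtain ⟨C, hC, hC'⟩ := hA
      obtain ⟨A', h1, h2, h3⟩ := exists_irredundant V a₀ s (A.erase C) (by
        rw [Finset.card_erase_of_mem hC]; omega)
      refine ⟨A', h1.trans (Finset.erase_subset _ _), ?_, h3⟩
      rintro x hx ⟨i, hi, hT⟩
      apply h2 x hx
      by_cases hiC : i = C
      · subst hiC
        obtain ⟨i', hi', hne, hT'⟩ := hC' x hx hT
        exact ⟨i', Finset.mem_erase.2 ⟨hne, hi'⟩, hT'⟩
      · exact ⟨i, Finset.mem_erase.2 ⟨hiC, hi⟩, hT⟩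

/-- The isolation lemma. -/
theorem isolation (hk : 1 ≤ k) (hθ : (4 * k : ℝ) ≤ (3 / 2) ^ θ) (hread : RdK F k I)
    {J₁ : ℕ} (hJ1 : 4 * k ≤ J₁ + 2) (hJ2 : 2 * θ ≤ J₁ + 2) (hJ3 : 2 * k + θ ≤ J₁ + 2)
    {V : Finset (Fin n)} (hcl : Closed F v I J₁ V) {a₀ : Cube n} (ha₀ : Sat F v I a₀)
    {A : Finset ι} (hA : A ⊆ al F v I V a₀) {C : ι} (hC : C ∈ A) {b : Cube n}
    (hbV : ∀ j ∈ V, b j = a₀ j) (hbC : Tr F v C b) (hb : ∀ i ∈ A, i ≠ C → ¬ Tr F v i b) :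
    ∃ a x₀, (∀ i ∈ A, ¬ Tr F v i a) ∧ (∀ j ∈ V, a j = a₀ j) ∧ x₀ ∈ F C ∧ x₀ ∉ V ∧
      a x₀ ≠ v C x₀ ∧ (∀ j ∈ F C, j ≠ x₀ → a j = v C j) ∧
      ∀ D ∈ A, D ≠ C → x₀ ∈ F D → ∃ z ∈ F D, z ≠ x₀ ∧ a z ≠ v D z := by
  have hAI : A ⊆ I := hA.trans (al_subset _ _)
  have hwid : ∀ i ∈ A, J₁ + 2 ≤ (F i \ V).card := fun i hi => res_width hcl ha₀ (hA hi)
  have hread' : RdK F k (A.erase C) := fun j =>
    (Finset.card_le_card (Finset.filter_subset_filter _
      ((Finset.erase_subset _ _).trans hAI))).trans (hread j)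
  obtain ⟨G, hG1, hG2, hG3⟩ := closure (F := F) (v := v) (I := A.erase C) (V := V)
    (F₀ := V ∪ F C) (a := b) hk hJ1 hread' Finset.subset_union_left
    (fun i hi => hb i (Finset.mem_of_mem_erase hi) (Finset.ne_of_mem_erase hi))
    (fun i hi => Or.inl (hwid i (Finset.mem_of_mem_erase (al_subset _ _ hi))))
  have hGV : V ⊆ G := Finset.subset_union_left.trans hG1
  have hGC : F C ⊆ G := Finset.subset_union_right.trans hG1
  have hG2' : (G \ V).card ≤ 2 * (F C \ V).card := by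
    rw [Finset.union_sdiff_left] at hG2
    exact hG2
  have hsplit : ∀ i, (F i \ V).card = (F i ∩ (G \ V)).card + (F i \ G).card := by
    intro i
    rw [← Finset.card_union_of_disjoint]
    · congr 1
      ext x
      simp only [Finset.mem_sdiff, Finset.mem_union, Finset.mem_inter]
      constructor
      · rintro ⟨hx1, hx2⟩
        by_cases hx3 : x ∈ G
        · exact Or.inl ⟨hx1, hx3, hx2⟩
        · exact Or.inr ⟨hx1, hx3⟩
      · rintro (⟨hx1, _, hx3⟩ | ⟨hx1, hx2⟩)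
        · exact ⟨hx1, hx3⟩
        · exact ⟨hx1, fun h => hx2 (hGV h)⟩
    · rw [Finset.disjoint_left]
      intro x hx hx'
      exact (Finset.mem_sdiff.1 hx').2 (Finset.mem_sdiff.1 (Finset.mem_inter.1 hx).2).1
  have hgood : ∃ x ∈ F C \ V, ∀ D ∈ A.erase C, x ∈ F D →
      (∃ z ∈ F D, z ∈ G ∧ z ≠ x ∧ b z ≠ v D z) ∨ θ ≤ (F D \ G).card := by
    by_contra hcon
    push Not at hcon
    have : Nonempty ι := ⟨C⟩
    choose! f hf1 hf2 hf3 hf4 using hcon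
    have hfx : ∀ x ∈ F C \ V, b x ≠ v (f x) x := by
      intro x hx
      have h1 : f x ∉ al F v (A.erase C) G b := by
        intro h
        obtain ⟨h2, h3⟩ := hG3 _ h
        have h4 := hf4 x hx
        omega
      rw [mem_al] at h1
      push Not at h1
      obtain ⟨z, hz, hzG, hzb⟩ := h1 (hf1 x hx)
      by_cases hzx : z = x
      · rw [← hzx]; rw [← hzx] at hzb; exact hzb
      · exact absurd (hf3 x hx z hz hzG hzx) hzb
    have hinj : Set.InjOn f ((F C \ V : Finset (Fin n)) : Set (Fin n)) := by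
      intro x hx y hy hxy
      by_contra hne
      have hx' : x ∈ F C \ V := Finset.mem_coe.1 hx
      have hy' : y ∈ F C \ V := Finset.mem_coe.1 hy
      apply hfx y hy'
      have h1 := hf3 x hx' y (by rw [hxy]; exact hf2 y hy')
        (hGC (Finset.mem_sdiff.1 hy').1) (Ne.symm hne)
      rw [← hxy]
      exact h1
    have hcard := Finset.card_image_of_injOn hinj
    have hM : (F C \ V).image f ⊆ A.erase C := by
      intro D hD
      obtain ⟨x, hx, rfl⟩ := Finset.mem_image.1 hD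
      exact hf1 x hx
    have h1 := dcount hread' _ hM (G \ V)
    have h2 : ((F C \ V).image f).card * (J₁ + 3 - θ) ≤
        ∑ i ∈ (F C \ V).image f, (F i ∩ (G \ V)).card := by
      rw [← smul_eq_mul, ← Finset.sum_const]
      apply Finset.sum_le_sum
      intro D hD
      obtain ⟨x, hx, rfl⟩ := Finset.mem_image.1 hD
      have h3 := hsplit (f x)
      have h4 := hf4 x hx
      have h5 := hwid (f x) (Finset.mem_of_mem_erase (hf1 x hx))
      omega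
    rw [hcard] at h2
    have h3 : k * (G \ V).card ≤ k * (2 * (F C \ V).card) := Nat.mul_le_mul_left _ hG2'
    have h4 : (F C \ V).card * (2 * k + 1) ≤ (F C \ V).card * (J₁ + 3 - θ) :=
      Nat.mul_le_mul_left _ (by omega)
    have h5 : (F C \ V).card * (2 * k + 1) ≤ (F C \ V).card * (2 * k) := by
      calc _ ≤ _ := h4
        _ ≤ _ := h2
        _ ≤ _ := h1
        _ ≤ _ := h3
        _ = _ := by ring
    have h6 := hwid C hC
    have h7 : (F C \ V).card * (2 * k + 1) = (F C \ V).card * (2 * k) + (F C \ V).card := by ring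
    omega
  obtain ⟨x₀, hx₀, hgx⟩ := hgood
  obtain ⟨hx₀C, hx₀V⟩ := Finset.mem_sdiff.1 hx₀
  have hx₀G : x₀ ∈ G := hGC hx₀C
  obtain ⟨a', ha'1, ha'2⟩ := exists_ext (F := fun i => F i \ {x₀}) (v := v) (I := A.erase C)
    hk hθ (rdK_residual hread' {x₀} _ subset_rfl) G b (by
      intro i hi
      obtain ⟨hi1, hi2⟩ := mem_al.1 hi
      have h1 : (F i \ {x₀}) \ G = F i \ G := by
        ext z
        simp only [Finset.mem_sdiff, Finset.mem_singleton]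
        constructor
        · rintro ⟨⟨h1, _⟩, h2⟩; exact ⟨h1, h2⟩
        · rintro ⟨h1, h2⟩
          exact ⟨⟨h1, fun h => h2 (h ▸ hx₀G)⟩, h2⟩
      rw [h1]
      by_cases hxi : x₀ ∈ F i
      · rcases hgx i hi1 hxi with ⟨z, hz1, hz2, hz3, hz4⟩ | h
        · exact absurd (hi2 z (Finset.mem_sdiff.2 ⟨hz1, by simpa using hz3⟩) hz2) hz4
        · exact h
      · have h2 : i ∈ al F v (A.erase C) G b := by
          refine mem_al.2 ⟨hi1, fun j hj hjG => hi2 j (Finset.mem_sdiff.2 ⟨hj, ?_⟩) hjG⟩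
          rw [Finset.mem_singleton]
          rintro rfl
          exact hxi hj
        obtain ⟨h3, h4⟩ := hG3 i h2
        omega)
  have hup : ∀ j, j ≠ x₀ → Function.update a' x₀ (!(b x₀)) j = a' j := fun j hj =>
    Function.update_of_ne hj _ _
  refine ⟨Function.update a' x₀ (!(b x₀)), x₀, ?_, ?_, hx₀C, hx₀V, ?_, ?_, ?_⟩
  · intro i hi hT
    by_cases hiC : i = C
    · subst hiC
      have h1 := hT x₀ hx₀C
      rw [Function.update_self, ← hbC x₀ hx₀C] at h1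
      simp at h1
    · apply ha'2 i (Finset.mem_erase.2 ⟨hiC, hi⟩)
      intro j hj
      obtain ⟨h1, h2⟩ := Finset.mem_sdiff.1 hj
      rw [Finset.mem_singleton] at h2
      rw [← hup j h2]
      exact hT j h1
  · intro j hj
    rw [hup j (fun h => hx₀V (h ▸ hj)), ha'1 j (hGV hj), hbV j hj]
  · rw [Function.update_self, ← hbC x₀ hx₀C]
    simp
  · intro j hj hjx
    rw [hup j hjx, ha'1 j (hGC hj), hbC j hj]
  · intro D hD hDC _
    have h1 := ha'2 D (Finset.mem_erase.2 ⟨hDC, hD⟩)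
    unfold Tr at h1
    push Not at h1
    obtain ⟨z, hz, hz'⟩ := h1
    obtain ⟨h2, h3⟩ := Finset.mem_sdiff.1 hz
    rw [Finset.mem_singleton] at h3
    exact ⟨z, h2, h3, by rw [hup z h3]; exact hz'⟩

/-- The number of satisfying assignments that agree with `a` on `H`, agree (`s = true`) or disagree
(`s = false`) with `a` at `x₀` and disagree with `a` at `y`. -/
noncomputable def St (F : ι → Finset (Fin n)) (v : ι → Fin n → Bool) (I : Finset ι)
    (H : Finset (Fin n)) (x₀ y : Fin n) (a : Cube n) (s : Bool) : ℝ :=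
  N (fun x => Sat F v I x ∧ (∀ j ∈ H, x j = a j) ∧ x x₀ = (a x₀ == s) ∧ x y = !(a y))

theorem bool_beq_true (b : Bool) : (b == true) = b := by cases b <;> rfl
theorem bool_beq_false (b : Bool) : (b == false) = !b := by cases b <;> rfl

/-- The statistic. -/
theorem statistic {A : Finset ι} (hAI : A ⊆ I) {V Z : Finset (Fin n)} {a₁ : Cube n}
    (hcov : ∀ x, (∀ j ∈ V, x j = a₁ j) → (∃ i ∈ I, Tr F v i x) → ∃ i ∈ A, Tr F v i x)
    {C : ι} (hC : C ∈ A) {x₀ : Fin n} (hx₀ : x₀ ∈ F C) (hx₀V : x₀ ∉ V) (hx₀Z : x₀ ∉ Z)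
    (hax : a₁ x₀ ≠ v C x₀) (haC : ∀ j ∈ F C, j ≠ x₀ → a₁ j = v C j)
    (hZ : ∀ D ∈ A, D ≠ C → x₀ ∈ F D → ∃ z ∈ Z, z ∈ F D ∧ z ≠ x₀ ∧ a₁ z ≠ v D z)
    {y : Fin n} (hy : y ≠ x₀) :
    St F v I (V ∪ Z) x₀ y a₁ true - St F v I (V ∪ Z) x₀ y a₁ false =
      N (fun x => Sat F v I x ∧ (∀ j ∈ V ∪ Z, x j = a₁ j) ∧ (∀ j ∈ F C, x j = a₁ j) ∧
        x y = !(a₁ y)) := by
  classical
  let fl : Cube n → Cube n := fun x => Function.update x x₀ (!(x x₀))
  have hfl : ∀ x j, j ≠ x₀ → fl x j = x j := fun x j hj => Function.update_of_ne hj _ _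
  have hfl0 : ∀ x, fl x x₀ = !(x x₀) := fun x => Function.update_self _ _ _
  have hflfl : ∀ x, fl (fl x) = x := by
    intro x
    funext j
    by_cases hj : j = x₀
    · subst hj
      rw [hfl0, hfl0, Bool.not_not]
    · rw [hfl _ _ hj, hfl _ _ hj]
  have hVZ : ∀ x, (∀ j ∈ V ∪ Z, x j = a₁ j) → (∀ j ∈ V ∪ Z, fl x j = a₁ j) := by
    intro x hx j hj
    rw [hfl x j]
    · exact hx j hj
    · rintro rfl
      rcases Finset.mem_union.1 hj with h | h
      · exact hx₀V h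
      · exact hx₀Z h
  have hsat : ∀ x, (∀ j ∈ V ∪ Z, x j = a₁ j) → (Sat F v I x ↔ ∀ i ∈ A, ¬ Tr F v i x) := by
    intro x hx
    constructor
    · exact fun h i hi => h i (hAI hi)
    · intro h i hi hT
      obtain ⟨i', hi', hT'⟩ := hcov x (fun j hj => hx j (Finset.mem_union_left _ hj)) ⟨i, hi, hT⟩
      exact h i' hi' hT'
  have hD : ∀ x, (∀ j ∈ V ∪ Z, x j = a₁ j) → Sat F v I x → ∀ D ∈ A, D ≠ C →
      ¬ Tr F v D (fl x) := by
    intro x hx hs D hDA hDC hT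
    by_cases hxD : x₀ ∈ F D
    · obtain ⟨z, hz, hzD, hzx, hza⟩ := hZ D hDA hDC hxD
      apply hza
      rw [← hx z (Finset.mem_union_right _ hz), ← hfl x z hzx]
      exact hT z hzD
    · apply hs D (hAI hDA)
      intro j hj
      rw [← hfl x j (fun h => hxD (h ▸ hj))]
      exact hT j hj
  have hflsat : ∀ x, (∀ j ∈ V ∪ Z, x j = a₁ j) → Sat F v I x →
      (Sat F v I (fl x) ↔ ¬ Tr F v C (fl x)) := by
    intro x hx hs
    rw [hsat _ (hVZ x hx)]
    constructor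
    · exact fun h => h C hC
    · intro h D hDA
      by_cases hDC : D = C
      · subst hDC; exact h
      · exact hD x hx hs D hDA hDC
  -- the four parts
  have e1 : St F v I (V ∪ Z) x₀ y a₁ true =
      N (fun x => (Sat F v I x ∧ (∀ j ∈ V ∪ Z, x j = a₁ j) ∧ x x₀ = a₁ x₀ ∧ x y = !(a₁ y)) ∧
        Sat F v I (fl x)) +
      N (fun x => (Sat F v I x ∧ (∀ j ∈ V ∪ Z, x j = a₁ j) ∧ x x₀ = a₁ x₀ ∧ x y = !(a₁ y)) ∧
        ¬ Sat F v I (fl x)) := by
    unfold St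
    rw [bool_beq_true]
    exact N_split _ _
  have e2 : St F v I (V ∪ Z) x₀ y a₁ false =
      N (fun x => (Sat F v I x ∧ (∀ j ∈ V ∪ Z, x j = a₁ j) ∧ x x₀ = !(a₁ x₀) ∧ x y = !(a₁ y)) ∧
        Sat F v I (fl x)) := by
    unfold St
    rw [bool_beq_false]
    apply N_congr
    intro x
    constructor
    · rintro ⟨h1, h2, h3, h4⟩
      refine ⟨⟨h1, h2, h3, h4⟩, (hflsat x h2 h1).2 ?_⟩
      intro hT
      apply hax
      rw [← hT x₀ hx₀, hfl0, h3, Bool.not_not]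
    · exact fun h => h.1
  have e3 : N (fun x => (Sat F v I x ∧ (∀ j ∈ V ∪ Z, x j = a₁ j) ∧ x x₀ = a₁ x₀ ∧
        x y = !(a₁ y)) ∧ Sat F v I (fl x)) =
      N (fun x => (Sat F v I x ∧ (∀ j ∈ V ∪ Z, x j = a₁ j) ∧ x x₀ = !(a₁ x₀) ∧
        x y = !(a₁ y)) ∧ Sat F v I (fl x)) := by
    unfold N
    congr 1
    refine Set.ncard_congr (fun x _ => fl x) ?_ ?_ ?_
    · rintro x ⟨⟨h1, h2, h3, h4⟩, h5⟩
      refine ⟨⟨h5, hVZ x h2, ?_, ?_⟩, ?_⟩
      · rw [hfl0, h3]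
      · rw [hfl x y hy, h4]
      · change Sat F v I (fl (fl x))
        rw [hflfl]; exact h1
    · intro x x' _ _ h
      rw [← hflfl x, ← hflfl x']
      exact congrArg fl h
    · rintro x ⟨⟨h1, h2, h3, h4⟩, h5⟩
      refine ⟨fl x, ⟨⟨h5, hVZ x h2, ?_, ?_⟩, ?_⟩, hflfl x⟩
      · rw [hfl0, h3, Bool.not_not]
      · rw [hfl x y hy, h4]
      · change Sat F v I (fl (fl x))
        rw [hflfl]; exact h1
  rw [e1, e2, e3, add_sub_cancel_left]
  apply N_congr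
  intro x
  constructor
  · rintro ⟨⟨h1, h2, h3, h4⟩, h5⟩
    rw [hflsat x h2 h1, not_not] at h5
    refine ⟨h1, h2, ?_, h4⟩
    intro j hj
    by_cases hjx : j = x₀
    · rw [hjx, h3]
    · rw [haC j hj hjx, ← hfl x j hjx]
      exact h5 j hj
  · rintro ⟨h1, h2, h3, h4⟩
    refine ⟨⟨h1, h2, h3 x₀ hx₀, h4⟩, ?_⟩
    rw [hflsat x h2 h1, not_not]
    intro j hj
    by_cases hjx : j = x₀
    · rw [hjx, hfl0, h3 x₀ hx₀]
      cases h5 : a₁ x₀ <;> cases h6 : v C x₀ <;> simp_all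
    · rw [hfl x j hjx, h3 j hj, haC j hj hjx]

/-- Everything about one pattern on `V`. -/
theorem isolate (hk : 1 ≤ k) (hθ : (4 * k : ℝ) ≤ (3 / 2) ^ θ) (hread : RdK F k I)
    {J₁ J₃ : ℕ} (hJ1 : 4 * k ≤ J₁ + 2) (hJ2 : 2 * θ + 2 ≤ J₁ + 2) (hJ3 : 2 * k + θ ≤ J₁ + 2)
    (hJ4 : 4 * k ≤ J₃) (hJ5 : 2 * θ ≤ J₃) (Sh : Finset (Fin n))
    (hSh : ∀ i ∈ I, (F i).card < J₃ → F i ⊆ Sh)
    {V : Finset (Fin n)} (hcl : Closed F v I J₁ V) {a₀ : Cube n} (ha₀ : Sat F v I a₀) :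
    ∃ A ⊆ al F v I V a₀, (∀ x, (∀ j ∈ V, x j = a₀ j) → (∃ i ∈ I, Tr F v i x) →
        ∃ i ∈ A, Tr F v i x) ∧
      ∀ C ∈ A, ∃ (a : Cube n) (x₀ : Fin n) (Z : Finset (Fin n)), Sat F v I a ∧
        (∀ j ∈ V, a j = a₀ j) ∧ x₀ ∈ F C ∧ x₀ ∉ V ∧ x₀ ∉ Z ∧ Z.card ≤ k ∧ a x₀ ≠ v C x₀ ∧
        (∀ j ∈ F C, j ≠ x₀ → a j = v C j) ∧
        ∀ a₁, Sat F v I a₁ → (∀ j ∈ V ∪ Z ∪ F C, a₁ j = a j) →
          (∀ y ∈ F C, y ≠ x₀ →
            St F v I (V ∪ Z) x₀ y a₁ true - St F v I (V ∪ Z) x₀ y a₁ false = 0) ∧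
          ∃ G : Finset (Fin n), (G \ V).card ≤ 2 * (k + (F C \ V).card) ∧ ∀ y, y ∉ G → y ≠ x₀ →
            (3 / 8 : ℝ) ^ (2 * (V.card + k + (F C \ V).card + 1 + Sh.card)) * N (Sat F v I) ≤
              St F v I (V ∪ Z) x₀ y a₁ true - St F v I (V ∪ Z) x₀ y a₁ false := by
  classical
  obtain ⟨A, hA, hcov, hirr⟩ := exists_irredundant (F := F) (v := v) V a₀ _ (al F v I V a₀) le_rfl
  have hAI : A ⊆ I := hA.trans (al_subset _ _)
  have hcovI : ∀ x, (∀ j ∈ V, x j = a₀ j) → (∃ i ∈ I, Tr F v i x) → ∃ i ∈ A, Tr F v i x := by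
    rintro x hx ⟨i, hi, hT⟩
    apply hcov x hx
    refine ⟨i, mem_al.2 ⟨hi, fun j hj hjV => ?_⟩, hT⟩
    rw [← hx j hjV]
    exact hT j hj
  refine ⟨A, hA, hcovI, ?_⟩
  intro C hC
  obtain ⟨b, hb1, hb2, hb3⟩ := hirr C hC
  obtain ⟨a, x₀, h1, h2, h3, h4, h5, h6, h7⟩ := isolation (F := F) (v := v) hk hθ hread hJ1
    (by omega) hJ3 hcl ha₀ hA hC hb1 hb2 hb3
  have ha : Sat F v I a := by
    intro i hi hT
    obtain ⟨i', hi', hT'⟩ := hcovI a h2 ⟨i, hi, hT⟩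
    exact h1 i' hi' hT'
  -- the blocking set
  have hex : ∀ D, ∃ z, (D ∈ A ∧ D ≠ C ∧ x₀ ∈ F D) → z ∈ F D ∧ z ≠ x₀ ∧ a z ≠ v D z := by
    intro D
    by_cases hD : D ∈ A ∧ D ≠ C ∧ x₀ ∈ F D
    · obtain ⟨z, hz1, hz2, hz3⟩ := h7 D hD.1 hD.2.1 hD.2.2
      exact ⟨z, fun _ => ⟨hz1, hz2, hz3⟩⟩
    · exact ⟨x₀, fun h => absurd h hD⟩
  choose g hg using hex
  set Z : Finset (Fin n) := (A.filter (fun D => D ≠ C ∧ x₀ ∈ F D)).image g with hZdef
  have hx₀Z : x₀ ∉ Z := by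
    intro h
    obtain ⟨D, hD, hgD⟩ := Finset.mem_image.1 h
    obtain ⟨hD1, hD2⟩ := Finset.mem_filter.1 hD
    exact (hg D ⟨hD1, hD2.1, hD2.2⟩).2.1 hgD
  have hZc : Z.card ≤ k := by
    refine Finset.card_image_le.trans ((Finset.card_le_card ?_).trans (hread x₀))
    intro D hD
    obtain ⟨hD1, hD2⟩ := Finset.mem_filter.1 hD
    exact Finset.mem_filter.2 ⟨hAI hD1, hD2.2⟩
  refine ⟨a, x₀, Z, ha, h2, h3, h4, hx₀Z, hZc, h5, h6, ?_⟩
  intro a₁ ha₁ hag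
  have hagV : ∀ j ∈ V, a₁ j = a j := fun j hj =>
    hag j (Finset.mem_union_left _ (Finset.mem_union_left _ hj))
  have hagZ : ∀ j ∈ Z, a₁ j = a j := fun j hj =>
    hag j (Finset.mem_union_left _ (Finset.mem_union_right _ hj))
  have hagC : ∀ j ∈ F C, a₁ j = a j := fun j hj => hag j (Finset.mem_union_right _ hj)
  have hst : ∀ y, y ≠ x₀ →
      St F v I (V ∪ Z) x₀ y a₁ true - St F v I (V ∪ Z) x₀ y a₁ false =
      N (fun x => Sat F v I x ∧ (∀ j ∈ V ∪ Z, x j = a₁ j) ∧ (∀ j ∈ F C, x j = a₁ j) ∧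
        x y = !(a₁ y)) := by
    intro y hy
    apply statistic hAI (fun x hx => hcovI x (fun j hj => by
      rw [hx j hj, hagV j hj, h2 j hj])) hC h3 h4 hx₀Z
    · rw [hagC x₀ h3]; exact h5
    · intro j hj hjx
      rw [hagC j hj]; exact h6 j hj hjx
    · intro D hD hDC hxD
      obtain ⟨hz1, hz2, hz3⟩ := hg D ⟨hD, hDC, hxD⟩
      have hzZ : g D ∈ Z := Finset.mem_image_of_mem _ (Finset.mem_filter.2 ⟨hD, hDC, hxD⟩)
      exact ⟨g D, hzZ, hz1, hz2, by rw [hagZ _ hzZ]; exact hz3⟩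
    · exact hy
  refine ⟨?_, ?_⟩
  · intro y hy hyx
    rw [hst y hyx]
    have : ¬ 0 < N (fun x => Sat F v I x ∧ (∀ j ∈ V ∪ Z, x j = a₁ j) ∧
        (∀ j ∈ F C, x j = a₁ j) ∧ x y = !(a₁ y)) := by
      rw [N_pos_iff]
      rintro ⟨x, _, _, h8, h9⟩
      rw [h8 y hy] at h9
      simp at h9
    exact le_antisymm (not_lt.1 this) (N_nonneg _)
  · obtain ⟨G, hG1, hG2, hG3⟩ := res_closure (F := F) (v := v) (a := a₁) hk hJ1 hread
      (F₀ := V ∪ Z ∪ F C) hcl (by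
        intro j hj
        exact Finset.mem_union_left _ (Finset.mem_union_left _ hj)) ha₁
    have hcard : ((V ∪ Z ∪ F C) \ V).card ≤ k + (F C \ V).card := by
      have : (V ∪ Z ∪ F C) \ V ⊆ Z ∪ (F C \ V) := by
        intro j hj
        rw [Finset.mem_sdiff, Finset.mem_union, Finset.mem_union] at hj
        rw [Finset.mem_union, Finset.mem_sdiff]
        tauto
      have h8 := (Finset.card_le_card this).trans (Finset.card_union_le _ _)
      omega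
    refine ⟨G, hG2.trans (Nat.mul_le_mul_left _ hcard), ?_⟩
    intro y hyG hyx
    rw [hst y hyx]
    obtain ⟨a', ha'1, ha'2, ha'3⟩ := flip (F := F) (v := v) (G := G) (a := a₁) hk hθ hread (by
      intro i hi
      have := hG3 i hi
      omega) hyG
    have h8 := gap_base (F := F) (v := v) hk hθ hread hJ4 hJ5 Sh hSh (insert y (V ∪ Z ∪ F C)) ha'1
    have h9 : (insert y (V ∪ Z ∪ F C)).card ≤ V.card + k + (F C \ V).card + 1 := by
      have h10 := Finset.card_insert_le y (V ∪ Z ∪ F C)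
      have h11 : (V ∪ Z ∪ F C).card ≤ V.card + ((V ∪ Z ∪ F C) \ V).card := by
        rw [← Finset.card_union_of_disjoint Finset.disjoint_sdiff]
        apply Finset.card_le_card
        intro j hj
        rw [Finset.mem_union, Finset.mem_sdiff]
        by_cases hjV : j ∈ V
        · exact Or.inl hjV
        · exact Or.inr ⟨hj, hjV⟩
      omega
    have h10 : (3 / 8 : ℝ) ^ (2 * (V.card + k + (F C \ V).card + 1 + Sh.card)) ≤
        (3 / 8) ^ (2 * ((insert y (V ∪ Z ∪ F C)).card + Sh.card)) :=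
      pow_le_pow_of_le_one (by norm_num) (by norm_num) (by omega)
    refine (mul_le_mul_of_nonneg_right h10 (N_nonneg _)).trans (h8.trans ?_)
    apply N_mono
    rintro x ⟨h11, h12⟩
    have h13 : ∀ j ∈ V ∪ Z ∪ F C, x j = a₁ j := by
      intro j hj
      rw [h11 j (Finset.mem_insert_of_mem hj), ha'2 j (hG1 hj)]
    refine ⟨h12, fun j hj => h13 j (Finset.mem_union_left _ hj),
      fun j hj => h13 j (Finset.mem_union_right _ hj), ?_⟩
    rw [h11 y (Finset.mem_insert_self _ _)]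
    cases h14 : a' y <;> cases h15 : a₁ y <;> simp_all

end

end Pool.Agent.H685R2.RK
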