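import Mathlib

/-!
# Counting satisfying assignments of read-`k` formulas with wide clauses
-/

namespace Pool.Agent.H685R2.RK

open Finset

/-- The Boolean cube. -/
abbrev Cube (n : ℕ) : Type := Fin n → Bool

/-- The number of points with a property, as a real number. -/
noncomputable def N {n : ℕ} (P : Cube n → Prop) : ℝ := ({x | P x} : Set (Cube n)).ncard

section basic

variable {n : ℕ} {P Q : Cube n → Prop}

theorem N_nonneg (P : Cube n → Prop) : 0 ≤ N P := by
  unfold N
  positivity

theorem N_mono (h : ∀ x, P x → Q x) : N P ≤ N Q := by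
  unfold N
  exact_mod_cast Set.ncard_le_ncard (fun x hx => h x hx) (Set.toFinite _)

theorem N_congr (h : ∀ x, P x ↔ Q x) : N P = N Q := by
  congr 1
  funext x
  exact propext (h x)

theorem N_split (P Q : Cube n → Prop) :
    N P = N (fun x => P x ∧ Q x) + N (fun x => P x ∧ ¬ Q x) := by
  unfold N
  rw [← Nat.cast_add, ← Set.ncard_union_eq _ (Set.toFinite _) (Set.toFinite _)]
  · congr 2
    ext x
    simp only [Set.mem_ofPred_eq, Set.mem_union]
    tauto
  · rw [Set.disjoint_left]
    intro x hx hx'
    exact hx'.2 hx.2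

theorem N_true : N (fun _ : Cube n => True) = 2 ^ n := by
  unfold N
  have : {x : Cube n | True} = Set.univ := by ext; simp
  rw [this, Set.ncard_univ, Nat.card_eq_fintype_card]
  simp

theorem N_le (P : Cube n → Prop) : N P ≤ 2 ^ n := by
  rw [← N_true]
  exact N_mono fun _ _ => trivial

theorem N_pos_iff : 0 < N P ↔ ∃ x, P x := by
  unfold N
  rw [Nat.cast_pos, Set.ncard_pos (Set.toFinite _)]
  rfl

theorem N_or_le (P Q : Cube n → Prop) : N (fun x => P x ∨ Q x) ≤ N P + N Q := by
  rw [N_split _ P]
  have h1 : N (fun x => (P x ∨ Q x) ∧ P x) ≤ N P := N_mono fun x h => h.2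
  have h2 : N (fun x => (P x ∨ Q x) ∧ ¬ P x) ≤ N Q := N_mono fun x h => by tauto
  linarith

theorem N_exists_le {κ : Type*} (S : Finset κ) (R : κ → Cube n → Prop) :
    N (fun x => ∃ i ∈ S, R i x) ≤ ∑ i ∈ S, N (R i) := by
  classical
  induction S using Finset.induction with
  | empty =>
    have : ¬ 0 < N (fun x => ∃ i ∈ (∅ : Finset κ), R i x) := by
      rw [N_pos_iff]
      simp
    simpa using this
  | insert i S hi ih =>
    rw [Finset.sum_insert hi]
    refine le_trans ?_ (add_le_add_right ih _)
    refine le_trans (le_of_eq ?_) (N_or_le _ _)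
    apply N_congr
    intro x
    simp

theorem N_half (j : Fin n) (b : Bool) (hP : ∀ x c, P x → P (Function.update x j c)) :
    N (fun x => x j = b ∧ P x) * 2 = N P := by
  classical
  have h1 : N (fun x => x j = b ∧ P x) = N (fun x => x j = !b ∧ P x) := by
    unfold N
    congr 1
    refine Set.ncard_congr (fun x _ => Function.update x j (!(x j))) ?_ ?_ ?_
    · intro x hx
      refine ⟨?_, hP x _ hx.2⟩
      rw [Function.update_self, hx.1]
    · intro x y hx hy h
      funext i
      by_cases hi : i = j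
      · subst hi
        rw [hx.1, hy.1]
      · have := congrFun h i
        rwa [Function.update_of_ne hi, Function.update_of_ne hi] at this
    · intro y hy
      refine ⟨Function.update y j (!(y j)), ?_, ?_⟩
      · refine ⟨?_, hP y _ hy.2⟩
        rw [Function.update_self, hy.1, Bool.not_not]
      · rw [Function.update_self, Bool.not_not, Function.update_idem, Function.update_eq_self]
  have h2 : N P = N (fun x => x j = b ∧ P x) + N (fun x => x j = !b ∧ P x) := by
    rw [N_split P (fun x => x j = b)]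
    congr 1
    · exact N_congr fun x => and_comm
    · apply N_congr
      intro x
      rw [and_comm]
      apply and_congr_left
      intro _
      cases x j <;> cases b <;> simp
  rw [h2, ← h1]
  ring

/-- A property of the other coordinates is independent of the coordinates in `G`. -/
theorem N_pat (a : Cube n) : ∀ (G : Finset (Fin n)) (B : Cube n → Prop),
    (∀ x y, (∀ j, j ∉ G → x j = y j) → B x → B y) →
    N (fun x => (∀ j ∈ G, x j = a j) ∧ B x) * 2 ^ G.card = N B := by
  classical
  intro G
  induction G using Finset.induction with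
  | empty =>
    intro B _
    rw [Finset.card_empty, pow_zero, mul_one]
    exact N_congr fun x => by simp
  | insert j G hj ih =>
    intro B hB
    have h1 := ih B (fun x y h => hB x y (fun i hi => h i (fun h' => hi (Finset.mem_insert_of_mem h'))))
    rw [Finset.card_insert_of_notMem hj, pow_succ, mul_comm _ (2 : ℝ), ← mul_assoc]
    have h2 : N (fun x => (∀ i ∈ insert j G, x i = a i) ∧ B x) * 2 =
        N (fun x => (∀ i ∈ G, x i = a i) ∧ B x) := by
      rw [← N_half (P := fun x => (∀ i ∈ G, x i = a i) ∧ B x) j (a j)]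
      · congr 1
        apply N_congr
        intro x
        rw [Finset.forall_mem_insert, and_assoc]
      · rintro x c ⟨h3, h4⟩
        refine ⟨?_, ?_⟩
        · intro i hi
          have : i ≠ j := fun h => hj (h ▸ hi)
          rw [Function.update_of_ne this]
          exact h3 i hi
        · refine hB x _ (fun i hi => ?_) h4
          have : i ≠ j := fun h => hi (h ▸ Finset.mem_insert_self _ _)
          rw [Function.update_of_ne this]
    rw [h2, h1]

end basic

section family

variable {n : ℕ} {ι : Type} [DecidableEq ι] (F : ι → Finset (Fin n)) (v : ι → Fin n → Bool)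

/-- The term `i` is true at `x`. -/
def Tr (i : ι) (x : Cube n) : Prop := ∀ j ∈ F i, x j = v i j

/-- No term of `I` is true at `x`. -/
def Sat (I : Finset ι) (x : Cube n) : Prop := ∀ i ∈ I, ¬ Tr F v i x

/-- The terms which are not falsified by the values of `a` on `G`. -/
def al (I : Finset ι) (G : Finset (Fin n)) (a : Cube n) : Finset ι :=
  I.filter (fun i => ∀ j ∈ F i, j ∈ G → a j = v i j)

/-- Every variable occurs in at most `k` terms. -/
def RdK (k : ℕ) (I : Finset ι) : Prop := ∀ j, (I.filter (fun i => j ∈ F i)).card ≤ k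

variable {F v} {k θ : ℕ} {I : Finset ι}

theorem pow_ge (hk : 1 ≤ k) (w m : ℕ) (hm : m ≤ k * w) :
    (3 / 4 : ℝ) ^ w ≤ (1 - 1 / (4 * k : ℝ)) ^ m := by
  have hk' : (1 : ℝ) ≤ k := by exact_mod_cast hk
  have h0 : (0 : ℝ) ≤ 1 - 1 / (4 * k) := by
    rw [sub_nonneg, div_le_one (by positivity)]
    linarith
  have h1 : (1 - 1 / (4 * k : ℝ)) ≤ 1 := by
    have : (0 : ℝ) ≤ 1 / (4 * k) := by positivity
    linarith
  have h2 : (1 - 1 / (4 * k : ℝ)) ^ (k * w) ≤ (1 - 1 / (4 * k : ℝ)) ^ m :=
    pow_le_pow_of_le_one h0 h1 hm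
  refine le_trans ?_ h2
  rw [pow_mul]
  apply pow_le_pow_left₀ (by norm_num)
  have h3 := one_add_mul_le_pow (a := -(1 / (4 * k : ℝ))) (by linarith) k
  have h4 : (k : ℝ) * (1 / (4 * k : ℝ)) = 1 / 4 := by
    field_simp
  have h5 : (1 : ℝ) + k * -(1 / (4 * k : ℝ)) = 3 / 4 := by
    rw [mul_neg, h4]; norm_num
  rw [h5] at h3
  exact h3

theorem touch_card (hread : RdK F k I) (G : Finset (Fin n)) (S : Finset ι) (hS : S ⊆ I)
    (hG : ∀ i ∈ S, ∃ j ∈ F i, j ∈ G) : S.card ≤ k * G.card := by
  have h1 : S ⊆ G.biUnion (fun j => I.filter (fun i => j ∈ F i)) := by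
    intro i hi
    obtain ⟨j, hj, hj'⟩ := hG i hi
    exact Finset.mem_biUnion.2 ⟨j, hj', Finset.mem_filter.2 ⟨hS hi, hj⟩⟩
  refine (Finset.card_le_card h1).trans (Finset.card_biUnion_le.trans ?_)
  refine (Finset.sum_le_sum fun j _ => hread j).trans ?_
  rw [Finset.sum_const, smul_eq_mul, mul_comm]

/-- The local lemma, conditional form. -/
theorem lll (hk : 1 ≤ k) (hθ : (4 * k : ℝ) ≤ (3 / 2) ^ θ) (hread : RdK F k I)
    (hw : ∀ i ∈ I, θ ≤ (F i).card) : ∀ (S : Finset ι), S ⊆ I → ∀ i₀ ∈ I, i₀ ∉ S →
    N (fun x => Sat F v S x ∧ Tr F v i₀ x) ≤ 1 / (4 * k : ℝ) * N (Sat F v S) := by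
  classical
  have hk' : (1 : ℝ) ≤ k := by exact_mod_cast hk
  intro S
  induction S using Finset.strongInduction with
  | H S ih =>
    intro hSI i₀ hi₀ hi₀S
    set S1 := S.filter (fun i => ∃ j ∈ F i, j ∈ F i₀) with hS1
    set S2 := S.filter (fun i => ¬ ∃ j ∈ F i, j ∈ F i₀) with hS2
    have hS12 : S2 ∪ S1 = S := by
      rw [hS1, hS2, Finset.union_comm]
      exact Finset.filter_union_filter_not_eq _ _
    have hpeel : ∀ T : Finset ι, T ⊆ S1 →
        (1 - 1 / (4 * k : ℝ)) ^ T.card * N (Sat F v S2) ≤ N (Sat F v (S2 ∪ T)) := by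
      intro T
      induction T using Finset.induction with
      | empty => intro _; simp
      | insert i T hiT ihT =>
        intro hT
        have hiS1 : i ∈ S1 := hT (Finset.mem_insert_self _ _)
        have h1 := ihT ((Finset.subset_insert _ _).trans hT)
        have hiS2 : i ∉ S2 := by
          intro h
          exact (Finset.mem_filter.1 h).2 (Finset.mem_filter.1 hiS1).2
        have hsub : S2 ∪ T ⊂ S := by
          refine Finset.ssubset_iff_subset_ne.2 ⟨?_, ?_⟩
          · refine Finset.union_subset (Finset.filter_subset _ _) ?_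
            exact ((Finset.subset_insert _ _).trans hT).trans (Finset.filter_subset _ _)
          · intro h
            have : i ∈ S2 ∪ T := by rw [h]; exact (Finset.mem_filter.1 hiS1).1
            rcases Finset.mem_union.1 this with h | h
            · exact hiS2 h
            · exact hiT h
        have h2 := ih (S2 ∪ T) hsub (hsub.subset.trans hSI) i (hSI (Finset.mem_filter.1 hiS1).1) (by
          intro h
          rcases Finset.mem_union.1 h with h | h
          · exact hiS2 h
          · exact hiT h)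
        have h3 : N (Sat F v (S2 ∪ T)) = N (fun x => Sat F v (S2 ∪ T) x ∧ Tr F v i x) +
            N (Sat F v (S2 ∪ insert i T)) := by
          rw [N_split _ (Tr F v i)]
          congr 1
          apply N_congr
          intro x
          unfold Sat
          constructor
          · rintro ⟨h4, h5⟩ j hj
            rw [Finset.mem_union, Finset.mem_insert] at hj
            rcases hj with hj | rfl | hj
            · exact h4 j (Finset.mem_union_left _ hj)
            · exact h5
            · exact h4 j (Finset.mem_union_right _ hj)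
          · intro h4
            exact ⟨fun j hj => h4 j (Finset.union_subset_union_right (Finset.subset_insert _ _) hj),
              h4 i (Finset.mem_union_right _ (Finset.mem_insert_self _ _))⟩
        rw [Finset.card_insert_of_notMem hiT, pow_succ]
        have h4 : (0 : ℝ) ≤ 1 - 1 / (4 * k) := by
          rw [sub_nonneg, div_le_one (by positivity)]
          linarith
        have h5 : (1 - 1 / (4 * k : ℝ)) * N (Sat F v (S2 ∪ T)) ≤ N (Sat F v (S2 ∪ insert i T)) := by
          linarith
        calc (1 - 1 / (4 * k : ℝ)) ^ T.card * (1 - 1 / (4 * k : ℝ)) * N (Sat F v S2)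
            = (1 - 1 / (4 * k : ℝ)) * ((1 - 1 / (4 * k : ℝ)) ^ T.card * N (Sat F v S2)) := by ring
          _ ≤ (1 - 1 / (4 * k : ℝ)) * N (Sat F v (S2 ∪ T)) := mul_le_mul_of_nonneg_left h1 h4
          _ ≤ _ := h5
    have h1 := hpeel S1 subset_rfl
    rw [hS12] at h1
    have h2 : S1.card ≤ k * (F i₀).card := touch_card hread _ S1
      ((Finset.filter_subset _ _).trans hSI) (fun i hi => (Finset.mem_filter.1 hi).2)
    have h3 := pow_ge hk _ _ h2
    have h4 : N (fun x => Sat F v S x ∧ Tr F v i₀ x) * 2 ^ (F i₀).card ≤ N (Sat F v S2) := by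
      have h5 := N_pat (v i₀) (F i₀) (Sat F v S2) (by
        intro x y hxy hx i hi hTr
        apply hx i hi
        intro j hj
        rw [hxy j]
        · exact hTr j hj
        · intro hj'
          exact (Finset.mem_filter.1 hi).2 ⟨j, hj, hj'⟩)
      rw [← h5]
      apply mul_le_mul_of_nonneg_right _ (by positivity)
      apply N_mono
      rintro x ⟨h6, h7⟩
      exact ⟨h7, fun i hi => h6 i ((Finset.filter_subset _ _) hi)⟩
    set w := (F i₀).card with hwdef
    have h5 : (4 * k : ℝ) ≤ (3 / 2) ^ w :=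
      hθ.trans (pow_le_pow_right₀ (by norm_num) (hw i₀ hi₀))
    have h6 : (3 / 4 : ℝ) ^ w * N (Sat F v S2) ≤ N (Sat F v S) :=
      (mul_le_mul_of_nonneg_right h3 (N_nonneg _)).trans h1
    have h7 : (3 / 2 : ℝ) ^ w = 2 ^ w * (3 / 4) ^ w := by
      rw [← mul_pow]; norm_num
    have h8 : 0 < (2 : ℝ) ^ w := by positivity
    rw [one_div, inv_mul_eq_div, le_div_iff₀ (by positivity)]
    have h9 : N (fun x => Sat F v S x ∧ Tr F v i₀ x) * (4 * k) ≤
        N (fun x => Sat F v S x ∧ Tr F v i₀ x) * (2 ^ w * (3 / 4) ^ w) := by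
      apply mul_le_mul_of_nonneg_left _ (N_nonneg _)
      rw [← h7]; exact h5
    have h10 : N (fun x => Sat F v S x ∧ Tr F v i₀ x) * (2 ^ w * (3 / 4) ^ w) ≤
        (3 / 4) ^ w * N (Sat F v S2) := by
      rw [← mul_assoc, mul_comm]
      exact mul_le_mul_of_nonneg_left h4 (by positivity)
    linarith

theorem peel (hk : 1 ≤ k) (hθ : (4 * k : ℝ) ≤ (3 / 2) ^ θ) (hread : RdK F k I)
    (hw : ∀ i ∈ I, θ ≤ (F i).card) (S : Finset ι) (hS : S ⊆ I) (T : Finset ι) (hT : T ⊆ I) :
    (1 - 1 / (4 * k : ℝ)) ^ T.card * N (Sat F v S) ≤ N (Sat F v (S ∪ T)) := by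
  classical
  have hk' : (1 : ℝ) ≤ k := by exact_mod_cast hk
  have h4 : (0 : ℝ) ≤ 1 - 1 / (4 * k) := by
    rw [sub_nonneg, div_le_one (by positivity)]
    linarith
  have h4' : (1 - 1 / (4 * k : ℝ)) ≤ 1 := by
    have : (0 : ℝ) ≤ 1 / (4 * k) := by positivity
    linarith
  induction T using Finset.induction with
  | empty => simp
  | insert i T hiT ihT =>
    have h1 := ihT ((Finset.subset_insert _ _).trans hT)
    rw [Finset.card_insert_of_notMem hiT, pow_succ]
    by_cases hi : i ∈ S ∪ T
    · have : S ∪ insert i T = S ∪ T := by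
        rw [Finset.union_insert, Finset.insert_eq_of_mem hi]
      rw [this]
      refine le_trans ?_ h1
      apply mul_le_mul_of_nonneg_right _ (N_nonneg _)
      exact mul_le_of_le_one_right (pow_nonneg h4 _) h4'
    · have h2 := lll (v := v) hk hθ hread hw (S ∪ T) (Finset.union_subset hS
        ((Finset.subset_insert _ _).trans hT)) i (hT (Finset.mem_insert_self _ _)) hi
      have h3 : N (Sat F v (S ∪ T)) = N (fun x => Sat F v (S ∪ T) x ∧ Tr F v i x) +
          N (Sat F v (S ∪ insert i T)) := by
        rw [N_split _ (Tr F v i)]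
        congr 1
        apply N_congr
        intro x
        unfold Sat
        constructor
        · rintro ⟨h4, h5⟩ j hj
          rw [Finset.mem_union, Finset.mem_insert] at hj
          rcases hj with hj | rfl | hj
          · exact h4 j (Finset.mem_union_left _ hj)
          · exact h5
          · exact h4 j (Finset.mem_union_right _ hj)
        · intro h4
          exact ⟨fun j hj => h4 j (Finset.union_subset_union_right (Finset.subset_insert _ _) hj),
            h4 i (Finset.mem_union_right _ (Finset.mem_insert_self _ _))⟩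
      have h5 : (1 - 1 / (4 * k : ℝ)) * N (Sat F v (S ∪ T)) ≤ N (Sat F v (S ∪ insert i T)) := by
        linarith
      calc (1 - 1 / (4 * k : ℝ)) ^ T.card * (1 - 1 / (4 * k : ℝ)) * N (Sat F v S)
          = (1 - 1 / (4 * k : ℝ)) * ((1 - 1 / (4 * k : ℝ)) ^ T.card * N (Sat F v S)) := by ring
        _ ≤ (1 - 1 / (4 * k : ℝ)) * N (Sat F v (S ∪ T)) := mul_le_mul_of_nonneg_left h1 h4
        _ ≤ _ := h5

theorem mem_al {G : Finset (Fin n)} {a : Cube n} {i : ι} :
    i ∈ al F v I G a ↔ i ∈ I ∧ ∀ j ∈ F i, j ∈ G → a j = v i j := Finset.mem_filter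

theorem sat_iff_residual {G : Finset (Fin n)} {a x : Cube n} (hx : ∀ j ∈ G, x j = a j) :
    Sat F v I x ↔ Sat (fun i => F i \ G) v (al F v I G a) x := by
  unfold Sat Tr
  constructor
  · intro h i hi hT
    obtain ⟨h1, h2⟩ := mem_al.1 hi
    apply h i h1
    intro j hj
    by_cases hjG : j ∈ G
    · rw [hx j hjG]
      exact h2 j hj hjG
    · exact hT j (Finset.mem_sdiff.2 ⟨hj, hjG⟩)
  · intro h i hi hT
    refine h i (mem_al.2 ⟨hi, fun j hj hjG => ?_⟩) (fun j hj => hT j (Finset.mem_sdiff.1 hj).1)
    rw [← hx j hjG]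
    exact hT j hj

theorem residual (G : Finset (Fin n)) (a : Cube n) :
    N (fun x => (∀ j ∈ G, x j = a j) ∧ Sat F v I x) * 2 ^ G.card =
      N (Sat (fun i => F i \ G) v (al F v I G a)) := by
  rw [← N_pat a G (Sat (fun i => F i \ G) v (al F v I G a))]
  · congr 1
    apply N_congr
    intro x
    apply and_congr_right
    intro hx
    exact sat_iff_residual hx
  · intro x y hxy hx i hi hT
    apply hx i hi
    intro j hj
    rw [hxy j (Finset.mem_sdiff.1 hj).2]
    exact hT j hj

theorem rdK_residual (hread : RdK F k I) (G : Finset (Fin n)) (S : Finset ι) (hS : S ⊆ I) :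
    RdK (fun i => F i \ G) k S := by
  intro j
  refine le_trans (Finset.card_le_card ?_) (hread j)
  intro i hi
  rw [Finset.mem_filter] at hi ⊢
  exact ⟨hS hi.1, (Finset.mem_sdiff.1 hi.2).1⟩

theorem al_subset (G : Finset (Fin n)) (a : Cube n) : al F v I G a ⊆ I := Finset.filter_subset _ _

/-- Many satisfying assignments extend a pattern after which all remaining clauses are wide. -/
theorem gap (hk : 1 ≤ k) (hθ : (4 * k : ℝ) ≤ (3 / 2) ^ θ) (hread : RdK F k I)
    (G : Finset (Fin n)) (a : Cube n) (hw : ∀ i ∈ al F v I G a, θ ≤ (F i \ G).card) :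
    (3 / 8 : ℝ) ^ G.card * N (Sat F v I) ≤ N (fun x => (∀ j ∈ G, x j = a j) ∧ Sat F v I x) := by
  classical
  set A := al F v I G a with hA
  set U := A.filter (fun i => ¬ ∃ j ∈ F i, j ∈ G) with hU
  set T := A.filter (fun i => ∃ j ∈ F i, j ∈ G) with hT
  have hUT : U ∪ T = A := by
    rw [hU, hT, Finset.union_comm]
    exact Finset.filter_union_filter_not_eq _ _
  have h1 := peel (F := fun i => F i \ G) (v := v) hk hθ
    (rdK_residual hread G A (al_subset _ _)) hw U (Finset.filter_subset _ _) T
    (Finset.filter_subset _ _)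
  rw [hUT] at h1
  have h2 : T.card ≤ k * G.card := touch_card hread _ T
    ((Finset.filter_subset _ _).trans (al_subset _ _)) (fun i hi => (Finset.mem_filter.1 hi).2)
  have h3 := pow_ge hk _ _ h2
  have h4 : N (Sat F v I) ≤ N (Sat (fun i => F i \ G) v U) := by
    apply N_mono
    intro x hx i hi hTr
    apply hx i (al_subset _ _ (Finset.mem_filter.1 hi).1)
    intro j hj
    refine hTr j (Finset.mem_sdiff.2 ⟨hj, fun h => (Finset.mem_filter.1 hi).2 ⟨j, hj, h⟩⟩)
  have h5 := residual (F := F) (v := v) (I := I) G a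
  rw [← hA] at h5
  have h6 : (0 : ℝ) < 2 ^ G.card := by positivity
  have h7 : (3 / 4 : ℝ) ^ G.card * N (Sat F v I) ≤
      N (fun x => (∀ j ∈ G, x j = a j) ∧ Sat F v I x) * 2 ^ G.card := by
    rw [h5]
    exact (mul_le_mul h3 h4 (N_nonneg _) (le_trans (by positivity) h3)).trans h1
  have h8 : (3 / 4 : ℝ) ^ G.card = (3 / 8) ^ G.card * 2 ^ G.card := by
    rw [← mul_pow]; norm_num
  rw [h8] at h7
  have h9 : (3 / 8 : ℝ) ^ G.card * N (Sat F v I) * 2 ^ G.card ≤
      N (fun x => (∀ j ∈ G, x j = a j) ∧ Sat F v I x) * 2 ^ G.card := by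
    calc _ = (3 / 8 : ℝ) ^ G.card * 2 ^ G.card * N (Sat F v I) := by ring
      _ ≤ _ := h7
  exact le_of_mul_le_mul_right h9 h6

/-- A pattern after which all remaining clauses are wide extends to a satisfying assignment. -/
theorem exists_ext (hk : 1 ≤ k) (hθ : (4 * k : ℝ) ≤ (3 / 2) ^ θ) (hread : RdK F k I)
    (G : Finset (Fin n)) (a : Cube n) (hw : ∀ i ∈ al F v I G a, θ ≤ (F i \ G).card) :
    ∃ x, (∀ j ∈ G, x j = a j) ∧ Sat F v I x := by
  classical
  rw [← N_pos_iff]
  have h5 := residual (F := F) (v := v) (I := I) G a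
  have h1 := peel (F := fun i => F i \ G) (v := v) hk hθ
    (rdK_residual hread G (al F v I G a) (al_subset _ _)) hw ∅ (Finset.empty_subset _) _ subset_rfl
  rw [Finset.empty_union] at h1
  have h2 : 0 < N (Sat (fun i => F i \ G) v ∅) := by
    rw [N_pos_iff]
    exact ⟨a, fun i hi => absurd hi (Finset.notMem_empty _)⟩
  have hk' : (1 : ℝ) ≤ k := by exact_mod_cast hk
  have h4 : (0 : ℝ) < 1 - 1 / (4 * k) := by
    rw [sub_pos, div_lt_one (by positivity)]
    linarith
  have h6 : 0 < N (Sat (fun i => F i \ G) v (al F v I G a)) :=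
    lt_of_lt_of_le (mul_pos (pow_pos h4 _) h2) h1
  rw [← h5] at h6
  exact pos_of_mul_pos_left h6 (by positivity)

end family

end Pool.Agent.H685R2.RK
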