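import Pool.Agent.H685R2.RK.Alg
import Pool.Agent.H685R2.VST.PolyF
import Pool.Agent.NPC.Dec

/-!
# The learner runs in polynomial time
-/

namespace Pool.Agent.NPC.H685RK

open Pool.Agent.H685R2.VST (tup mem_tup)
open Pool.Agent.H685R2.RK
open Pool.Agent.NPC.H685VST (poly_tup)

variable {α : Type} [TEnc α]

attribute [local irreducible] tup

theorem poly_gb {a : α → List Bool} {j : α → ℕ} (ha : Poly a) (hj : Poly j) :
    Poly (fun x => gb (a x) (j x)) := by
  unfold gb
  fun_prop

attribute [fun_prop] poly_gb
attribute [local irreducible] gb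

theorem poly_agr {a b : α → List Bool} {L : α → List ℕ} (ha : Poly a) (hb : Poly b)
    (hL : Poly L) : Poly (fun x => agr (a x) (b x) (L x)) := by
  unfold agr
  fun_prop

attribute [fun_prop] poly_agr
attribute [local irreducible] agr

theorem poly_tup' {L : α → List ℕ} (J : ℕ) (hL : Poly L) : Poly (fun a => tup J (L a)) :=
  poly_tup hL J

attribute [fun_prop] poly_tup'

theorem poly_forced (J : ℕ) {R : α → List ℕ} {neg : α → List (List Bool)} {V : α → List ℕ}
    {y : α → ℕ} (hR : Poly R) (hn : Poly neg) (hV : Poly V) (hy : Poly y) :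
    Poly (fun a => forced J (R a) (neg a) (V a) (y a)) := by
  unfold forced
  fun_prop

attribute [fun_prop] poly_forced
attribute [local irreducible] forced

theorem poly_vset (J : ℕ) {R : α → List ℕ} {neg : α → List (List Bool)} (hR : Poly R)
    (hn : Poly neg) : Poly (fun a => vset J (R a) (neg a)) := by
  obtain ⟨q, hq⟩ := hR.sz_le
  unfold vset
  refine Poly.iterLen (l := fun a => 0 :: R a) (s := fun _ => ([] : List ℕ))
    (F := fun a V => vstep J (R a) (neg a) V) (by fun_prop) (Poly.const _) ?_
    (q + Polynomial.C 1) ?_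
  · unfold vstep
    fun_prop
  · intro a k _
    cases k with
    | zero => simp
    | succ k =>
      rw [Function.iterate_succ', Function.comp_apply]
      have h1 := Pool.Agent.NPC.H685VST.sz_filter_le (R a) (fun y =>
        decide (y ∈ (fun V : List ℕ => vstep J (R a) (neg a) V)^[k] []) ||
          forced J (R a) (neg a) ((fun V : List ℕ => vstep J (R a) (neg a) V)^[k] []) y)
      have h2 := hq a
      simp only [Polynomial.eval_add, Polynomial.eval_C]
      unfold vstep at h1 ⊢
      omega

attribute [fun_prop] poly_vset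
attribute [local irreducible] vset

theorem poly_cntL {neg : α → List (List Bool)} {a : α → List Bool} {H : α → List ℕ}
    {x y : α → ℕ} (s : Bool) (hn : Poly neg) (ha : Poly a) (hH : Poly H) (hx : Poly x)
    (hy : Poly y) : Poly (fun z => cntL (neg z) (a z) (H z) (x z) (y z) s) := by
  unfold cntL
  cases s with
  | true =>
    simp only [bool_beq_true']
    fun_prop
  | false =>
    simp only [bool_beq_false']
    fun_prop
where
  bool_beq_true' (b : Bool) : (b == true) = b := by cases b <;> rfl
  bool_beq_false' (b : Bool) : (b == false) = !b := by cases b <;> rfl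

attribute [fun_prop] poly_cntL
attribute [local irreducible] cntL

theorem poly_lam {q m₁ : α → ℕ} {R : α → List ℕ} {neg : α → List (List Bool)} {V : α → List ℕ}
    {a : α → List Bool} {x : α → ℕ} {Z : α → List ℕ} (hq : Poly q) (hm : Poly m₁) (hR : Poly R)
    (hn : Poly neg) (hV : Poly V) (ha : Poly a) (hx : Poly x) (hZ : Poly Z) :
    Poly (fun z => lam (q z) (m₁ z) (R z) (neg z) (V z) (a z) (x z) (Z z)) := by
  unfold lam
  fun_prop

attribute [fun_prop] poly_lam
attribute [local irreducible] lam

theorem subl_sublist {β : Type} (cap : List β) : ∀ (L : List ℕ), ∀ S ∈ subl cap L, S.Sublist L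
  | [], S, h => by
    have : S = [] := by simpa [subl] using h
    rw [this]
  | y :: L, S, h => by
    have hun : subl cap (y :: L) = ((subl cap L ++ (subl cap L).map (fun l => y :: l)).zip
        cap).map Prod.fst := rfl
    rw [hun] at h
    obtain ⟨p, hp, rfl⟩ := List.mem_map.1 h
    have h1 := List.of_mem_zip hp
    rcases List.mem_append.1 h1.1 with h2 | h2
    · exact (subl_sublist cap L _ h2).trans (List.sublist_cons_self _ _)
    · obtain ⟨S', hS', h3⟩ := List.mem_map.1 h2
      rw [← h3]
      exact (subl_sublist cap L _ hS').cons_cons _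

theorem sz_sublist_le {l l' : List ℕ} (h : l.Sublist l') : sz l ≤ sz l' := by
  induction h with
  | slnil => exact le_rfl
  | cons a _ ih => rw [sz_list_cons]; omega
  | cons_cons a _ ih => rw [sz_list_cons, sz_list_cons]; omega

theorem length_subl' {β : Type} (cap : List β) (L : List ℕ) :
    (subl cap L).length ≤ cap.length + 1 := by
  cases L with
  | nil => simp [subl]
  | cons y L =>
    have hun : subl cap (y :: L) = ((subl cap L ++ (subl cap L).map (fun l => y :: l)).zip
        cap).map Prod.fst := rfl
    rw [hun, List.length_map, List.length_zip]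
    exact (Nat.min_le_right _ _).trans (Nat.le_succ _)

theorem poly_subl {β : Type} [TEnc β] {cap : α → List β} {L : α → List ℕ} (hc : Poly cap)
    (hL : Poly L) : Poly (fun a => subl (cap a) (L a)) := by
  obtain ⟨q, hq⟩ := hL.sz_le
  obtain ⟨r, hr⟩ := hc.sz_le
  unfold subl
  refine Poly.foldr (l := L) (s := fun _ => [[]])
    (F := fun a y acc => ((acc ++ acc.map (fun l => y :: l)).zip (cap a)).map Prod.fst)
    hL (Poly.const _) ?_ ((r + Polynomial.C 1) * (q + Polynomial.C 1) + Polynomial.C 1) ?_
  · fun_prop
  · intro a k _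
    have h1 : ((L a).drop k).foldr (fun y acc => ((acc ++ acc.map (fun l => y :: l)).zip
        (cap a)).map Prod.fst) [[]] = subl (cap a) ((L a).drop k) := rfl
    rw [h1]
    have h2 : ∀ S ∈ subl (cap a) ((L a).drop k), sz S ≤ q.eval (sz a) := by
      intro S hS
      exact (sz_sublist_le ((subl_sublist _ _ S hS).trans (List.drop_sublist _ _))).trans (hq a)
    have h3 := sz_le_length_mul _ _ h2
    have h4 := length_subl' (cap a) ((L a).drop k)
    have h5 := length_lt_sz (cap a)
    have h6 := hr a
    have h7 : (subl (cap a) ((L a).drop k)).length ≤ r.eval (sz a) + 1 := by omega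
    simp only [Polynomial.eval_add, Polynomial.eval_mul, Polynomial.eval_C]
    have h8 := Nat.mul_le_mul_right (q.eval (sz a) + 1) h7
    omega

attribute [fun_prop] poly_subl
attribute [local irreducible] subl

theorem poly_candZ {β : Type} [TEnc β] {cap : α → List β} {q m₁ : α → ℕ} {R : α → List ℕ}
    {neg : α → List (List Bool)} {V : α → List ℕ}
    {a : α → List Bool} {x : α → ℕ} {Z : α → List ℕ} (hc : Poly cap) (hq : Poly q) (hm : Poly m₁)
    (hR : Poly R) (hn : Poly neg) (hV : Poly V) (ha : Poly a) (hx : Poly x) (hZ : Poly Z) :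
    Poly (fun z => candZ (cap z) (q z) (m₁ z) (R z) (neg z) (V z) (a z) (x z) (Z z)) := by
  unfold candZ
  fun_prop

attribute [fun_prop] poly_candZ
attribute [local irreducible] candZ

theorem poly_cands {β : Type} [TEnc β] {cap : α → List β} (k : ℕ) {q m₁ : α → ℕ}
    {R : α → List ℕ} {neg : α → List (List Bool)} {V : α → List ℕ} (hc : Poly cap)
    (hq : Poly q) (hm : Poly m₁) (hR : Poly R) (hn : Poly neg) (hV : Poly V) :
    Poly (fun z => cands (cap z) k (q z) (m₁ z) (R z) (neg z) (V z)) := by
  unfold cands
  fun_prop

attribute [fun_prop] poly_cands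
attribute [local irreducible] cands

theorem poly_trL {t : α → List (ℕ × Bool)} {b : α → List Bool} (ht : Poly t) (hb : Poly b) :
    Poly (fun a => trL (t a) (b a)) := by
  unfold trL
  fun_prop

attribute [fun_prop] poly_trL
attribute [local irreducible] trL

theorem poly_learnN {β : Type} [TEnc β] {cap : α → List β} (k J : ℕ) {E q m₁ : α → ℕ}
    {R : α → List ℕ} {neg negA : α → List (List Bool)} (hc : Poly cap) (hE : Poly E)
    (hq : Poly q) (hm : Poly m₁) (hR : Poly R) (hn : Poly neg) (hA : Poly negA) :
    Poly (fun z => learnN (cap z) k J (E z) (q z) (m₁ z) (R z) (neg z) (negA z)) := by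
  unfold learnN
  fun_prop

attribute [fun_prop] poly_learnN
attribute [local irreducible] learnN

theorem poly_evalH {h : α → Hyp} {b : α → List Bool} (hh : Poly h) (hb : Poly b) :
    Poly (fun a => evalH (h a) (b a)) := by
  unfold evalH
  fun_prop

attribute [fun_prop] poly_evalH

theorem take_eq {β : Type} : ∀ (l : List β) (m k : ℕ),
    ((l.zipIdx k).filter (fun p => decide (p.2 < m))).map Prod.fst = l.take (m - k)
  | [], m, k => by simp
  | b :: l, m, k => by
    rw [List.zipIdx_cons, List.filter_cons]
    by_cases h : k < m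
    · rw [if_pos (by simpa using h), List.map_cons, take_eq l m (k + 1)]
      obtain ⟨r, hr⟩ : ∃ r, m - k = r + 1 := ⟨m - k - 1, by omega⟩
      rw [hr, List.take_succ_cons]
      congr 2
      omega
    · rw [if_neg (by simpa using h), take_eq l m (k + 1)]
      have h1 : m - k = 0 := by omega
      have h2 : m - (k + 1) = 0 := by omega
      rw [h1, h2, List.take_zero, List.take_zero]

theorem poly_take {β : Type} [TEnc β] {l : α → List β} {m : α → ℕ} (hl : Poly l) (hm : Poly m) :
    Poly (fun a => (l a).take (m a)) := by
  have h : Poly (fun a => (((l a).zipIdx 0).filter (fun p => decide (p.2 < m a))).map Prod.fst) := by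
    fun_prop
  refine h.congr fun a => ?_
  rw [take_eq, Nat.sub_zero]

attribute [fun_prop] poly_take

theorem poly_pow {f : α → ℕ} (hf : Poly f) : ∀ c : ℕ, Poly (fun a => f a ^ c)
  | 0 => by
    simp only [pow_zero]
    exact Poly.const 1
  | c + 1 => by
    simp only [pow_succ]
    exact Poly.mul (poly_pow hf c) hf

end Pool.Agent.NPC.H685RK
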