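import Pool.Agent.H685R2.RK.Params
import Pool.Agent.H685R2.RK.PolyL
import Pool.Agent.H685R2.RK.Defs

/-!
# Read-`k` DNF formulas are learnable from uniform random examples
-/

namespace Pool.Agent.NPC.H685RK

open Pool.Agent.H685R2.RK

/-- The first example. -/
def fstL (s : List (List Bool × Bool)) : List Bool := s.head?.elim [] Prod.fst

/-- The learner. -/
def learnT (k : ℕ) (a : (ℕ × ℕ) × List (List Bool × Bool)) : Hyp :=
  learnN (a.2.take (m1P k (fstL a.2).length a.1.1 a.1.2)) k (10 * k) a.1.1
    (qP k (fstL a.2).length a.1.1) (m1P k (fstL a.2).length a.1.1 a.1.2)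
    (List.range (fstL a.2).length)
    (negL (a.2.take (m1P k (fstL a.2).length a.1.1 a.1.2))) (negL a.2)

section

variable {α : Type} [TEnc α]

theorem poly_qP (k : ℕ) {n E : α → ℕ} (hn : Poly n) (hE : Poly E) :
    Poly (fun a => qP k (n a) (E a)) := by
  unfold qP
  exact poly_pow (by fun_prop) _

attribute [fun_prop] poly_qP
attribute [local irreducible] qP

theorem poly_m1P (k : ℕ) {n E D : α → ℕ} (hn : Poly n) (hE : Poly E) (hD : Poly D) :
    Poly (fun a => m1P k (n a) (E a) (D a)) := by
  have h2 : Poly (fun a => qP k (n a) (E a) ^ 2) := poly_pow (by fun_prop) 2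
  unfold m1P
  fun_prop

attribute [fun_prop] poly_m1P
attribute [local irreducible] m1P

theorem poly_negL {s : α → List (List Bool × Bool)} (hs : Poly s) :
    Poly (fun a => negL (s a)) := by
  unfold negL
  fun_prop

attribute [fun_prop] poly_negL
attribute [local irreducible] negL

end

theorem poly_fstL : Poly fstL := by
  unfold fstL
  fun_prop

theorem poly_learnT (k : ℕ) : Poly (learnT k) := by
  have h1 : Poly (fun a : (ℕ × ℕ) × List (List Bool × Bool) => fstL a.2) :=
    poly_fstL.comp (Poly.snd Poly.id)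
  have h2 := Poly.range_length h1
  have h3 : Poly (fun a : (ℕ × ℕ) × List (List Bool × Bool) => (fstL a.2).length) := by fun_prop
  unfold learnT
  fun_prop

/-- The evaluation of a coded hypothesis. -/
def evalB (y : List Bool) : Bool :=
  match unbits Hyp (unpair y).1 with
  | none => false
  | some h => evalH h (unpair y).2

theorem poly_evalB : Poly evalB := by
  unfold evalB
  refine (Poly.optCases (g := fun _ => false) (h := fun y h => evalH h (unpair y).2)
    (poly_unbits.comp (Poly.fst poly_unpair)) (Poly.const _)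
    (poly_evalH (Poly.snd Poly.id) (Poly.snd (poly_unpair.comp (Poly.fst Poly.id))))).congr
    fun y => ?_
  cases unbits Hyp (unpair y).1 <;> rfl

theorem evalB_pair (h : Hyp) (x : List Bool) : evalB (pairBits (bits h) x) = evalH h x := by
  unfold evalB
  rw [unpair_pairBits]
  simp only [unbits_bits]

/-- The learner on bit strings. -/
def learnB (k : ℕ) (y : List Bool) : Hyp :=
  match unbits ((ℕ × ℕ) × List (List Bool × Bool)) y with
  | none => ([], [])
  | some a => learnT k a

theorem poly_learnB (k : ℕ) : Poly (learnB k) := by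
  unfold learnB
  refine (Poly.optCases (g := fun _ => (([], []) : Hyp)) (h := fun _ a => learnT k a)
    poly_unbits (Poly.const _) ((poly_learnT k).comp (Poly.snd Poly.id))).congr fun y => ?_
  cases unbits ((ℕ × ℕ) × List (List Bool × Bool)) y <;> rfl

theorem learnB_bits (k : ℕ) (a : (ℕ × ℕ) × List (List Bool × Bool)) :
    learnB k (bits a) = learnT k a := by
  unfold learnB
  simp only [unbits_bits]

theorem learnT_smp (k : ℕ) {n m : ℕ} (hm : 0 < m) (E D : ℕ) (f : Cube n → Bool)
    (ω : Fin m → Cube n) : learnT k ((E, D), smp f ω) =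
      learnN ((smp f ω).take (m1P k n E D)) k (10 * k) E (qP k n E) (m1P k n E D) (List.range n)
        (negL ((smp f ω).take (m1P k n E D))) (negL (smp f ω)) := by
  have h : (fstL (smp f ω)).length = n := by
    obtain ⟨m, rfl⟩ : ∃ m', m = m' + 1 := ⟨m - 1, by omega⟩
    unfold fstL smp
    rw [List.ofFn_succ]
    simp
  unfold learnT
  rw [h]

open Classical in
/-- Read-`k` DNF formulas are learnable in polynomial time from uniform random examples. -/
theorem learnable (k : ℕ) :
    UniformLearnable (fun n => {f | ∃ φ : DNF n, φ.ReadK k ∧ f = φ.eval}) := by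
  obtain ⟨c, hc⟩ := PB_mP (k + 1)
  refine ⟨c, fun x => bits (learnB (k + 1) x), fun y => [evalB y],
    polyTime_bits (poly_learnB (k + 1)), polyTime_of_poly poly_evalB, ?_⟩
  rintro n E D hE hD f ⟨φ, hφ, rfl⟩
  set m := (n + E + D + 2) ^ c with hm
  have hm0 : 0 < m := by positivity
  -- the terms
  let I : Finset (Fin φ.length) := Finset.univ.filter
    (fun i => ∃ x : Cube n, (φ.get i).all (fun p => x p.1 == p.2) = true)
  let F : Fin φ.length → Finset (Fin n) := fun i => ((φ.get i).map Prod.fst).toFinset
  let v : Fin φ.length → Cube n := fun i =>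
    if h : ∃ x : Cube n, (φ.get i).all (fun p => x p.1 == p.2) = true then h.choose
    else fun _ => false
  have hTr : ∀ i ∈ I, ∀ x : Cube n, Tr F v i x ↔
      (φ.get i).all (fun p => x p.1 == p.2) = true := by
    intro i hi x
    have hex : ∃ x : Cube n, (φ.get i).all (fun p => x p.1 == p.2) = true :=
      (Finset.mem_filter.1 hi).2
    have hv : v i = hex.choose := dif_pos hex
    have hv' : (φ.get i).all (fun p => v i p.1 == p.2) = true := by
      rw [hv]
      exact hex.choose_spec
    rw [List.all_eq_true] at hv' ⊢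
    unfold Tr
    constructor
    · intro h p hp
      have h1 := h p.1 (List.mem_toFinset.2 (List.mem_map.2 ⟨p, hp, rfl⟩))
      rw [h1]
      exact hv' p hp
    · intro h j hj
      obtain ⟨p, hp, rfl⟩ := List.mem_map.1 (List.mem_toFinset.1 hj)
      have h1 := h p hp
      have h2 := hv' p hp
      rw [beq_iff_eq] at h1 h2
      rw [h1, h2]
  have hread : RdK F (k + 1) I := by
    intro j
    have h1 := hφ j
    have h2 : (φ.filter (fun t => t.any (fun p => p.1 == j))).length =
        (Finset.univ.filter (fun i : Fin φ.length =>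
          (φ.get i).any (fun p => p.1 == j) = true)).card := by
      conv_lhs => rw [← List.ofFn_get φ]
      exact length_filter_ofFn _ _
    rw [h2] at h1
    refine le_trans (Finset.card_le_card ?_) (h1.trans (Nat.le_succ k))
    intro i hi
    rw [Finset.mem_filter] at hi ⊢
    refine ⟨Finset.mem_univ _, ?_⟩
    obtain ⟨p, hp, hpj⟩ := List.mem_map.1 (List.mem_toFinset.1 hi.2)
    rw [List.any_eq_true]
    exact ⟨p, hp, by rw [beq_iff_eq]; exact hpj⟩
  have hf : ∀ x, φ.eval x = true ↔ ∃ i ∈ I, Tr F v i x := by
    intro x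
    unfold DNF.eval
    rw [List.any_eq_true]
    constructor
    · rintro ⟨t, ht, htx⟩
      obtain ⟨i, rfl⟩ := List.get_of_mem ht
      have hi : i ∈ I := Finset.mem_filter.2 ⟨Finset.mem_univ _, x, htx⟩
      exact ⟨i, hi, (hTr i hi x).2 htx⟩
    · rintro ⟨i, hi, h⟩
      exact ⟨φ.get i, List.get_mem _ _, (hTr i hi x).1 h⟩
  have hmain := fail_prob (k := k + 1) (n := n) (E := E) (D := D) (m := m) (by omega) hE hD
    (hc n E D) hread hf
  have hset : {ω : Fin m → Fin n → Bool |
      2 ^ n < E * {x : Fin n → Bool | [evalB (pairBits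
        (bits (learnB (k + 1) (bits ((E, D), examples φ.eval ω)))) (List.ofFn x))] ≠
          [φ.eval x]}.ncard} =
      {ω : Fin m → Cube n | ¬ (E : ℝ) * N (fun b => evalH (learnN
        ((smp φ.eval ω).take (m1P (k + 1) n E D)) (k + 1) (10 * (k + 1)) E (qP (k + 1) n E)
        (m1P (k + 1) n E D) (List.range n) (negL ((smp φ.eval ω).take (m1P (k + 1) n E D)))
        (negL (smp φ.eval ω))) (List.ofFn b) ≠ φ.eval b) ≤ 2 ^ n} := by
    ext ω
    rw [Set.mem_ofPred_eq, Set.mem_ofPred_eq, not_le, learnB_bits]
    have h1 : examples φ.eval ω = smp φ.eval ω := rfl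
    rw [h1, learnT_smp _ hm0]
    simp only [evalB_pair]
    unfold N
    rw [← Nat.cast_lt (α := ℝ)]
    push_cast
    have h2 : ∀ a b : Bool, ([a] ≠ [b]) = (a ≠ b) := by
      intro a b
      simp
    simp only [h2]
  have h3 : (D : ℝ) * ({ω : Fin m → Fin n → Bool |
      2 ^ n < E * {x : Fin n → Bool | [evalB (pairBits
        (bits (learnB (k + 1) (bits ((E, D), examples φ.eval ω)))) (List.ofFn x))] ≠
          [φ.eval x]}.ncard}.ncard : ℝ) ≤ (2 ^ n) ^ m := by
    rw [hset]
    exact hmain
  exact_mod_cast h3

end Pool.Agent.NPC.H685RK
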