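import Pool.Agent.H685R2.RK.LLL

/-!
# Uniform convergence for a finite class of functions, by counting
-/

namespace Pool.Agent.H685R2.RK

open Finset

/-- The number of samples with a property, as a real number. -/
noncomputable def Ms {n m : ℕ} (P : (Fin m → Cube n) → Prop) : ℝ :=
  ({ω | P ω} : Set (Fin m → Cube n)).ncard

section

variable {n m : ℕ}

theorem Ms_mono {P Q : (Fin m → Cube n) → Prop} (h : ∀ ω, P ω → Q ω) : Ms P ≤ Ms Q := by
  unfold Ms
  exact_mod_cast Set.ncard_le_ncard (fun x hx => h x hx) (Set.toFinite _)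

theorem Ms_or_le (P Q : (Fin m → Cube n) → Prop) : Ms (fun ω => P ω ∨ Q ω) ≤ Ms P + Ms Q := by
  unfold Ms
  have h : ({ω | P ω ∨ Q ω} : Set (Fin m → Cube n)) = {ω | P ω} ∪ {ω | Q ω} := rfl
  rw [h]
  exact_mod_cast Set.ncard_union_le _ _

theorem Ms_exists_le {K : Type*} (S : Finset K) (R : K → (Fin m → Cube n) → Prop) :
    Ms (fun ω => ∃ κ ∈ S, R κ ω) ≤ ∑ κ ∈ S, Ms (R κ) := by
  classical
  induction S using Finset.induction with
  | empty =>
    unfold Ms
    simp
  | insert i S hi ih =>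
    rw [Finset.sum_insert hi]
    refine le_trans ?_ (add_le_add_right ih _)
    refine le_trans (Ms_mono fun ω h => ?_) (Ms_or_le _ _)
    obtain ⟨κ, hκ, h⟩ := h
    rcases Finset.mem_insert.1 hκ with rfl | hκ
    · exact Or.inl h
    · exact Or.inr ⟨κ, hκ, h⟩

theorem Ms_le_sum {P : (Fin m → Cube n) → Prop} {h : (Fin m → Cube n) → ℝ} (h0 : ∀ ω, 0 ≤ h ω)
    (h1 : ∀ ω, P ω → 1 ≤ h ω) : Ms P ≤ ∑ ω, h ω := by
  classical
  unfold Ms
  rw [Set.ncard_eq_toFinset_card _ (Set.toFinite _)]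
  calc (((Set.toFinite {ω | P ω}).toFinset.card : ℕ) : ℝ)
      = ∑ ω ∈ (Set.toFinite {ω | P ω}).toFinset, (1 : ℝ) := by simp
    _ ≤ ∑ ω ∈ (Set.toFinite {ω | P ω}).toFinset, h ω := by
        apply Finset.sum_le_sum
        intro ω hω
        exact h1 ω ((Set.Finite.mem_toFinset _).1 hω)
    _ ≤ ∑ ω, h ω := Finset.sum_le_sum_of_subset_of_nonneg (Finset.subset_univ _)
        (fun ω _ _ => h0 ω)

theorem exp_sum_le (g : Cube n → ℝ) (hg : ∀ x, |g x| ≤ 1) {l : ℝ} (hl0 : 0 ≤ l) (hl : l ≤ 1) :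
    ∑ x, Real.exp (l * g x) ≤ 2 ^ n * Real.exp (l * ((∑ x, g x) / 2 ^ n) + l ^ 2) := by
  have h1 : ∀ x, Real.exp (l * g x) ≤ 1 + l * g x + l ^ 2 := by
    intro x
    have h2 : |l * g x| ≤ 1 := by
      rw [abs_mul, abs_of_nonneg hl0]
      exact mul_le_one₀ hl (abs_nonneg _) (hg x)
    have h3 := Real.abs_exp_sub_one_sub_id_le h2
    have h4 := (abs_le.1 h3).2
    have h5 : (l * g x) ^ 2 ≤ l ^ 2 := by
      rw [mul_pow]
      have h6 : g x ^ 2 ≤ 1 := by
        rw [← sq_abs]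
        exact pow_le_one₀ (abs_nonneg _) (hg x)
      nlinarith [sq_nonneg l]
    linarith
  have h2 : (0 : ℝ) < 2 ^ n := by positivity
  calc ∑ x, Real.exp (l * g x) ≤ ∑ x : Cube n, (1 + l * g x + l ^ 2) :=
        Finset.sum_le_sum fun x _ => h1 x
    _ = 2 ^ n * (1 + l * ((∑ x, g x) / 2 ^ n) + l ^ 2) := by
        rw [Finset.sum_add_distrib, Finset.sum_add_distrib, ← Finset.mul_sum]
        simp only [Finset.sum_const, Finset.card_univ, Fintype.card_fun, Fintype.card_bool,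
          Fintype.card_fin, nsmul_eq_mul, Nat.cast_pow, Nat.cast_ofNat]
        field_simp
    _ ≤ _ := by
        apply mul_le_mul_of_nonneg_left _ h2.le
        have h3 := Real.add_one_le_exp (l * ((∑ x, g x) / 2 ^ n) + l ^ 2)
        linarith

/-- Chernoff bound, by counting. -/
theorem chernoff (g : Cube n → ℝ) (hg : ∀ x, |g x| ≤ 1) (A : Finset (Fin m)) {τ : ℝ}
    (h0 : 0 ≤ τ) (h1 : τ ≤ 1) :
    Ms (fun ω => τ * A.card ≤ ∑ i ∈ A, g (ω i) - A.card * ((∑ x, g x) / 2 ^ n)) ≤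
      (2 ^ n) ^ m * Real.exp (-(A.card * τ ^ 2 / 4)) := by
  classical
  set μ : ℝ := (∑ x, g x) / 2 ^ n with hμ
  set l : ℝ := τ / 2 with hl
  have hl0 : 0 ≤ l := by positivity
  have hl1 : l ≤ 1 := by rw [hl]; linarith
  let w : Fin m → Cube n → ℝ := fun i x => if i ∈ A then Real.exp (l * (g x - μ - τ)) else 1
  have hw : ∀ ω : Fin m → Cube n, ∏ i, w i (ω i) =
      Real.exp (l * (∑ i ∈ A, g (ω i) - A.card * μ - τ * A.card)) := by
    intro ω
    have h2 : ∏ i, w i (ω i) = ∏ i ∈ A, Real.exp (l * (g (ω i) - μ - τ)) := by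
      rw [← Finset.prod_filter_mul_prod_filter_not Finset.univ (· ∈ A)]
      have h3 : ∏ i ∈ Finset.univ.filter (fun i => ¬ i ∈ A), w i (ω i) = 1 := by
        apply Finset.prod_eq_one
        intro i hi
        simp only [w]
        rw [if_neg (Finset.mem_filter.1 hi).2]
      rw [h3, mul_one]
      have h4 : Finset.univ.filter (fun i => i ∈ A) = A := by ext; simp
      rw [h4]
      apply Finset.prod_congr rfl
      intro i hi
      simp only [w]
      rw [if_pos hi]
    rw [h2, ← Real.exp_sum, ← Finset.mul_sum]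
    congr 2
    simp only [Finset.sum_sub_distrib, Finset.sum_const, nsmul_eq_mul]
    ring
  have h2 : Ms (fun ω => τ * A.card ≤ ∑ i ∈ A, g (ω i) - A.card * μ) ≤
      ∑ ω : Fin m → Cube n, ∏ i, w i (ω i) := by
    apply Ms_le_sum
    · intro ω
      rw [hw]
      exact (Real.exp_pos _).le
    · intro ω hω
      rw [hw, Real.one_le_exp_iff]
      exact mul_nonneg hl0 (by linarith)
  have h3 : ∑ ω : Fin m → Cube n, ∏ i, w i (ω i) = ∏ i : Fin m, ∑ x, w i x :=
    (Finset.prod_univ_sum (fun _ => Finset.univ) (fun i x => w i x)).symm ▸ by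
      rw [Fintype.piFinset_univ]
  have h4 : ∀ i : Fin m, ∑ x, w i x ≤ 2 ^ n * (if i ∈ A then Real.exp (-(τ ^ 2 / 4)) else 1) := by
    intro i
    by_cases hi : i ∈ A
    · rw [if_pos hi]
      have h5 : ∑ x, w i x = (∑ x, Real.exp (l * g x)) * Real.exp (-(l * (μ + τ))) := by
        rw [Finset.sum_mul]
        apply Finset.sum_congr rfl
        intro x _
        simp only [w]
        rw [if_pos hi, ← Real.exp_add]
        congr 1
        ring
      rw [h5]
      have h6 := mul_le_mul_of_nonneg_right (exp_sum_le g hg hl0 hl1)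
        (Real.exp_pos (-(l * (μ + τ)))).le
      refine h6.trans (le_of_eq ?_)
      rw [mul_assoc, ← Real.exp_add]
      congr 2
      rw [← hμ, hl]
      ring
    · rw [if_neg hi, mul_one]
      have h5 : ∀ x, w i x = 1 := by
        intro x
        simp only [w]
        rw [if_neg hi]
      simp [h5]
  have h5 : ∏ i : Fin m, ∑ x, w i x ≤
      ∏ i : Fin m, (2 ^ n * (if i ∈ A then Real.exp (-(τ ^ 2 / 4)) else 1)) := by
    apply Finset.prod_le_prod
    · intro i _
      apply Finset.sum_nonneg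
      intro x _
      simp only [w]
      split_ifs
      · exact (Real.exp_pos _).le
      · norm_num
    · exact fun i _ => h4 i
  rw [Finset.prod_mul_distrib, Finset.prod_const, Finset.card_univ, Fintype.card_fin,
    Finset.prod_ite, Finset.prod_const_one, mul_one, Finset.prod_const, ← Real.exp_nat_mul] at h5
  have h6 : (Finset.univ.filter (fun i => i ∈ A)).card = A.card := by
    congr 1
    ext
    simp
  rw [h6] at h5
  refine h2.trans (h3 ▸ h5.trans (le_of_eq ?_))
  congr 2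
  ring

theorem uc_one (g : Cube n → ℝ) (hg : ∀ x, |g x| ≤ 1) (A : Finset (Fin m)) {τ : ℝ}
    (h0 : 0 ≤ τ) (h1 : τ ≤ 1) :
    Ms (fun ω => τ * A.card ≤ |∑ i ∈ A, g (ω i) - A.card * ((∑ x, g x) / 2 ^ n)|) ≤
      2 * ((2 ^ n) ^ m * Real.exp (-(A.card * τ ^ 2 / 4))) := by
  have h2 := chernoff g hg A h0 h1
  have h3 := chernoff (fun x => - g x) (fun x => by rw [abs_neg]; exact hg x) A h0 h1
  have h4 : Ms (fun ω => τ * A.card ≤ |∑ i ∈ A, g (ω i) - A.card * ((∑ x, g x) / 2 ^ n)|) ≤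
      Ms (fun ω => τ * A.card ≤ ∑ i ∈ A, g (ω i) - A.card * ((∑ x, g x) / 2 ^ n)) +
      Ms (fun ω => τ * A.card ≤ ∑ i ∈ A, - g (ω i) - A.card * ((∑ x, - g x) / 2 ^ n)) := by
    refine le_trans (Ms_mono fun ω h => ?_) (Ms_or_le _ _)
    rcases le_abs.1 h with h | h
    · exact Or.inl h
    · right
      rw [Finset.sum_neg_distrib, Finset.sum_neg_distrib]
      refine h.trans (le_of_eq ?_)
      ring
  linarith

/-- The sample is good: the frequencies of all patterns among the negative examples with index in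
`A` are within `τ` of the probabilities. -/
def GoodS (f : Cube n → Bool) (ω : Fin m → Cube n) (A : Finset (Fin m)) (τ : ℝ) : Prop :=
  ∀ (G : Finset (Fin n)) (b : Cube n),
    |((A.filter (fun i => f (ω i) = false ∧ ∀ j ∈ G, ω i j = b j)).card : ℝ) -
      A.card * (N (fun x => f x = false ∧ ∀ j ∈ G, x j = b j) / 2 ^ n)| < τ * A.card

theorem good_prob (f : Cube n → Bool) (A : Finset (Fin m)) {τ : ℝ} (h0 : 0 ≤ τ) (h1 : τ ≤ 1) :
    Ms (fun ω => ¬ GoodS f ω A τ) ≤
      2 * 4 ^ n * Real.exp (-(A.card * τ ^ 2 / 4)) * (2 ^ n) ^ m := by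
  classical
  let g : Finset (Fin n) × Cube n → Cube n → ℝ := fun κ x =>
    if f x = false ∧ ∀ j ∈ κ.1, x j = κ.2 j then 1 else 0
  have hg : ∀ κ x, |g κ x| ≤ 1 := by
    intro κ x
    simp only [g]
    split_ifs <;> simp
  have hsum : ∀ κ, ∑ x, g κ x = N (fun x => f x = false ∧ ∀ j ∈ κ.1, x j = κ.2 j) := by
    intro κ
    simp only [g]
    rw [Finset.sum_boole]
    unfold N
    rw [Set.ncard_eq_toFinset_card _ (Set.toFinite _)]
    congr 2
    ext x
    simp
  have hemp : ∀ κ (ω : Fin m → Cube n), ∑ i ∈ A, g κ (ω i) =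
      ((A.filter (fun i => f (ω i) = false ∧ ∀ j ∈ κ.1, ω i j = κ.2 j)).card : ℝ) := by
    intro κ ω
    simp only [g]
    rw [Finset.sum_boole]
  have h2 : Ms (fun ω => ¬ GoodS f ω A τ) ≤ Ms (fun ω => ∃ κ ∈ (Finset.univ :
      Finset (Finset (Fin n) × Cube n)), τ * A.card ≤
        |∑ i ∈ A, g κ (ω i) - A.card * ((∑ x, g κ x) / 2 ^ n)|) := by
    apply Ms_mono
    intro ω hω
    unfold GoodS at hω
    push Not at hω
    obtain ⟨G, b, h⟩ := hω
    refine ⟨(G, b), Finset.mem_univ _, ?_⟩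
    rw [hsum, hemp]
    exact h
  refine h2.trans ((Ms_exists_le _ _).trans ?_)
  refine (Finset.sum_le_sum fun κ _ => uc_one (g κ) (hg κ) A h0 h1).trans (le_of_eq ?_)
  rw [Finset.sum_const, Finset.card_univ, Fintype.card_prod, Fintype.card_finset,
    Fintype.card_fin, Fintype.card_fun, Fintype.card_bool, Fintype.card_fin, nsmul_eq_mul]
  push_cast
  have : (4 : ℝ) ^ n = 2 ^ n * 2 ^ n := by rw [← mul_pow]; norm_num
  rw [this]
  ring

end

end Pool.Agent.H685R2.RK
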