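import Pool.Agent.H685R2.RK.Core
import Pool.Agent.H685R2.RK.Sample

/-!
# The error of the hypothesis
-/

namespace Pool.Agent.H685R2.RK

open Finset
open Pool.Agent.H685R2.VST (tup mem_tup)

section

variable {k n E ℓ q m₁ : ℕ} {ι : Type} [DecidableEq ι] {F : ι → Finset (Fin n)}
  {v : ι → Fin n → Bool} {I : Finset ι} {f : Cube n → Bool} {neg : List (List Bool)}

/-- A term which is not true at any negative example is rarely true at negative points. -/
theorem fp_term {negA : List (List Bool)} {m : ℕ} {τ : ℝ} (hm : 0 < m) (hτ : 0 ≤ τ)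
    (h : GoodL f negA m τ) (t : List (ℕ × Bool)) (ht : ∀ b ∈ negA, trL t b = false) :
    N (fun b => f b = false ∧ trL t (List.ofFn b) = true) ≤ 2 ^ n * τ := by
  by_cases hex : ∃ x : Cube n, trL t (List.ofFn x) = true
  swap
  · have h1 : ¬ 0 < N (fun b => f b = false ∧ trL t (List.ofFn b) = true) := by
      rw [N_pos_iff]
      rintro ⟨x, _, hx⟩
      exact hex ⟨x, hx⟩
    exact (not_lt.1 h1).trans (by positivity)
  obtain ⟨x, hx⟩ := hex
  have htr : ∀ z : Cube n, trL t (List.ofFn z) = true ↔ ∀ j ∈ fs n (t.map Prod.fst), z j = x j := by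
    intro z
    unfold trL at hx ⊢
    simp only [List.all_eq_true, decide_eq_true_eq] at hx ⊢
    constructor
    · intro h1 j hj
      obtain ⟨p, hp, hpj⟩ := List.mem_map.1 (mem_fs.1 hj)
      have h2 := h1 p hp
      have h3 := hx p hp
      rw [hpj, gb_ofFn] at h2 h3
      rw [h2, h3]
    · intro h1 p hp
      rw [← hx p hp]
      by_cases hpn : p.1 < n
      · have h2 := gb_ofFn z ⟨p.1, hpn⟩
        have h3 := gb_ofFn x ⟨p.1, hpn⟩
        simp only at h2 h3
        rw [h2, h3]
        exact h1 _ (mem_fs.2 (List.mem_map.2 ⟨p, hp, rfl⟩))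
      · rw [gb_ofFn_ge z (by omega), gb_ofFn_ge x (by omega)]
  have h1 := h.cnt (fs n (t.map Prod.fst)) x
  have h2 : cP negA (fs n (t.map Prod.fst)) x = 0 := by
    unfold cP
    rw [List.length_eq_zero_iff, List.filter_eq_nil_iff]
    intro a ha
    rw [decide_eq_true_eq]
    intro h3
    obtain ⟨z, rfl, _⟩ := h.pts a ha
    have h4 := ht _ ha
    have h5 := (htr z).2 (fun j hj => by rw [← gb_ofFn z j]; exact h3 j hj)
    rw [h4] at h5
    simp at h5
  have h3 : N (fun b => f b = false ∧ trL t (List.ofFn b) = true) =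
      N (fun b => f b = false ∧ ∀ j ∈ fs n (t.map Prod.fst), b j = x j) := by
    apply N_congr
    intro z
    rw [htr]
  rw [h2] at h1
  rw [h3]
  have h4 := (abs_lt.1 h1).1
  have hm' : (0 : ℝ) < m := by exact_mod_cast hm
  have h5 : N (fun b => f b = false ∧ ∀ j ∈ fs n (t.map Prod.fst), b j = x j) / 2 ^ n ≤ τ := by
    have h6 : (m : ℝ) * (N (fun b => f b = false ∧ ∀ j ∈ fs n (t.map Prod.fst), b j = x j) / 2 ^ n)
        ≤ m * τ := by
      push_cast at h4
      linarith
    exact le_of_mul_le_mul_left h6 hm'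
  rw [div_le_iff₀ (by positivity)] at h5
  linarith

theorem N_Tr (i : ι) : N (Tr F v i) = 2 ^ n / 2 ^ (F i).card := by
  have h := N_pat (v i) (F i) (fun _ => True) (fun _ _ _ h => h)
  rw [N_true] at h
  rw [eq_div_iff (by positivity), ← h]
  congr 1
  apply N_congr
  intro x
  unfold Tr
  simp

/-- Long terms are rarely true. -/
theorem long_bound (hread : RdK F k I) (hne : ∃ x, Sat F v I x) :
    N (fun b => ∃ i ∈ I.filter (fun i => ℓ < (F i).card), Tr F v i b) ≤
      k * n * (2 ^ n / 2 ^ (ℓ + 1)) := by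
  refine (N_exists_le _ _).trans ?_
  obtain ⟨x, hx⟩ := hne
  have h1 : I.card ≤ k * n := by
    have h2 := touch_card hread Finset.univ I subset_rfl (by
      intro i hi
      have h3 := hx i hi
      unfold Tr at h3
      push Not at h3
      obtain ⟨j, hj, _⟩ := h3
      exact ⟨j, hj, Finset.mem_univ _⟩)
    rwa [Finset.card_univ, Fintype.card_fin] at h2
  have h2 : ∀ i ∈ I.filter (fun i => ℓ < (F i).card), N (Tr F v i) ≤ 2 ^ n / 2 ^ (ℓ + 1) := by
    intro i hi
    rw [N_Tr]
    apply div_le_div_of_nonneg_left (by positivity) (by positivity)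
    exact pow_le_pow_right₀ (by norm_num) (Finset.mem_filter.1 hi).2
  refine (Finset.sum_le_card_nsmul _ _ _ h2).trans ?_
  rw [nsmul_eq_mul]
  apply mul_le_mul_of_nonneg_right _ (by positivity)
  have h3 : (I.filter (fun i => ℓ < (F i).card)).card ≤ k * n :=
    (Finset.card_le_card (Finset.filter_subset _ _)).trans h1
  exact_mod_cast h3

theorem cP_empty (b : Cube n) : cP neg (∅ : Finset (Fin n)) b = neg.length := by
  unfold cP
  simp

/-- The error bound. -/
theorem err_bound (hk : 1 ≤ k) (hE : 1 ≤ E) (hread : RdK F k I)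
    (hf : ∀ x, f x = true ↔ ∃ i ∈ I, Tr F v i x) (hℓ : 1 ≤ ℓ)
    (hEℓ : 4 * k * E * (n + 1) ≤ 2 ^ ℓ) (hq : 2 ^ (c2 k * ℓ) ≤ q) (hm : q ≤ m₁)
    (good : GoodL f neg m₁ (1 / (4 * q))) {negA : List (List Bool)} {m q₂ : ℕ} (hm0 : 0 < m)
    (goodA : GoodL f negA m (1 / q₂)) (hlen : neg.length ≤ m₁)
    (hq₂ : 4 * E * (m₁ * (n * ((n + 1) ^ k * m₁)) + 1) ≤ q₂)
    {β : Type} (cap : List β) (hcap : cap.length = m₁) :
    (E : ℝ) * N (fun b => evalH (learnN cap k (10 * k) E q m₁ (List.range n) neg negA)
      (List.ofFn b) ≠ f b) ≤ 2 ^ n := by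
  have hqpos : 0 < q := lt_of_lt_of_le (by positivity) hq
  have hEq : E ≤ q := by
    refine le_trans ?_ hq
    have h1 : E ≤ 2 ^ ℓ := by
      refine le_trans ?_ hEℓ
      have h2 : 1 ≤ 4 * k * (n + 1) := Nat.one_le_iff_ne_zero.2 (by positivity)
      calc E = 1 * E := (one_mul _).symm
        _ ≤ (4 * k * (n + 1)) * E := Nat.mul_le_mul_right _ h2
        _ = _ := by ring
    refine h1.trans (Nat.pow_le_pow_right (by norm_num) ?_)
    apply Nat.le_mul_of_pos_left
    unfold c2
    omega
  have hE' : (1 : ℝ) ≤ E := by exact_mod_cast hE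
  have hq' : (0 : ℝ) < q := by exact_mod_cast hqpos
  have hEq' : (E : ℝ) ≤ q := by exact_mod_cast hEq
  have hm₁ : (0 : ℝ) < m₁ := by exact_mod_cast (lt_of_lt_of_le hqpos hm)
  have h2n : (0 : ℝ) < 2 ^ n := by positivity
  have hτ : (1 : ℝ) / (4 * q) ≤ 1 / (4 * E) := by
    apply one_div_le_one_div_of_le (by positivity)
    linarith
  have h0 := good.cnt ∅ (fun _ => false)
  rw [cP_empty] at h0
  have hN0 : N (fun x => f x = false ∧ ∀ j ∈ (∅ : Finset (Fin n)), x j = false) =
      N (fun x => f x = false) := N_congr fun x => by simp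
  rw [hN0] at h0
  obtain ⟨h0l, h0r⟩ := abs_lt.1 h0
  unfold learnN
  by_cases hcase : 4 * E * neg.length < 3 * m₁
  · rw [if_pos hcase]
    have h1 : N (fun b => evalH ([], []) (List.ofFn b) ≠ f b) ≤ N (fun x => f x = false) := by
      apply N_mono
      intro x hx
      unfold evalH at hx
      simpa using hx
    have h2 : (4 * E * neg.length : ℝ) < 3 * m₁ := by exact_mod_cast hcase
    have h3 : (m₁ : ℝ) * (N (fun x => f x = false) / 2 ^ n) < neg.length + 1 / (4 * E) * m₁ := by
      have h4 := mul_le_mul_of_nonneg_right hτ hm₁.le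
      linarith
    have h4 : (4 * E : ℝ) * (m₁ * (N (fun x => f x = false) / 2 ^ n)) < 4 * m₁ := by
      have h5 := mul_lt_mul_of_pos_left h3 (by positivity : (0 : ℝ) < 4 * E)
      have h6 : (4 * E : ℝ) * (neg.length + 1 / (4 * E) * m₁) = 4 * E * neg.length + m₁ := by
        field_simp
      rw [h6] at h5
      linarith
    have h5 : (E : ℝ) * (N (fun x => f x = false) / 2 ^ n) < 1 := by
      have h6 : (4 * m₁ : ℝ) * (E * (N (fun x => f x = false) / 2 ^ n)) < 4 * m₁ * 1 := by
        calc _ = (4 * E : ℝ) * (m₁ * (N (fun x => f x = false) / 2 ^ n)) := by ring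
          _ < _ := by rw [mul_one]; exact h4
      exact lt_of_mul_lt_mul_left h6 (by positivity)
    rw [← mul_div_assoc, div_lt_one h2n] at h5
    exact (mul_le_mul_of_nonneg_left h1 (by positivity)).trans h5.le
  · rw [if_neg hcase]
    push Not at hcase
    have h2 : (3 * m₁ : ℝ) ≤ 4 * E * neg.length := by exact_mod_cast hcase
    have hsatN : N (Sat F v I) = N (fun x => f x = false) := by
      apply N_congr
      intro x
      have h1 := hf x
      rw [← Bool.not_eq_true, h1]
      unfold Sat
      push Not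
      rfl
    have hbig : (2 : ℝ) ^ n ≤ N (Sat F v I) * 2 ^ ℓ := by
      rw [hsatN]
      have h3 : (neg.length : ℝ) - 1 / (4 * E) * m₁ < m₁ * (N (fun x => f x = false) / 2 ^ n) := by
        have h4 := mul_le_mul_of_nonneg_right hτ hm₁.le
        linarith
      have h4 : (2 * m₁ : ℝ) < 4 * E * (m₁ * (N (fun x => f x = false) / 2 ^ n)) := by
        have h5 := mul_lt_mul_of_pos_left h3 (by positivity : (0 : ℝ) < 4 * E)
        have h6 : (4 * E : ℝ) * (neg.length - 1 / (4 * E) * m₁) = 4 * E * neg.length - m₁ := by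
          field_simp
        rw [h6] at h5
        linarith
      have h5 : (1 : ℝ) < 2 * E * (N (fun x => f x = false) / 2 ^ n) := by
        have h6 : (2 * m₁ : ℝ) * 1 < 2 * m₁ * (2 * E * (N (fun x => f x = false) / 2 ^ n)) := by
          calc _ = (2 * m₁ : ℝ) := by ring
            _ < _ := h4
            _ = _ := by ring
        exact lt_of_mul_lt_mul_left h6 (by positivity)
      rw [← mul_div_assoc, lt_div_iff₀ h2n, one_mul] at h5
      have h6 : (2 * E : ℝ) ≤ 2 ^ ℓ := by
        have h7 : 2 * E ≤ 2 ^ ℓ := by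
          refine le_trans ?_ hEℓ
          have h8 : 2 ≤ 4 * k * (n + 1) := by
            have : 1 ≤ k * (n + 1) := Nat.one_le_iff_ne_zero.2 (by positivity)
            calc 2 ≤ 4 * (k * (n + 1)) := by omega
              _ = _ := by ring
          calc 2 * E ≤ (4 * k * (n + 1)) * E := Nat.mul_le_mul_right _ h8
            _ = _ := by ring
        exact_mod_cast h7
      have h7 := mul_le_mul_of_nonneg_right h6 (N_nonneg (fun x => f x = false))
      linarith
    have hctx : Ctx k n E ℓ q m₁ F v I f neg := ⟨hk, hread, hf, hℓ, hq, hm, good, hbig⟩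
    obtain ⟨Sh, W, hSh, hShc, hWc, hW⟩ := hctx.exists_W
    have hVW := hctx.V_sub hSh hShc hWc hW
    have hcover := fun (b : Cube n) hb hlong => hctx.cover cap hcap (negA := negA) goodA.pts
      (b := b) hb hlong
    set V := vset (10 * k) (List.range n) neg with hVdef
    set surv := (cands cap k q m₁ (List.range n) neg V).filter
      (fun t => !(negA.any (fun b => trL t b))) with hsurv
    have hVR : ∀ y ∈ V, y < n := fun y hy => List.mem_range.1 (vset_sub _ _ _ y hy)
    have hsplit : N (fun b => evalH (surv, neg.map (fun a => V.map (fun j => (j, gb a j))))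
        (List.ofFn b) ≠ f b) ≤
        N (fun b => ∃ i ∈ I.filter (fun i => ℓ < (F i).card), Tr F v i b) +
        N (fun b => ∃ t ∈ surv.toFinset, f b = false ∧ trL t (List.ofFn b) = true) := by
      refine le_trans (N_mono fun b hb => ?_) (N_or_le _ _)
      by_cases hfb : f b = true
      · left
        by_contra hcon
        apply hb
        rw [hfb]
        apply hcover b hfb
        intro i hi hw hT
        exact hcon ⟨i, Finset.mem_filter.2 ⟨hi, hw⟩, hT⟩
      · right
        have hfb' : f b = false := by simpa using hfb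
        rw [hfb', Bool.ne_false_iff] at hb
        unfold evalH at hb
        rw [Bool.or_eq_true, List.any_eq_true, Bool.not_eq_true', List.any_eq_false] at hb
        rcases hb with ⟨t, ht, htb⟩ | hb
        · exact ⟨t, List.mem_toFinset.2 ht, hfb', htb⟩
        · exfalso
          obtain ⟨x', h3, h4, h5⟩ := hctx.appear hSh hShc hfb' (fs n V) (by
            have := (Finset.card_le_card hVW).trans hWc
            omega)
          apply hb _ (List.mem_map.2 ⟨_, h3, rfl⟩)
          unfold trL
          simp only [List.all_eq_true, List.mem_map, decide_eq_true_eq]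
          rintro p ⟨j, hj, rfl⟩
          have h6 := gb_ofFn x' ⟨j, hVR j hj⟩
          have h7 := gb_ofFn b ⟨j, hVR j hj⟩
          simp only at h6 h7 ⊢
          rw [h6, h7]
          exact (h5 _ (mem_fs.2 hj)).symm
    have hlong := long_bound (v := v) (ℓ := ℓ) hread (by
      rw [← N_pos_iff]
      by_contra hcon
      have h3 : N (Sat F v I) = 0 := le_antisymm (not_lt.1 hcon) (N_nonneg _)
      rw [h3, zero_mul] at hbig
      linarith)
    have hfp : N (fun b => ∃ t ∈ surv.toFinset, f b = false ∧ trL t (List.ofFn b) = true) ≤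
        (m₁ * (n * ((n + 1) ^ k * m₁)) : ℕ) * (2 ^ n * (1 / q₂)) := by
      refine (N_exists_le _ _).trans ?_
      refine (Finset.sum_le_card_nsmul _ _ ((2 : ℝ) ^ n * (1 / (q₂ : ℝ))) ?_).trans ?_
      · intro t ht
        apply fp_term hm0 (by positivity) goodA
        intro b hb
        have h3 := List.mem_toFinset.1 ht
        rw [hsurv, List.mem_filter, Bool.not_eq_true', List.any_eq_false] at h3
        simpa using h3.2 b hb
      · rw [nsmul_eq_mul]
        apply mul_le_mul_of_nonneg_right _ (by positivity)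
        have h3 : surv.toFinset.card ≤ m₁ * (n * ((n + 1) ^ k * m₁)) := by
          refine (List.toFinset_card_le _).trans ((List.length_filter_le _ _).trans ?_)
          have h4 := length_cands cap (by
            rw [hcap]
            have := lt_of_lt_of_le hqpos hm
            omega) k q m₁ (List.range n) neg V
          rw [List.length_range, hcap] at h4
          exact h4.trans (Nat.mul_le_mul_right _ hlen)
        exact_mod_cast h3
    have hq₂pos : (0 : ℝ) < q₂ := by
      have : 0 < q₂ := lt_of_lt_of_le (by positivity) hq₂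
      exact_mod_cast this
    have e1 : (E : ℝ) * (k * n * (2 ^ n / 2 ^ (ℓ + 1))) ≤ 2 ^ n / 4 := by
      have h3 : (4 * k * E * (n + 1) : ℝ) ≤ 2 ^ ℓ := by exact_mod_cast hEℓ
      have h4 : (E * (k * n) : ℝ) * 4 ≤ 2 ^ (ℓ + 1) := by
        rw [pow_succ]
        have h5 : (0 : ℝ) ≤ 4 * k * E := by positivity
        nlinarith
      have h5 : (0 : ℝ) < 2 ^ (ℓ + 1) := by positivity
      calc (E : ℝ) * (k * n * (2 ^ n / 2 ^ (ℓ + 1))) = (E * (k * n)) * 4 * (2 ^ n / 4) / 2 ^ (ℓ + 1) := by
            ring
        _ ≤ 2 ^ (ℓ + 1) * (2 ^ n / 4) / 2 ^ (ℓ + 1) := by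
            apply div_le_div_of_nonneg_right _ h5.le
            exact mul_le_mul_of_nonneg_right h4 (by positivity)
        _ = 2 ^ n / 4 := by field_simp
    have e2 : (E : ℝ) * ((m₁ * (n * ((n + 1) ^ k * m₁)) : ℕ) * (2 ^ n * (1 / q₂))) ≤ 2 ^ n / 4 := by
      have h3 : (4 * E * ((m₁ * (n * ((n + 1) ^ k * m₁)) : ℕ) + 1) : ℝ) ≤ q₂ := by exact_mod_cast hq₂
      have h4 : (E * (m₁ * (n * ((n + 1) ^ k * m₁)) : ℕ) * 4 : ℝ) ≤ q₂ := by
        have h5 : (0 : ℝ) ≤ 4 * E := by positivity
        nlinarith
      calc (E : ℝ) * ((m₁ * (n * ((n + 1) ^ k * m₁)) : ℕ) * (2 ^ n * (1 / q₂)))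
          = (E * (m₁ * (n * ((n + 1) ^ k * m₁)) : ℕ) * 4) * (2 ^ n / 4) / q₂ := by ring
        _ ≤ q₂ * (2 ^ n / 4) / q₂ := by
            apply div_le_div_of_nonneg_right _ hq₂pos.le
            exact mul_le_mul_of_nonneg_right h4 (by positivity)
        _ = 2 ^ n / 4 := by field_simp
    have e3 := mul_le_mul_of_nonneg_left (hsplit.trans (add_le_add hlong hfp))
      (by positivity : (0 : ℝ) ≤ E)
    rw [mul_add] at e3
    linarith

end

/-! ### From samples to lists -/

theorem length_filter_ofFn {α : Type} {m : ℕ} (g : Fin m → α) (p : α → Bool) :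
    ((List.ofFn g).filter p).length = (Finset.univ.filter (fun i => p (g i) = true)).card := by
  classical
  rw [List.ofFn_eq_map, List.filter_map, List.length_map]
  have h1 : ((List.finRange m).filter (p ∘ g)).Nodup := (List.nodup_finRange m).filter _
  rw [← List.toFinset_card_of_nodup h1]
  congr 1
  ext i
  simp

theorem length_filter_take_ofFn {α : Type} {m m₁ : ℕ} (hm : m₁ ≤ m) (g : Fin m → α)
    (p : α → Bool) : (((List.ofFn g).take m₁).filter p).length =
      (Finset.univ.filter (fun i : Fin m => i.val < m₁ ∧ p (g i) = true)).card := by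
  have h1 : (List.ofFn g).take m₁ = List.ofFn (fun i : Fin m₁ => g (Fin.castLE hm i)) := by
    apply List.ext_getElem
    · simp [hm]
    · intro i h2 h3
      simp
  rw [h1, length_filter_ofFn]
  apply Finset.card_bij (fun i _ => Fin.castLE hm i)
  · intro i hi
    rw [Finset.mem_filter] at hi ⊢
    exact ⟨Finset.mem_univ _, i.2, hi.2⟩
  · intro i _ j _ h
    exact Fin.castLE_injective hm h
  · intro i hi
    rw [Finset.mem_filter] at hi
    refine ⟨⟨i.val, hi.2.1⟩, ?_, rfl⟩
    rw [Finset.mem_filter]
    exact ⟨Finset.mem_univ _, hi.2.2⟩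

/-- The list of examples of a sample. -/
def smp {n m : ℕ} (f : Cube n → Bool) (ω : Fin m → Cube n) : List (List Bool × Bool) :=
  List.ofFn (fun i => (List.ofFn (ω i), f (ω i)))

/-- The negative examples. -/
def negL (s : List (List Bool × Bool)) : List (List Bool) := (s.filter (fun p => !p.2)).map Prod.fst

theorem goodL_of_goodS {n m m₁ : ℕ} (hm : m₁ ≤ m) {f : Cube n → Bool} {ω : Fin m → Cube n} {τ : ℝ}
    (h : GoodS f ω (Finset.univ.filter (fun i => i.val < m₁)) τ) :
    GoodL f (negL ((smp f ω).take m₁)) m₁ τ := by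
  classical
  have hA : (Finset.univ.filter (fun i : Fin m => i.val < m₁)).card = m₁ := by
    have h1 := length_filter_take_ofFn hm (fun i : Fin m => i) (fun _ => true)
    simp only [List.filter_true, List.length_take, List.length_ofFn, and_true] at h1
    rw [← h1]
    omega
  constructor
  · intro a ha
    unfold negL at ha
    obtain ⟨p, hp, rfl⟩ := List.mem_map.1 ha
    rw [List.mem_filter] at hp
    have h1 := List.mem_of_mem_take hp.1
    unfold smp at h1
    rw [List.mem_ofFn] at h1
    obtain ⟨i, rfl⟩ := h1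
    exact ⟨ω i, rfl, by simpa using hp.2⟩
  · intro G b
    have h1 := h G b
    rw [hA] at h1
    have h2 : (cP (negL ((smp f ω).take m₁)) G b) =
        ((Finset.univ.filter (fun i : Fin m => i.val < m₁)).filter
          (fun i => f (ω i) = false ∧ ∀ j ∈ G, ω i j = b j)).card := by
      unfold cP negL
      rw [List.filter_map, List.length_map, List.filter_filter]
      unfold smp
      rw [length_filter_take_ofFn hm]
      congr 1
      ext i
      simp only [Finset.mem_filter, Finset.mem_univ, true_and, Function.comp_apply,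
        Bool.and_eq_true, decide_eq_true_eq, Bool.not_eq_true', gb_ofFn]
      tauto
    rw [h2]
    exact h1

end Pool.Agent.H685R2.RK
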