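import Pool.Agent.H685R2.RK.Main

/-!
# The parameters, and the probability of failure
-/

namespace Pool.Agent.H685R2.RK

open Finset
open Pool.Agent.H685R2.VST (tup mem_tup)

/-- The inverse of the accuracy of the estimates. -/
def qP (k n E : ℕ) : ℕ := (8 * k * E * (n + 1)) ^ c2 k

/-- The number of examples of the first part of the sample. -/
def m1P (k n E D : ℕ) : ℕ := 64 * qP k n E ^ 2 * (4 * D + 2 * n)

/-- The inverse of the second accuracy. -/
def q2P (k n E D : ℕ) : ℕ := 4 * E * (m1P k n E D * (n * ((n + 1) ^ k * m1P k n E D)) + 1)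

/-- The number of examples needed. -/
def mP (k n E D : ℕ) : ℕ := m1P k n E D + 4 * q2P k n E D ^ 2 * (4 * D + 2 * n)

/-- Polynomially bounded functions. -/
def PB (f : ℕ → ℕ → ℕ → ℕ) : Prop := ∃ c, ∀ n E D, f n E D ≤ (n + E + D + 2) ^ c

theorem PB.const (a : ℕ) : PB (fun _ _ _ => a) := by
  refine ⟨a, fun n E D => ?_⟩
  exact (Nat.lt_two_pow_self.le).trans (Nat.pow_le_pow_left (by omega) _)

theorem PB.n : PB (fun n _ _ => n) := ⟨1, fun n E D => by simp only [pow_one]; omega⟩
theorem PB.E : PB (fun _ E _ => E) := ⟨1, fun n E D => by simp only [pow_one]; omega⟩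
theorem PB.D : PB (fun _ _ D => D) := ⟨1, fun n E D => by simp only [pow_one]; omega⟩

theorem PB.add {f g : ℕ → ℕ → ℕ → ℕ} (hf : PB f) (hg : PB g) :
    PB (fun n E D => f n E D + g n E D) := by
  obtain ⟨c, hc⟩ := hf
  obtain ⟨d, hd⟩ := hg
  refine ⟨c + d + 1, fun n E D => ?_⟩
  have h1 : (n + E + D + 2) ^ c ≤ (n + E + D + 2) ^ (c + d) :=
    Nat.pow_le_pow_right (by omega) (by omega)
  have h2 : (n + E + D + 2) ^ d ≤ (n + E + D + 2) ^ (c + d) :=
    Nat.pow_le_pow_right (by omega) (by omega)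
  have h3 : (n + E + D + 2) ^ (c + d + 1) = (n + E + D + 2) ^ (c + d) * (n + E + D + 2) := pow_succ _ _
  have h4 : (n + E + D + 2) ^ (c + d) * 2 ≤ (n + E + D + 2) ^ (c + d) * (n + E + D + 2) :=
    Nat.mul_le_mul_left _ (by omega)
  have h5 := hc n E D
  have h6 := hd n E D
  simp only
  omega

theorem PB.mul {f g : ℕ → ℕ → ℕ → ℕ} (hf : PB f) (hg : PB g) :
    PB (fun n E D => f n E D * g n E D) := by
  obtain ⟨c, hc⟩ := hf
  obtain ⟨d, hd⟩ := hg
  refine ⟨c + d, fun n E D => ?_⟩
  rw [pow_add]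
  exact Nat.mul_le_mul (hc n E D) (hd n E D)

theorem PB.pow {f : ℕ → ℕ → ℕ → ℕ} (hf : PB f) (e : ℕ) : PB (fun n E D => f n E D ^ e) := by
  obtain ⟨c, hc⟩ := hf
  refine ⟨c * e, fun n E D => ?_⟩
  rw [pow_mul]
  exact Nat.pow_le_pow_left (hc n E D) e

theorem PB_mP (k : ℕ) : PB (mP k) := by
  have hq : PB (fun n E _ => qP k n E) := by
    unfold qP
    exact (((PB.const _).mul PB.E).mul (PB.n.add (PB.const 1))).pow _
  have hD : PB (fun n _ D => 4 * D + 2 * n) :=
    ((PB.const 4).mul PB.D).add ((PB.const 2).mul PB.n)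
  have hm : PB (m1P k) := by
    unfold m1P
    exact ((PB.const 64).mul (hq.pow 2)).mul hD
  have hq2 : PB (q2P k) := by
    unfold q2P
    exact (((PB.const 4).mul PB.E)).mul
      ((hm.mul (PB.n.mul (((PB.n.add (PB.const 1)).pow k).mul hm))).add (PB.const 1))
  unfold mP
  exact hm.add (((PB.const 4).mul (hq2.pow 2)).mul hD)

theorem exp_bound (n D : ℕ) (hD : 0 < D) {x : ℝ} (hx : (4 * D + 2 * n : ℝ) ≤ x) :
    2 * 4 ^ n * Real.exp (-x) ≤ 1 / (2 * D) := by
  have h1 : Real.exp (-x) ≤ Real.exp (-(4 * D)) * Real.exp (-(2 * n)) := by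
    rw [← Real.exp_add]
    apply Real.exp_le_exp.2
    linarith
  have h2 : (4 : ℝ) ^ n * Real.exp (-(2 * n)) ≤ 1 := by
    have h3 : (4 : ℝ) ≤ Real.exp 2 := by
      have h4 := Real.add_one_le_exp (1 : ℝ)
      have h5 : Real.exp 2 = Real.exp 1 * Real.exp 1 := by
        rw [← Real.exp_add]
        norm_num
      rw [h5]
      nlinarith
    have h4 : Real.exp (2 * n) = (Real.exp 2) ^ n := by
      rw [← Real.exp_nat_mul]
      congr 1
      ring
    have h5 : (4 : ℝ) ^ n ≤ Real.exp (2 * n) := by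
      rw [h4]
      exact pow_le_pow_left₀ (by norm_num) h3 n
    rw [Real.exp_neg, ← div_eq_mul_inv]
    exact (div_le_one (Real.exp_pos _)).2 h5
  have hD' : (0 : ℝ) < D := by exact_mod_cast hD
  have h3 : Real.exp (-(4 * D : ℝ)) ≤ 1 / (4 * D) := by
    rw [Real.exp_neg, ← one_div]
    apply one_div_le_one_div_of_le (by positivity)
    have := Real.add_one_le_exp (4 * D : ℝ)
    linarith
  calc 2 * 4 ^ n * Real.exp (-x) ≤ 2 * 4 ^ n * (Real.exp (-(4 * D)) * Real.exp (-(2 * n))) := by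
        apply mul_le_mul_of_nonneg_left h1 (by positivity)
    _ = 2 * Real.exp (-(4 * D)) * (4 ^ n * Real.exp (-(2 * n))) := by ring
    _ ≤ 2 * Real.exp (-(4 * D)) * 1 := by
        apply mul_le_mul_of_nonneg_left h2 (by positivity)
    _ ≤ 2 * (1 / (4 * D)) * 1 := by
        apply mul_le_mul_of_nonneg_right _ (by norm_num)
        exact mul_le_mul_of_nonneg_left h3 (by norm_num)
    _ = 1 / (2 * D) := by ring

section

variable {k n E D m : ℕ}

theorem filt_card {m m₁ : ℕ} (hm : m₁ ≤ m) :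
    (Finset.univ.filter (fun i : Fin m => i.val < m₁)).card = m₁ := by
  classical
  have h1 := length_filter_take_ofFn hm (fun i : Fin m => i) (fun _ => true)
  simp only [List.filter_true, List.length_take, List.length_ofFn, and_true] at h1
  rw [← h1]
  omega

/-- The samples for which the learner fails are rare. -/
theorem fail_prob (hk : 1 ≤ k) (hE : 0 < E) (hD : 0 < D) (hm : mP k n E D ≤ m)
    {ι : Type} [DecidableEq ι] {F : ι → Finset (Fin n)}
    {v : ι → Fin n → Bool} {I : Finset ι} {f : Cube n → Bool} (hread : RdK F k I)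
    (hf : ∀ x, f x = true ↔ ∃ i ∈ I, Tr F v i x) :
    (D : ℝ) * Ms (fun ω : Fin m → Cube n => ¬ (E : ℝ) * N (fun b => evalH (learnN
      ((smp f ω).take (m1P k n E D)) k (10 * k) E (qP k n E) (m1P k n E D) (List.range n)
      (negL ((smp f ω).take (m1P k n E D))) (negL (smp f ω))) (List.ofFn b) ≠ f b) ≤ 2 ^ n) ≤
      (2 ^ n) ^ m := by
  set q := qP k n E with hqdef
  set m₁ := m1P k n E D with hm₁def
  set q₂ := q2P k n E D with hq₂def
  have hbq : 1 ≤ 8 * k * E * (n + 1) := Nat.one_le_iff_ne_zero.2 (by positivity)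
  have hqpos : 0 < q := by
    rw [hqdef]
    unfold qP
    positivity
  have hq₂pos : 0 < q₂ := by
    rw [hq₂def]
    unfold q2P
    positivity
  have hmm : m₁ ≤ m := le_trans (by unfold mP; omega) hm
  have hqm : q ≤ m₁ := by
    rw [hm₁def]
    unfold m1P
    rw [← hqdef]
    have h1 : q ≤ q ^ 2 := by
      rw [pow_two]
      exact Nat.le_mul_of_pos_left _ hqpos
    have h2 : q ^ 2 ≤ 64 * q ^ 2 * (4 * D + 2 * n) := by
      rw [mul_comm 64, mul_assoc]
      exact Nat.le_mul_of_pos_right _ (by omega)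
    omega
  have hm0 : 0 < m := lt_of_lt_of_le hqpos (hqm.trans hmm)
  -- the exponent
  set ℓ := Nat.clog 2 (4 * k * E * (n + 1)) with hℓdef
  have h4 : 4 ≤ 4 * k * E * (n + 1) := by
    have : 1 ≤ k * E * (n + 1) := Nat.one_le_iff_ne_zero.2 (by positivity)
    calc 4 ≤ 4 * (k * E * (n + 1)) := by omega
      _ = _ := by ring
  have hEℓ : 4 * k * E * (n + 1) ≤ 2 ^ ℓ := Nat.le_pow_clog (by norm_num) _
  have hℓ1 : 1 ≤ ℓ := by
    by_contra hcon
    have : ℓ = 0 := by omega
    rw [this] at hEℓ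
    omega
  have hq : 2 ^ (c2 k * ℓ) ≤ q := by
    rw [hqdef]
    unfold qP
    rw [mul_comm (c2 k) ℓ, pow_mul]
    apply Nat.pow_le_pow_left
    have h5 : 2 ^ (ℓ - 1) < 4 * k * E * (n + 1) :=
      Nat.pow_pred_clog_lt_self (by norm_num) (by omega)
    have h6 : 2 ^ ℓ = 2 * 2 ^ (ℓ - 1) := by
      rw [← pow_succ']
      congr 1
      omega
    rw [h6]
    calc 2 * 2 ^ (ℓ - 1) ≤ 2 * (4 * k * E * (n + 1)) := by omega
      _ = _ := by ring
  have key : ∀ ω : Fin m → Cube n,
      GoodS f ω (Finset.univ.filter (fun i => i.val < m₁)) (1 / (4 * q)) →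
      GoodS f ω (Finset.univ.filter (fun i => i.val < m)) (1 / q₂) →
      (E : ℝ) * N (fun b => evalH (learnN ((smp f ω).take m₁) k (10 * k) E q m₁ (List.range n)
        (negL ((smp f ω).take m₁)) (negL (smp f ω))) (List.ofFn b) ≠ f b) ≤ 2 ^ n := by
    intro ω g1 g2
    have h5 := goodL_of_goodS hmm g1
    have h6 := goodL_of_goodS le_rfl g2
    have h7 : (smp f ω).take m = smp f ω := by
      apply List.take_of_length_le
      unfold smp
      rw [List.length_ofFn]
    have h8 : (smp f ω).take m₁ = (smp f ω).take m₁ := rfl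
    have h9 : ((smp f ω).take m₁).length = m₁ := by
      rw [List.length_take]
      unfold smp
      rw [List.length_ofFn]
      omega
    rw [h7] at h6
    apply err_bound hk hE hread hf hℓ1 hEℓ hq hqm h5 hm0 h6 _ le_rfl _ h9
    unfold negL
    rw [List.length_map]
    exact (List.length_filter_le _ _).trans h9.le
  have hp1 : Ms (fun ω : Fin m → Cube n =>
      ¬ GoodS f ω (Finset.univ.filter (fun i => i.val < m₁)) (1 / (4 * q))) ≤
      1 / (2 * D) * (2 ^ n) ^ m := by
    have hq' : (0 : ℝ) < q := by exact_mod_cast hqpos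
    have hq1 : (1 : ℝ) ≤ q := by exact_mod_cast hqpos
    refine (good_prob f _ (by positivity) ?_).trans ?_
    · rw [div_le_one (by positivity)]
      linarith
    · apply mul_le_mul_of_nonneg_right _ (by positivity)
      apply exp_bound n D hD
      rw [filt_card hmm]
      have : (m₁ : ℝ) = 64 * q ^ 2 * (4 * D + 2 * n) := by
        rw [hm₁def]
        unfold m1P
        push_cast
        rw [← hqdef]
      rw [this]
      apply le_of_eq
      field_simp
      ring
  have hp2 : Ms (fun ω : Fin m → Cube n =>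
      ¬ GoodS f ω (Finset.univ.filter (fun i => i.val < m)) (1 / q₂)) ≤
      1 / (2 * D) * (2 ^ n) ^ m := by
    have hq' : (0 : ℝ) < q₂ := by exact_mod_cast hq₂pos
    have hq1 : (1 : ℝ) ≤ q₂ := by exact_mod_cast hq₂pos
    refine (good_prob f _ (by positivity) ?_).trans ?_
    · rw [div_le_one (by positivity)]
      exact hq1
    · apply mul_le_mul_of_nonneg_right _ (by positivity)
      apply exp_bound n D hD
      rw [filt_card le_rfl]
      have h5 : (4 * q₂ ^ 2 * (4 * D + 2 * n) : ℝ) ≤ m := by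
        have h6 : 4 * q₂ ^ 2 * (4 * D + 2 * n) ≤ m := by
          refine le_trans ?_ hm
          unfold mP
          rw [← hq₂def]
          exact Nat.le_add_left _ _
        exact_mod_cast h6
      have h6 : (m : ℝ) * (1 / q₂) ^ 2 / 4 = m / (4 * q₂ ^ 2) := by
        field_simp
      rw [h6, le_div_iff₀ (by positivity)]
      linarith
  have hD' : (0 : ℝ) < D := by exact_mod_cast hD
  have h5 : Ms (fun ω : Fin m → Cube n => ¬ (E : ℝ) * N (fun b => evalH (learnN
      ((smp f ω).take m₁) k (10 * k) E q m₁ (List.range n)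
      (negL ((smp f ω).take m₁)) (negL (smp f ω))) (List.ofFn b) ≠ f b) ≤ 2 ^ n) ≤
      1 / (2 * D) * (2 ^ n) ^ m + 1 / (2 * D) * (2 ^ n) ^ m := by
    refine le_trans (Ms_mono fun ω h => ?_) ((Ms_or_le _ _).trans (add_le_add hp1 hp2))
    by_contra hcon
    push Not at hcon
    exact h (key ω hcon.1 hcon.2)
  calc _ ≤ (D : ℝ) * (1 / (2 * D) * (2 ^ n) ^ m + 1 / (2 * D) * (2 ^ n) ^ m) :=
        mul_le_mul_of_nonneg_left h5 hD'.le
    _ = _ := by field_simp; ring

end

end Pool.Agent.H685R2.RK
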